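import Pool.Agent.Lib.MP_4b8564_nt.BhDefs

/-! Basic facts on the values `a ^ 2 + u T`, on residues and on differences. -/

namespace Pool.Agent.Lib.MP_4b8564_nt

open Polynomial Pool.Agent.Lib.MP_9227d9_nt.Mob

open scoped Classical

variable {k : Type} [Field k] [Fintype k] [CharP k 2] {w : k} {a D M x : k[X]} {m : ℕ}

theorem od_fa (w : k) (a : k[X]) : od (fa w a) = C w := od_eq _ _

theorem derivative_fa (w : k) (a : k[X]) : derivative (fa w a) = C (w ^ 2) := by
  rw [← od_pow_two, od_fa, map_pow]

omit [Fintype k] in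
theorem fa_add (w : k) (a y : k[X]) : fa w (a + y) = fa w a + y ^ 2 := by
  unfold fa
  rw [CharTwo.add_sq]
  ring

omit [CharP k 2] in
theorem MD_fa (hm : 1 ≤ m) (ha : MD m a) : MD (2 * m) (fa w a) := by
  have h1 : MD (2 * m) (a ^ 2) := ⟨ha.1.pow 2, by rw [natDegree_pow, ha.2]⟩
  refine h1.add ?_
  have h2 : (X * C w ^ 2 : k[X]).natDegree ≤ 1 := by
    rw [← map_pow, mul_comm]
    exact (natDegree_C_mul_le _ _).trans natDegree_X_le
  exact degree_lt_of_natDegree fun _ => by omega

theorem fa_ne_zero (hw : w ≠ 0) (a : k[X]) : fa w a ≠ 0 := fun h => by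
  have h1 := od_fa w a
  rw [h, od_zero] at h1
  exact hw (C_eq_zero.1 h1.symm)

theorem squarefree_fa (hw : w ≠ 0) (a : k[X]) : Squarefree (fa w a) := by
  by_contra h
  obtain ⟨p, hp, hd⟩ := exists_isP_of_not_squarefree (fa_ne_zero hw a) h
  have h1 := dvd_od_of_sq_dvd hd
  rw [od_fa] at h1
  exact hp.2.not_isUnit (isUnit_of_dvd_unit h1 (isUnit_C.2 (IsUnit.mk0 w hw)))

omit [Fintype k] in
theorem fa_injective (w : k) : Function.Injective (fa w) := fun a b h => by
  have h1 : (a + b) ^ 2 = 0 := by
    have h2 : a ^ 2 = b ^ 2 := add_right_cancel h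
    rw [CharTwo.add_sq, h2, CharTwo.add_self_eq_zero]
  exact CharTwo.add_eq_zero.1 (pow_eq_zero_iff two_ne_zero |>.1 h1)

theorem isCoprime_od (hD : Squarefree D) : IsCoprime D (od D) := by
  have h := isCoprime_derivative hD
  rw [← od_pow_two] at h
  exact (IsCoprime.pow_right_iff two_pos).1 h

theorem rt_spec (w : k) (hD : Squarefree D) : D ∣ fa w (rt w D) := by
  have h : ∃ r, D ∣ fa w r := by
    obtain ⟨s, t, hst⟩ := isCoprime_od hD
    refine ⟨C w * ev D * t, C w ^ 2 * t ^ 2 + X * C w ^ 2 * s ^ 2 * D, ?_⟩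
    have h1 := ev_od D
    have h2 : (2 : k[X]) = 0 := CharTwo.two_eq_zero
    unfold fa
    generalize ev D = e at *
    generalize od D = o at *
    have h3 : (s * D) ^ 2 + (t * o) ^ 2 = 1 := by rw [← CharTwo.add_sq, hst, one_pow]
    linear_combination (-(C w ^ 2 * t ^ 2)) * h1 - X * C w ^ 2 * h3
  unfold rt
  rw [dif_pos h]
  exact h.choose_spec

/-- A squarefree modulus has exactly one root. -/
theorem dvd_fa_iff (w : k) (hD : Squarefree D) (a : k[X]) : D ∣ fa w a ↔ D ∣ a + rt w D := by
  have h1 : fa w a = fa w (rt w D) + (a + rt w D) ^ 2 := by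
    rw [← fa_add, add_comm a, ← add_assoc, CharTwo.add_self_eq_zero, zero_add]
  rw [h1, dvd_add_right (rt_spec w hD), hD.dvd_pow_iff_dvd two_ne_zero]

/-- The density of the `a` with `M ∣ a ^ 2 + u T`. -/
theorem avm_dvd_fa (hw : w ≠ 0) (hM : M ≠ 0) (hm : M.natDegree ≤ m) :
    avm m (fun a => if M ∣ fa w a then (1 : ℝ) else 0) =
      if Squarefree M then 1 / qR k ^ M.natDegree else 0 := by
  split_ifs with h
  · have h1 := avg_dvd (n := m) hM hm isCoprime_one_left (X ^ m + rt w M)
    rw [Nm] at h1
    rw [← h1]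
    refine avg_congr fun v _ => if_congr ?_ rfl rfl
    rw [dvd_fa_iff w h, one_mul, add_right_comm]
  · rw [avm_congr (G := fun _ => 0) fun a _ =>
      if_neg fun hd => h ((squarefree_fa hw a).squarefree_of_dvd hd), avm_const]

/-- The root in terms of the even and odd parts of a multiple. -/
theorem dvd_rt_mul (w : k) (hD : Squarefree D) (u : k[X]) :
    D ∣ od (D * u) * rt w D - C w * ev (D * u) := by
  have h1 := rt_spec w hD
  have h2 := ev_od (D * u)
  have h3 : (2 : k[X]) = 0 := CharTwo.two_eq_zero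
  rw [← hD.dvd_pow_iff_dvd two_ne_zero, CharTwo.sub_eq_add, CharTwo.add_sq]
  obtain ⟨s, hs⟩ := h1
  unfold fa at hs
  refine ⟨od (D * u) ^ 2 * s + C w ^ 2 * u, ?_⟩
  generalize ev (D * u) = e at *
  generalize od (D * u) = o at *
  linear_combination o ^ 2 * hs - C w ^ 2 * h2 - X * C w ^ 2 * o ^ 2 * h3

omit [Fintype k] in
theorem sq_modByMonic (hM : M.Monic) (x : k[X]) : x ^ 2 %ₘ M ^ 2 = (x %ₘ M) ^ 2 := by
  refine (div_modByMonic_unique ((x /ₘ M) ^ 2) _ (hM.pow 2) ⟨?_, ?_⟩).2
  · rw [← mul_pow, ← CharTwo.add_sq, modByMonic_add_div]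
  · by_cases h0 : x %ₘ M = 0
    · rw [h0, zero_pow two_ne_zero, degree_zero]
      exact bot_lt_iff_ne_bot.2 (degree_ne_bot.2 (hM.pow 2).ne_zero)
    · refine degree_lt_degree ?_
      have := natDegree_lt_natDegree h0 (degree_modByMonic_lt x hM)
      rw [natDegree_pow, natDegree_pow]
      omega

/-- The residue of a square vanishes. -/
theorem eM_sq (hM : M.Monic) (x : k[X]) : eM (M ^ 2) (x ^ 2) = 1 := by
  unfold eM
  rw [sq_modByMonic hM, natDegree_pow]
  rcases Nat.eq_zero_or_pos M.natDegree with h | h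
  · rw [hM.natDegree_eq_zero.1 h, modByMonic_one, zero_pow two_ne_zero, coeff_zero]
    exact B0.ps_zero
  · rw [show 2 * M.natDegree - 1 = 2 * (M.natDegree - 1) + 1 by omega, Od.coeff_sq_odd]
    exact B0.ps_zero

/-- The Cartier operator preserves the character. -/
theorem eM_X_mul_sq (hM : M.Monic) (x : k[X]) : eM (M ^ 2) (X * x ^ 2) = eM M x := by
  rcases Nat.eq_zero_or_pos M.natDegree with h | h
  · rw [hM.natDegree_eq_zero.1 h, one_pow]
    simp only [eM, modByMonic_one]
  · have h1 : eM (M ^ 2) (X * x ^ 2) = eM (M ^ 2) (X * (x %ₘ M) ^ 2) :=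
      eM_congr (hM.pow 2) ⟨X * (x /ₘ M) ^ 2, by
        conv_lhs => rw [← modByMonic_add_div x M, CharTwo.add_sq,
          add_modByMonic, (modByMonic_eq_self_iff hM).2 (degree_modByMonic_lt x hM),
          self_mul_modByMonic hM]
        ring⟩
    have h2 : (x %ₘ M).natDegree < M.natDegree :=
      natDegree_modByMonic_lt x hM fun e => by simp [e] at h
    have h3 : (X * (x %ₘ M) ^ 2).natDegree < (M ^ 2).natDegree := by
      refine natDegree_mul_le.trans_lt ?_
      rw [natDegree_X, natDegree_pow, natDegree_pow]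
      omega
    rw [h1, TwB.eM_of_lt (hM.pow 2) (degree_lt_degree h3), natDegree_pow,
      show 2 * M.natDegree - 1 = 2 * (M.natDegree - 1) + 1 by omega, coeff_X_mul, Od.coeff_sq_even]
    exact B0.ps_sq _

section Dg

variable {r : ℕ} {F G A : k[X] → k[X]}

omit [Fintype k] [CharP k 2] in
theorem Dg.const (r : ℕ) (c : k[X]) : Dg r fun _ : k[X] => c := by
  induction r generalizing c with
  | zero => exact fun _ => rfl
  | succ r ih => exact fun _ => ih _

omit [Fintype k] [CharP k 2] in
theorem Dg.add (hF : Dg r F) (hG : Dg r G) : Dg r fun g => F g + G g := by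
  induction r generalizing F G with
  | zero => exact fun g => congrArg₂ (· + ·) (hF g) (hG g)
  | succ r ih =>
    intro h
    have e : (fun g => F (g + h) + G (g + h) + (F g + G g)) =
        fun g => (F (g + h) + F g) + (G (g + h) + G g) := funext fun g => by ring
    change Dg r fun g => F (g + h) + G (g + h) + (F g + G g)
    rw [e]
    exact ih (hF h) (hG h)

omit [Fintype k] [CharP k 2] in
theorem Dg.mul_left (c : k[X]) (hF : Dg r F) : Dg r fun g => c * F g := by
  induction r generalizing F with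
  | zero => exact fun g => congrArg (c * ·) (hF g)
  | succ r ih =>
    intro h
    have e : (fun g => c * F (g + h) + c * F g) = fun g => c * (F (g + h) + F g) :=
      funext fun g => by ring
    change Dg r fun g => c * F (g + h) + c * F g
    rw [e]
    exact ih (hF h)

omit [Fintype k] [CharP k 2] in
theorem Dg.shift (hF : Dg r F) (c : k[X]) : Dg r fun g => F (g + c) := by
  induction r generalizing F with
  | zero => exact fun g => (hF (g + c)).trans (hF (0 + c)).symm
  | succ r ih =>
    intro h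
    have e : (fun g => F (g + h + c) + F (g + c)) = fun g => F (g + c + h) + F (g + c) :=
      funext fun g => by rw [add_right_comm]
    change Dg r fun g => F (g + h + c) + F (g + c)
    rw [e]
    exact ih (hF h)

omit [Fintype k] [CharP k 2] in
theorem Dg.succ (hF : Dg r F) : Dg (r + 1) F := fun h => (hF.shift h).add hF

omit [Fintype k] [CharP k 2] in
theorem Dg.mono {r' : ℕ} (hF : Dg r F) (h : r ≤ r') : Dg r' F := by
  induction h with
  | refl => exact hF
  | step _ ih => exact ih.succ

omit [Fintype k] in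
theorem Dg.sum {ι : Type} (s : Finset ι) {F : ι → k[X] → k[X]} (hF : ∀ i ∈ s, Dg r (F i)) :
    Dg r fun g => ∑ i ∈ s, F i g := by
  induction s using Finset.induction_on with
  | empty => simpa using Dg.const r 0
  | insert i s hi ih =>
    simp only [Finset.sum_insert hi]
    exact (hF i (Finset.mem_insert_self _ _)).add (ih fun j hj => hF j (Finset.mem_insert_of_mem hj))

omit [Fintype k] in
theorem Dg.sq (hF : Dg r F) : Dg r fun g => F g ^ 2 := by
  induction r generalizing F with
  | zero => exact fun g => congrArg (· ^ 2) (hF g)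
  | succ r ih =>
    intro h
    have e : (fun g => F (g + h) ^ 2 + F g ^ 2) = fun g => (F (g + h) + F g) ^ 2 :=
      funext fun g => (CharTwo.add_sq _ _).symm
    change Dg r fun g => F (g + h) ^ 2 + F g ^ 2
    rw [e]
    exact ih (hF h)

omit [Fintype k] in
theorem Dg.additive_mul (hA : ∀ g h, A (g + h) = A g + A h) (hF : Dg r F) :
    Dg (r + 1) fun g => A g * F g := by
  induction r generalizing F with
  | zero =>
    intro h g
    have h2 : (2 : k[X]) = 0 := CharTwo.two_eq_zero
    change A (g + h) * F (g + h) + A g * F g = A (0 + h) * F (0 + h) + A 0 * F 0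
    rw [hF (g + h), hF g, hF (0 + h), hA, hA]
    linear_combination (A g * F 0 - A 0 * F 0) * h2
  | succ r ih =>
    intro h
    have e : (fun g => A (g + h) * F (g + h) + A g * F g) =
        fun g => A g * (F (g + h) + F g) + A h * F (g + h) := funext fun g => by
      rw [hA]
      ring
    change Dg (r + 1) fun g => A (g + h) * F (g + h) + A g * F g
    rw [e]
    exact (ih (hF h)).add ((hF.shift h).mul_left _)

omit [Fintype k] in
theorem Dg.even {i : ℕ} (h : Dg r fun g => A g ^ i) : Dg r fun g => A g ^ (2 * i) := by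
  simpa only [← pow_mul, mul_comm] using h.sq

omit [Fintype k] in
theorem Dg.odd {i : ℕ} (hA : ∀ g h, A (g + h) = A g + A h) (h : Dg r fun g => A g ^ i) :
    Dg (r + 1) fun g => A g ^ (2 * i + 1) := by
  simpa only [pow_succ'] using h.even.additive_mul hA

omit [Fintype k] in
theorem Dg.pow_lt (hA : ∀ g h, A (g + h) = A g + A h) {j : ℕ} (hj : j < 2 ^ r) :
    Dg r fun g => A g ^ j := by
  induction r generalizing j with
  | zero =>
    obtain rfl : j = 0 := by simpa using hj
    simpa using Dg.const 0 (1 : k[X])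
  | succ r ih =>
    rw [pow_succ] at hj
    obtain ⟨i, rfl | rfl⟩ := Nat.even_or_odd' j
    · exact (ih (by omega)).even.succ
    · exact (ih (by omega)).odd hA

omit [Fintype k] in
theorem Dg.pow_lt' (hA : ∀ g h, A (g + h) = A g + A h) {j : ℕ} (hj : j + 1 < 2 ^ (r + 1)) :
    Dg r fun g => A g ^ j := by
  induction r generalizing j with
  | zero =>
    obtain rfl : j = 0 := by omega
    simpa using Dg.const 0 (1 : k[X])
  | succ r ih =>
    rw [pow_succ] at hj
    obtain ⟨i, rfl | rfl⟩ := Nat.even_or_odd' j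
    · exact (Dg.pow_lt hA (by omega)).even
    · exact (ih (by omega)).odd hA

omit [Fintype k] in
/-- Below `3 * 2 ^ r - 1` only the exponent `2 ^ (r + 1) - 1` has `r + 1` binary digits one. -/
theorem Dg.pow_ne (hA : ∀ g h, A (g + h) = A g + A h) {j : ℕ} (hj : j + 1 < 3 * 2 ^ r)
    (hne : j + 1 ≠ 2 ^ (r + 1)) : Dg r fun g => A g ^ j := by
  induction r generalizing j with
  | zero =>
    obtain rfl : j = 0 := by omega
    simpa using Dg.const 0 (1 : k[X])
  | succ r ih =>
    have h0 : 0 < 2 ^ r := by positivity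
    rw [pow_succ] at hj hne
    obtain ⟨i, rfl | rfl⟩ := Nat.even_or_odd' j
    · exact (Dg.pow_lt' hA (by rw [pow_succ, pow_succ]; omega)).even
    · exact (ih (by omega) (by omega)).odd hA

end Dg

end Pool.Agent.Lib.MP_4b8564_nt
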