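import Pool.Agent.Lib.MP_4b8564_nt.BhA
import Pool.Agent.Lib.MP_9227d9_nt.MobB0
import Pool.Agent.Lib.MP_9227d9_nt.MobB

/-! The complete cubic sum and the van der Corput iteration with a periodic factor. -/

namespace Pool.Agent.Lib.MP_4b8564_nt

open Polynomial Pool.Agent.Lib.MP_9227d9_nt.Mob

open scoped Classical

namespace BhB

theorem total_le {K : Type} [Field K] [Fintype K] [CharP K 2] {J : Type} [Fintype J] [Nonempty J]
    {y : J → K} (hy : Function.Injective y) (v : J → K) (γ : K) {κ : K} (hκ : κ ≠ 0)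
    (Ψ : K → ℝ) (hΨ : ∀ s, |Ψ s| ≤ 1) :
    ((∑ x : K × K, B0.Ph y v γ κ x * Ψ x.1) / (Fintype.card K : ℝ) ^ 2) ^ 2 ≤
      ((Fintype.card J : ℝ) + 2) ^ 2 / Fintype.card K := by
  have hN : (1 : ℝ) ≤ Fintype.card K := by exact_mod_cast Fintype.card_pos
  have hs : 1 ≤ √(Fintype.card K : ℝ) := Real.one_le_sqrt.2 hN
  have hq : √(Fintype.card K : ℝ) ^ 2 = Fintype.card K := Real.sq_sqrt (Nat.cast_nonneg _)
  have h1 : |∑ x : K × K, B0.Ph y v γ κ x * Ψ x.1| ≤
      Fintype.card J * Fintype.card K + Fintype.card K * (2 * √(Fintype.card K)) := by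
    rw [Fintype.sum_prod_type]
    refine (Finset.abs_sum_le_sum_abs _ _).trans ?_
    calc _ ≤ ∑ s : K, ((if (∀ j, y j + s ≠ 0) ∧ ∑ j, (y j + s)⁻¹ = 0 then (Fintype.card K : ℝ)
          else 0) + 2 * √(Fintype.card K)) := by
          refine Finset.sum_le_sum fun s _ => ?_
          have e : |∑ t : K, B0.Ph y v γ κ (s, t) * Ψ (s, t).1| ≤
              |∑ t : K, B0.Ph y v γ κ (s, t)| := by
            have e1 : ∑ t : K, B0.Ph y v γ κ (s, t) * Ψ (s, t).1 =
                (∑ t : K, B0.Ph y v γ κ (s, t)) * Ψ s := by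
              rw [Finset.sum_mul]
            rw [e1, abs_mul]
            exact mul_le_of_le_one_right (abs_nonneg _) (hΨ s)
          refine e.trans ?_
          split_ifs with h
          · refine le_add_of_le_of_nonneg ((Finset.abs_sum_le_sum_abs _ _).trans ?_)
              (by positivity)
            simpa using Finset.sum_le_card_nsmul Finset.univ _ 1 fun (t : K) _ =>
              B0.abs_Ph y v γ κ (s, t)
          · rw [zero_add]
            exact B0.inner_le y v γ hκ s h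
      _ ≤ _ := by
          rw [Finset.sum_add_distrib, ← Finset.sum_filter, Finset.sum_const, Finset.sum_const,
            nsmul_eq_mul, nsmul_eq_mul, Finset.card_univ]
          gcongr
          exact B0.card_bad hy
  generalize (∑ x : K × K, B0.Ph y v γ κ x * Ψ x.1) = S at *
  generalize √(Fintype.card K : ℝ) = s at *
  rw [← hq] at h1 ⊢
  rw [← div_pow]
  refine sq_le_sq' (neg_le.1 ?_) ?_
  · rw [← neg_div, div_le_div_iff₀ (by positivity) (by positivity)]
    have h2 := neg_le_abs S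
    have h3 : (Fintype.card J : ℝ) * s ^ 3 * 1 ≤ Fintype.card J * s ^ 3 * s := by gcongr
    nlinarith [mul_le_mul_of_nonneg_right (h2.trans h1) (zero_le_one.trans hs)]
  · rw [div_le_div_iff₀ (by positivity) (by positivity)]
    have h2 := le_abs_self S
    have h3 : (Fintype.card J : ℝ) * s ^ 3 * 1 ≤ Fintype.card J * s ^ 3 * s := by gcongr
    nlinarith [mul_le_mul_of_nonneg_right (h2.trans h1) (zero_le_one.trans hs)]

theorem per_of_dvd {k : Type} [Field k] {p : k[X]} {ρ : k[X] → ℝ}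
    (hρ : ∀ x t, ρ (x + p * t) = ρ x) {x y : k[X]} (h : p ∣ x - y) : ρ x = ρ y := by
  obtain ⟨t, ht⟩ := h
  have e : x = y + p * t := by linear_combination ht
  rw [e, hρ]

end BhB

theorem stB1 : StB1 := by
  intro k _ _ _ p b w ρ J _ _ a L hp hb hw hρ hper ha hL
  have : Fact (Irreducible p) := ⟨hp.2⟩
  have : Module.Finite k (AdjoinRoot p) := (AdjoinRoot.powerBasis hp.1.ne_zero).finite
  have : Finite (AdjoinRoot p) := Module.finite_of_finite k
  let _ : Fintype (AdjoinRoot p) := Fintype.ofFinite _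
  have : CharP (AdjoinRoot p) 2 :=
    charP_of_injective_algebraMap (algebraMap k (AdjoinRoot p)).injective 2
  have hN : (Fintype.card (AdjoinRoot p) : ℝ) = Nm p := by
    rw [Module.card_eq_pow_finrank (K := k), (AdjoinRoot.powerBasis hp.1.ne_zero).finrank,
      AdjoinRoot.powerBasis_dim, Nat.cast_pow]
    rfl
  have h0 : ∀ x, AdjoinRoot.mk p x = 0 ↔ p ∣ x := fun x => AdjoinRoot.mk_eq_zero
  have hsq : ∀ x t, ρ (x + p ^ 2 * t) = ρ x := fun x t => by
    rw [sq, mul_assoc, hper]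
  have h1 := avg_affine (F := fun τ => ∏ j, (chi p b (a j + τ) * ρ (a j + τ))) (n := L)
    (M := p ^ 2) (β := w) (pow_ne_zero _ hp.1.ne_zero) (by rwa [natDegree_pow])
    (fun v t => by simp only [← add_assoc, chi_periodic, hsq])
    (hp.isCoprime_iff.2 hw).pow_right 0
  simp only [zero_add, natDegree_pow] at h1
  have hy : Function.Injective fun j => AdjoinRoot.mk p (a j) := fun i j h => by
    by_contra hne
    exact ha i j hne (AdjoinRoot.mk_eq_mk.1 h)
  obtain ⟨g, hg⟩ : ∃ g : AdjoinRoot p → k[X], ∀ s, AdjoinRoot.mk p (g s) = s :=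
    ⟨_, Function.surjInv_eq (AdjoinRoot.mk_surjective (g := p))⟩
  have h2 := BhB.total_le hy (fun j => AdjoinRoot.mk p (derivative (a j)))
    (AdjoinRoot.mk p (X * derivative b ^ 2)) (κ := AdjoinRoot.mk p (derivative b) ^ 4)
    (pow_ne_zero _ fun h => hb ((h0 _).1 h)) (fun s => ∏ j, ρ (a j + g s))
    (fun s => B.prod_le _ fun j => hρ _)
  rw [← B0.avg_eq hp h0 hN, hN] at h2
  rw [h1]
  refine le_of_eq_of_le (congrArg (· ^ 2) (avg_congr fun τ _ => ?_)) h2
  rw [Finset.prod_mul_distrib, B0.Ph]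
  congr 1
  · refine Finset.prod_congr rfl fun j _ => ?_
    rw [B0.chi_eq AdjoinRoot.mk_surjective h0 hb, derivative_add, map_add, map_add]
  · refine Finset.prod_congr rfl fun j _ => BhB.per_of_dvd hper ?_
    rw [add_sub_add_left_eq_sub]
    exact AdjoinRoot.mk_eq_mk.1 (hg _).symm

namespace BhB

/-- The statement proved by induction. -/
def Gen (m r : ℕ) (C : ℝ) : Prop :=
  ∀ (k : Type) [Field k] [Fintype k] [CharP k 2] (p b w : k[X]) (ρ : k[X] → ℝ) (J : Type)
    [Fintype J] [Nonempty J] (a : J → k[X]) (φ : Fin m → k[X] → ℝ) (M : Fin m → k[X]) (L : ℕ),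
    Fintype.card J ≤ r → IsP p → ¬ p ∣ derivative b → ¬ p ∣ w →
    (∀ x, |ρ x| ≤ 1) → (∀ x t, ρ (x + p * t) = ρ x) →
    (∀ i j, i ≠ j → ¬ p ∣ a i - a j) → (∀ i σ, |φ i σ| ≤ 1) →
    (∀ i σ t, φ i (σ + M i * t) = φ i σ) → (∀ i, ¬ p ∣ M i) →
    (∀ i, (M i).natDegree + p.natDegree ≤ L) → 2 * p.natDegree ≤ L →
    |avg L fun σ => (∏ j, (chi p b (a j + w * σ) * ρ (a j + w * σ))) * ∏ i, φ i σ| ^ 2 ^ (m + 1) ≤
      C / Nm p

theorem gen_zero (h : StB1) (r : ℕ) : Gen 0 r (((r : ℝ) + 2) ^ 2) := by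
  intro k _ _ _ p b w ρ J _ _ a φ M L hr hp hb hw hρ hρp ha _ _ _ _ hL
  have h1 := h k p b w ρ J a L hp hb hw hρ hρp ha hL
  simp only [Finset.univ_eq_empty, Finset.prod_empty, mul_one, zero_add, pow_one, sq_abs]
  refine h1.trans (div_le_div_of_nonneg_right ?_ (Nm_pos p).le)
  have : (Fintype.card J : ℝ) ≤ r := by exact_mod_cast hr
  gcongr

theorem gen_succ {m r : ℕ} {C : ℝ} (hC : 0 ≤ C) (ih : Gen m (2 * r) C) :
    Gen (m + 1) r (2 ^ (2 ^ (m + 1) - 1) * (((r : ℝ) ^ 2) ^ 2 ^ (m + 1) + C)) := by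
  intro k _ _ _ p b w ρ J _ _ a φ M L hr hp hb hw hρ hρp ha hφ hper hM hdeg hL
  have hN0 := Nm_pos p
  have hN1 : (1 : ℝ) ≤ Nm p := le_trans (by norm_num) hp.two_le_Nm
  have hE : 2 ^ (m + 1) ≠ 0 := by positivity
  obtain ⟨β, hβ, hβE⟩ : ∃ β : ℝ, 0 ≤ β ∧ β ^ 2 ^ (m + 1) = C / Nm p :=
    ⟨(C / Nm p) ^ (((2 ^ (m + 1) : ℕ) : ℝ)⁻¹), Real.rpow_nonneg (div_nonneg hC hN0.le) _,
      Real.rpow_inv_natCast_pow (div_nonneg hC hN0.le) hE⟩
  rw [pow_succ 2 (m + 1)]
  refine B.numer hE (sq_nonneg _) hβ hN1 hβE ?_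
  obtain ⟨G, hG⟩ : ∃ G : k[X] → ℝ, ∀ x, chi p b x * ρ x = G x := ⟨_, fun _ => rfl⟩
  have hG1 : ∀ x, |G x| ≤ 1 := fun x => by
    rw [← hG]
    exact B.mul_le (B.chi_le _ _ _) (hρ _)
  simp only [hG]
  set Φ : k[X] → ℝ := fun σ => (∏ j, G (a j + w * σ)) * ∏ i : Fin m, φ i.succ σ with hΦ
  have e0 : (fun σ => (∏ j, G (a j + w * σ)) * ∏ i, φ i σ) = fun σ => Φ σ * φ 0 σ := by
    funext σ
    rw [Fin.prod_univ_succ, hΦ]
    ring
  rw [e0]
  refine (B.vdc L p.natDegree Φ (φ 0) (M 0) (hφ 0) (hper 0) (hdeg 0)).trans ?_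
  refine avg_le_of_le fun t _ => ?_
  have hΦ1 : ∀ σ, |Φ σ| ≤ 1 := fun σ =>
    B.mul_le (B.prod_le _ fun j => hG1 _) (B.prod_le _ fun i => hφ _ _)
  have hcop : IsCoprime (-(w * M 0)) p := by
    rw [hp.isCoprime_iff, dvd_neg]
    intro h
    rcases hp.prime.dvd_or_dvd h with h | h
    · exact hw h
    · exact hM 0 h
  have key : ∀ t' : k[X], (avg L fun σ => Φ (σ + M 0 * t) * Φ (σ + M 0 * t')) ≤
      (∑ ij : J × J, if p ∣ (a ij.1 - a ij.2 + w * M 0 * t) + -(w * M 0) * t' then (1 : ℝ) else 0)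
        + β := by
    intro t'
    have hnn : ∀ ij ∈ (Finset.univ : Finset (J × J)), (0 : ℝ) ≤
        if p ∣ (a ij.1 - a ij.2 + w * M 0 * t) + -(w * M 0) * t' then (1 : ℝ) else 0 :=
      fun ij _ => by split_ifs <;> norm_num
    by_cases hbad : ∃ ij : J × J, p ∣ (a ij.1 - a ij.2 + w * M 0 * t) + -(w * M 0) * t'
    · obtain ⟨ij, hij⟩ := hbad
      have h1 := Finset.single_le_sum hnn (Finset.mem_univ ij)
      rw [if_pos hij] at h1
      have h2 : (avg L fun σ => Φ (σ + M 0 * t) * Φ (σ + M 0 * t')) ≤ 1 :=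
        avg_le_of_le fun σ _ => (le_abs_self _).trans (B.mul_le (hΦ1 _) (hΦ1 _))
      linarith
    · have h1 := Finset.sum_nonneg hnn
      have h2 := ih k p b w ρ (J ⊕ J)
        (Sum.elim (fun j => a j + w * M 0 * t) fun j => a j + w * M 0 * t')
        (fun i σ => φ i.succ (σ + M 0 * t) * φ i.succ (σ + M 0 * t')) (fun i => M i.succ) L
        (by rw [Fintype.card_sum]; omega) hp hb hw hρ hρp ?_
        (fun i σ => B.mul_le (hφ _ _) (hφ _ _))
        (fun i σ s => by
          rw [add_right_comm σ _ (M 0 * t), add_right_comm σ _ (M 0 * t'), hper, hper])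
        (fun i => hM _) (fun i => hdeg _) hL
      · rw [← hβE] at h2
        simp only [hG] at h2
        have h3 := le_of_pow_le_pow_left₀ hE hβ h2
        have e1 : (fun σ => Φ (σ + M 0 * t) * Φ (σ + M 0 * t')) = fun σ =>
            (∏ j : J ⊕ J, G (Sum.elim (fun j => a j + w * M 0 * t)
              (fun j => a j + w * M 0 * t') j + w * σ)) *
            ∏ i : Fin m, φ i.succ (σ + M 0 * t) * φ i.succ (σ + M 0 * t') := by
          funext σ
          rw [Fintype.prod_sum_type, Finset.prod_mul_distrib, hΦ]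
          simp only [Sum.elim_inl, Sum.elim_inr]
          have a1 : ∀ (j : J) (s : k[X]), a j + w * (σ + M 0 * s) = a j + w * M 0 * s + w * σ :=
            fun j s => by ring
          simp only [a1]
          ring
        rw [e1]
        exact ((le_abs_self _).trans h3).trans (le_add_of_nonneg_left h1)
      · rintro (i | i) (j | j) hij hd
        · refine ha i j (fun e => hij (by rw [e])) ?_
          simpa using hd
        · refine hbad ⟨(i, j), ?_⟩
          simp only [Sum.elim_inl, Sum.elim_inr] at hd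
          convert hd using 1
          ring
        · refine hbad ⟨(j, i), ?_⟩
          simp only [Sum.elim_inl, Sum.elim_inr] at hd
          rw [← dvd_neg] at hd
          convert hd using 1
          ring
        · refine ha i j (fun e => hij (by rw [e])) ?_
          simpa using hd
  refine (avg_mono fun t' _ => key t').trans ?_
  rw [avg_add, avg_const, avg_sum]
  have e2 : ∀ ij ∈ (Finset.univ : Finset (J × J)), (avg p.natDegree fun t' =>
      if p ∣ (a ij.1 - a ij.2 + w * M 0 * t) + -(w * M 0) * t' then (1 : ℝ) else 0) = 1 / Nm p :=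
    fun ij _ => avg_dvd hp.1.ne_zero le_rfl hcop _
  rw [Finset.sum_congr rfl e2, Finset.sum_const, Finset.card_univ, Fintype.card_prod,
    nsmul_eq_mul, mul_one_div]
  have : (Fintype.card J : ℝ) ≤ r := by exact_mod_cast hr
  push_cast
  rw [← sq]
  gcongr

theorem gen (h : StB1) (m : ℕ) : ∀ r, ∃ C, 0 ≤ C ∧ Gen m r C := by
  induction m with
  | zero => exact fun r => ⟨_, by positivity, gen_zero h r⟩
  | succ m ih =>
    intro r
    obtain ⟨C, hC, hG⟩ := ih (2 * r)
    exact ⟨_, by positivity, gen_succ hC hG⟩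

end BhB

theorem stB2 (h : StB1) : StB2 := by
  intro m
  choose C hC hG using fun n => BhB.gen h n 1
  refine ⟨∑ n ∈ Finset.range (m + 1), C n, ?_⟩
  intro k _ _ _ p b a w ρ ι _ φ M L hm hp hb hw hρ hρp hφ hper hM hdeg hL
  let e := (Fintype.equivFin ι).symm
  have h1 := hG (Fintype.card ι) k p b w ρ Unit (fun _ => a) (fun i => φ (e i)) (fun i => M (e i))
    L (by simp) hp hb hw hρ hρp (fun i j hij => absurd (Subsingleton.elim i j) hij)
    (fun i => hφ _) (fun i => hper _) (fun i => hM _) (fun i => hdeg _) hL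
  have e1 : (fun σ => (∏ _j : Unit, (chi p b (a + w * σ) * ρ (a + w * σ))) * ∏ i, φ (e i) σ) =
      fun σ => chi p b (a + w * σ) * ρ (a + w * σ) * ∏ i, φ i σ := by
    funext σ
    rw [Equiv.prod_comp e fun i => φ i σ]
    simp
  rw [e1] at h1
  have h2 : |avg L fun σ => chi p b (a + w * σ) * ρ (a + w * σ) * ∏ i, φ i σ| ≤ 1 :=
    abs_avg_le_of_le fun σ _ =>
      B.mul_le (B.mul_le (B.chi_le _ _ _) (hρ _)) (B.prod_le _ fun i => hφ _ _)
  refine (pow_le_pow_of_le_one (abs_nonneg _) h2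
    (Nat.pow_le_pow_right (by norm_num) (by omega))).trans (h1.trans ?_)
  refine div_le_div_of_nonneg_right ?_ (Nm_pos p).le
  exact Finset.single_le_sum (fun n _ => hC n) (Finset.mem_range.2 (by omega))

end Pool.Agent.Lib.MP_4b8564_nt
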