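import Pool.Agent.Lib.MP_4b8564_nt.BhA

/-! The error term tends to zero; primes of the form `a ^ 2 + u T`. -/

namespace Pool.Agent.Lib.MP_4b8564_nt

open Polynomial Pool.Agent.Lib.MP_9227d9_nt.Mob Filter

open scoped Classical

namespace BhErr

theorem lim_sq {r : ℝ} (h0 : 0 ≤ r) (h1 : r < 1) :
    Tendsto (fun m : ℕ => (m : ℝ) ^ 2 * r ^ m) atTop (nhds 0) :=
  tendsto_pow_const_mul_const_pow_of_abs_lt_one 2 (by rwa [abs_of_nonneg h0])

theorem lim_div {V : ℕ} (hV : V ≠ 0) :
    Tendsto (fun m : ℕ => (m : ℝ) ^ 2 / 2 ^ (m / V)) atTop (nhds 0) := by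
  have h1 := (lim_sq (r := 1 / 2) (by norm_num) (by norm_num)).comp
    ((tendsto_add_atTop_nat 1).comp (Nat.tendsto_div_const_atTop hV))
  have h2 := h1.const_mul (2 * (V : ℝ) ^ 2)
  rw [mul_zero] at h2
  refine squeeze_zero (fun m => by positivity) (fun m => ?_) h2
  have h3 : m ≤ V * (m / V + 1) := (Nat.lt_mul_div_succ m (Nat.pos_of_ne_zero hV)).le
  have h4 : (m : ℝ) ≤ V * ((m / V + 1 : ℕ) : ℝ) := by exact_mod_cast h3
  have h5 : (m : ℝ) ^ 2 ≤ (V * ((m / V + 1 : ℕ) : ℝ)) ^ 2 := by gcongr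
  simp only [Function.comp_apply]
  rw [div_le_iff₀ (by positivity)]
  refine h5.trans (le_of_eq ?_)
  rw [one_div_pow, pow_succ (2 : ℝ) (m / V)]
  field_simp

variable {k : Type} [Field k] [Fintype k] [CharP k 2]

theorem expr_eq (hL : StLm) (hM : StMn) {w : k} {E : k[X]} (hw : w ≠ 0) (hE : E.Monic)
    (hs : Squarefree E) {m : ℕ} (hm : E.natDegree < m) :
    ((2 * m - E.natDegree : ℕ) : ℝ) * Lm w E m +
      (∑ j ∈ Finset.range (m - E.natDegree + 1), (j : ℝ) * gg E j) / qR k ^ E.natDegree =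
    -∑ i ∈ Finset.range m, ((m - E.natDegree + 1 + i : ℕ) : ℝ) *
      (mu E * Un w E m (m + (i + 1))) := by
  rw [hL k w E m hw hE (by omega),
    show 2 * m - E.natDegree + 1 = (m - E.natDegree + 1) + m by omega, Finset.sum_range_add,
    Finset.sum_div]
  have e1 : ∑ j ∈ Finset.range (m - E.natDegree + 1),
      (j : ℝ) * (mu E * Un w E m (j + E.natDegree)) =
      ∑ j ∈ Finset.range (m - E.natDegree + 1), (j : ℝ) * gg E j / qR k ^ E.natDegree := by
    refine Finset.sum_congr rfl fun j hj => ?_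
    rw [(hM k).1 w E m j hw hE hs (by have := Finset.mem_range.1 hj; omega), mul_div_assoc]
  have e2 : ∀ i, m - E.natDegree + 1 + i + E.natDegree = m + (i + 1) := fun i => by omega
  simp only [e1, e2]
  ring

theorem un_le (hA : StRA) (hB : StRB) (h1 : StU1) (h2 : StU2) {w : k} {E : k[X]} (hw : w ≠ 0)
    (hE : E.Monic) : ∃ (V : ℕ) (C C' θ : ℝ), V ≠ 0 ∧ 0 ≤ θ ∧ θ < 1 ∧ ∀ᶠ m : ℕ in atTop,
      ∀ s, 1 ≤ s → s ≤ m → |Un w E m (m + s)| ≤ |C| / 2 ^ (m / V) + |C'| * θ ^ m := by
  obtain ⟨W, C, n₀, hW, hC⟩ := hA k w E hE.ne_zero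
  obtain ⟨C', θ, m₀, t0, t1, hC'⟩ := hB (4 * W)
  refine ⟨2 * W, C, C', θ, by omega, t0, t1, ?_⟩
  filter_upwards [eventually_ge_atTop n₀, eventually_ge_atTop m₀,
    eventually_ge_atTop (4 * W * E.natDegree)] with m a1 a2 a3 s s1 s2
  have p1 : 0 ≤ |C| / 2 ^ (m / (2 * W)) := by positivity
  have p2 : 0 ≤ |C'| * θ ^ m := by positivity
  by_cases c : 2 * W * s ≤ m
  · refine le_trans (h1 k w E m s _ (by omega) s1 fun h hh => hC (m + s) h (by omega) hh) ?_
    refine le_trans ?_ (le_add_of_nonneg_right p2)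
    have b1 : s ≤ m / (2 * W) := (Nat.le_div_iff_mul_le (by omega)).2 (by rwa [mul_comm])
    have b2 : s + m / (2 * W) ≤ (m + s) / W := by
      refine (Nat.le_div_iff_mul_le (by omega)).2 ?_
      have := Nat.div_mul_le_self m (2 * W)
      nlinarith
    have q0 := qR_pos (k := k)
    calc qR k ^ s * (C / qR k ^ ((m + s) / W))
        ≤ qR k ^ s * (|C| / qR k ^ (s + m / (2 * W))) := by
          refine mul_le_mul_of_nonneg_left ?_ (by positivity)
          refine le_trans (div_le_div_of_nonneg_right (le_abs_self C) (by positivity)) ?_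
          exact div_le_div_of_nonneg_left (abs_nonneg C) (by positivity)
            (pow_le_pow_right₀ one_le_qR b2)
      _ = |C| / qR k ^ (m / (2 * W)) := by
          rw [pow_add]
          field_simp
      _ ≤ |C| / 2 ^ (m / (2 * W)) :=
          div_le_div_of_nonneg_left (abs_nonneg C) (by positivity)
            (pow_le_pow_left₀ (by norm_num) two_le_qR _)
  · refine le_trans (h2 k w E m (m + s) (|C'| * θ ^ m) hw (by omega) (by omega) fun e he => ?_)
      (le_add_of_nonneg_left p1)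
    have b1 : 2 * E.natDegree ≤ s := by
      by_contra b
      have : 2 * W * s ≤ 2 * W * (2 * E.natDegree) := Nat.mul_le_mul_left _ (by omega)
      nlinarith
    have b2 : (e * E).natDegree = m - s + E.natDegree := by
      rw [he.1.natDegree_mul hE, he.2]
      omega
    have b3 : m ≤ 4 * W * (m - (e * E).natDegree) := by
      have : 2 * W * s ≤ 2 * W * (2 * (m - (e * E).natDegree)) :=
        Nat.mul_le_mul_left _ (by omega)
      nlinarith
    refine (hC' k w (e * E) m hw a2 (he.1.mul hE) (by omega) b3).trans ?_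
    have q0 := qR_pos (k := k)
    refine le_trans (div_le_div_of_nonneg_right
      (mul_le_mul_of_nonneg_right (le_abs_self C') (by positivity)) (by positivity)) ?_
    exact div_le_div_of_nonneg_left p2 (by positivity) (pow_le_pow_right₀ one_le_qR (by omega))

end BhErr

theorem stErr (hA : StRA) (hB : StRB) (h1 : StU1) (h2 : StU2) (hL : StLm) (hM : StMn) :
    StErr := by
  intro k _ _ _ w E hw hE hs
  obtain ⟨V, C, C', θ, hV, t0, t1, hU⟩ := BhErr.un_le hA hB h1 h2 hw hE
  have l1 := ((BhErr.lim_div hV).const_mul (2 * |C|)).add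
    ((BhErr.lim_sq t0 t1).const_mul (2 * |C'|))
  rw [mul_zero, mul_zero, add_zero] at l1
  refine squeeze_zero_norm' ?_ l1
  filter_upwards [hU, eventually_gt_atTop E.natDegree, eventually_ge_atTop 1] with m a1 a2 a3
  rw [BhErr.expr_eq hL hM hw hE hs a2, Real.norm_eq_abs, abs_neg]
  refine (Finset.abs_sum_le_sum_abs _ _).trans ?_
  have b : ∀ i ∈ Finset.range m, |((m - E.natDegree + 1 + i : ℕ) : ℝ) *
      (mu E * Un w E m (m + (i + 1)))| ≤ 2 * m * (|C| / 2 ^ (m / V) + |C'| * θ ^ m) := by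
    intro i hi
    have hi' := Finset.mem_range.1 hi
    have b1 : ((m - E.natDegree + 1 + i : ℕ) : ℝ) ≤ 2 * m := by
      have : m - E.natDegree + 1 + i ≤ 2 * m := by omega
      exact_mod_cast this
    rw [abs_mul, abs_mul, Nat.abs_cast]
    refine mul_le_mul b1 ?_ (by positivity) (by positivity)
    exact le_trans (mul_le_of_le_one_left (abs_nonneg _) (abs_mu_le E))
      (a1 (i + 1) (by omega) (by omega))
  refine (Finset.sum_le_card_nsmul _ _ _ b).trans (le_of_eq ?_)
  rw [Finset.card_range, nsmul_eq_mul]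
  ring

theorem stBH (hE : StErr) (hM : StMn) : StBH := by
  intro k _ _ _ w hw
  constructor
  · have l := (hE k w 1 hw monic_one squarefree_one).add_const 1
    rw [zero_add] at l
    refine l.congr' ?_
    filter_upwards [eventually_ge_atTop 1] with m hm
    have := (hM k).2.2 m hm
    simp only [natDegree_one, Nat.sub_zero, pow_zero, div_one]
    push_cast
    linarith
  · intro S hS
    set E := ∏ p ∈ S, p with hE'
    have q0 : 0 < qR k ^ E.natDegree := qR_pow_pos _
    have l1 := (hE k w E hw (monic_prod hS) (squarefree_prod hS)).eventually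
      (lt_mem_nhds (show -(1 / 4 / qR k ^ E.natDegree) < 0 from neg_lt_zero.2 (by positivity)))
    have l2 := (((tendsto_pow_const_mul_const_pow_of_abs_lt_one 1
      (show |(3 / 4 : ℝ)| < 1 by rw [abs_of_nonneg] <;> norm_num)).const_mul
        ((3 : ℝ) ^ S.card)).comp (tendsto_sub_atTop_nat E.natDegree)).eventually
      (gt_mem_nhds (show (3 : ℝ) ^ S.card * 0 < 1 / 4 by norm_num))
    filter_upwards [l1, l2, eventually_gt_atTop E.natDegree] with m a1 a2 a3
    have b1 := (hM k).2.1 S (m - E.natDegree) hS (by omega)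
    simp only [Function.comp_apply, pow_one] at a2
    have b2 : ∑ j ∈ Finset.range (m - E.natDegree + 1), (j : ℝ) * gg E j ≤ -(3 / 4) := by
      rw [← hE'] at b1
      nlinarith
    have b3 := div_le_div_of_nonneg_right b2 q0.le
    have b4 : 0 ≤ Lm w E m := avm_nonneg fun f _ => by split_ifs <;> norm_num
    have b5 : ((2 * m - E.natDegree : ℕ) : ℝ) ≤ 2 * m := by
      have : 2 * m - E.natDegree ≤ 2 * m := by omega
      exact_mod_cast this
    have b6 := mul_le_mul_of_nonneg_right b5 b4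
    have m0 : (0 : ℝ) < m := by exact_mod_cast (by omega : 0 < m)
    have b7 : 1 / 2 / qR k ^ E.natDegree ≤ 2 * m * Lm w E m := by
      have : -(3 / 4) / qR k ^ E.natDegree =
          -(1 / 4 / qR k ^ E.natDegree) - 1 / 2 / qR k ^ E.natDegree := by ring
      linarith
    rw [div_le_iff₀ q0] at b7
    rw [div_le_iff₀ (by positivity)]
    nlinarith

end Pool.Agent.Lib.MP_4b8564_nt
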