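import Pool.Agent.Lib.MP_4b8564_nt.BhA
import Pool.Agent.Lib.MP_9227d9_nt.MobA

/-!
The Moebius function of `a ^ 2 + u T`.
-/

namespace Pool.Agent.Lib.MP_4b8564_nt

open Polynomial Pool.Agent.Lib.MP_9227d9_nt.Mob

open scoped Classical

namespace BhF

variable {k : Type} [Field k] [Fintype k] [CharP k 2]

omit [CharP k 2] in
theorem mem_range {L : Type} [Field L] [Algebra k L] {z : L} (hz : z ^ Fintype.card k = z) :
    ∃ y : k, algebraMap k L y = z := by
  have h0 : (X ^ Fintype.card k - X : k[X]) ≠ 0 :=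
    FiniteField.X_pow_card_sub_X_ne_zero k Fintype.one_lt_card
  have hs : (X ^ Fintype.card k - X : k[X]).Splits := by
    rw [splits_iff_card_roots, FiniteField.roots_X_pow_card_sub_X,
      FiniteField.X_pow_card_sub_X_natDegree_eq k Fintype.one_lt_card]
    rfl
  exact hs.mem_range_of_isRoot h0 (i := algebraMap k L) (x := z) (by simp [hz])

omit [CharP k 2] in
/-- The sign is read off from the action of the Frobenius map on a root of `z ^ 2 + z = t`. -/
theorem ps0_eq_sign {L : Type} [Field L] [CharP L 2] [Algebra k L] {t : k} {z : L} {P : Prop}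
    [Decidable P]
    (h1 : z ^ 2 + z = algebraMap k L t) (h2 : z ^ Fintype.card k = z + if P then 0 else 1) :
    ps0 t = if P then 1 else -1 := by
  unfold ps0
  by_cases hP : P
  · rw [if_pos hP, add_zero] at h2
    obtain ⟨y, rfl⟩ := mem_range h2
    rw [if_pos hP, if_pos ⟨y, (algebraMap k L).injective (by rw [← h1, map_add, map_pow])⟩]
  · rw [if_neg hP] at h2
    rw [if_neg hP, if_neg]
    rintro ⟨y, rfl⟩
    have h3 : (z + algebraMap k L y) * (z + algebraMap k L (y + 1)) = 0 := by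
      have h4 : (2 : L) = 0 := CharTwo.two_eq_zero
      rw [map_add, map_pow] at h1
      rw [map_add, map_one]
      linear_combination h1 + (z * algebraMap k L y + algebraMap k L y ^ 2 + algebraMap k L y) * h4
    have h5 : ∃ v : k, algebraMap k L v = z := by
      rcases mul_eq_zero.1 h3 with h | h
      · exact ⟨_, (CharTwo.add_eq_zero.1 h).symm⟩
      · exact ⟨_, (CharTwo.add_eq_zero.1 h).symm⟩
    obtain ⟨v, rfl⟩ := h5
    rw [← map_pow, FiniteField.pow_card] at h2
    exact one_ne_zero (left_eq_add.1 h2)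

/-- Reciprocity between the moduli `a ^ 2 + u T` and `a`. -/
theorem recip {w : k} (hw : w ≠ 0) {m : ℕ} (hm : 1 ≤ m) {a : k[X]} (ha : MD m a) :
    eM (fa w a) (C (w ^ 2)⁻¹ * (X * a * derivative a ^ 3)) =
      ps0 ((m : k) ^ 3) * eM a (C (w ^ 2)⁻¹ * X * derivative a ^ 3) := by
  have hf := MD_fa (w := w) hm ha
  have hd : (derivative a).natDegree ≤ m - 1 := ha.2 ▸ natDegree_derivative_le a
  have hc : (derivative a).coeff (m - 1) = m := by
    have e : m - 1 + 1 = a.natDegree := by rw [ha.2]; omega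
    rw [coeff_derivative, e, ha.1.coeff_natDegree, one_mul, ← Nat.cast_add_one]
    congr 1
    omega
  have h2 : (2 : k[X]) = 0 := CharTwo.two_eq_zero
  have hu : (C (w ^ 2)⁻¹ * C w ^ 2 : k[X]) = 1 := by
    rw [← map_pow, ← map_mul, inv_mul_cancel₀ (pow_ne_zero 2 hw), map_one]
  have e1 : C (w ^ 2)⁻¹ * (X * a * derivative a ^ 3) * a =
      X ^ 2 * derivative a ^ 3 + C (w ^ 2)⁻¹ * X * derivative a ^ 3 * fa w a := by
    unfold fa
    linear_combination (-(X ^ 2 * derivative a ^ 3)) * hu - (X ^ 2 * derivative a ^ 3) * h2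
  have hn : (fa w a * a).natDegree = 3 * m := by
    rw [hf.1.natDegree_mul ha.1, hf.2, ha.2]
    omega
  have hl : (X ^ 2 * derivative a ^ 3 : k[X]).natDegree ≤ 2 + 3 * (m - 1) :=
    natDegree_mul_le.trans (add_le_add (natDegree_X_pow_le 2)
      (natDegree_pow_le.trans (Nat.mul_le_mul_left 3 hd)))
  rw [← eM_mul hf.1 ha.1, e1, eM_add, TwB.eM_of_lt (hf.1.mul ha.1) (degree_lt_degree (by omega)),
    hn, show 3 * m - 1 = 3 * (m - 1) + 2 by omega, coeff_X_pow_mul, coeff_pow_of_natDegree_le hd,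
    hc, mul_comm (fa w a) a, eM_mul ha.1 hf.1]

end BhF

theorem stF (h1 : StA1) (h2 : StF2) : StF := by
  intro k _ _ _ w m hw hm
  obtain ⟨ε, hε⟩ := h2 m hm
  refine ⟨ps0 (ε : k) * ps0 ((m : k) ^ 3), ?_, fun a ha => ?_⟩
  · rw [abs_mul, ps0_eq, ps0_eq, B0.abs_ps, B0.abs_ps, one_mul]
  have hf := MD_fa (w := w) hm ha
  have hs := squarefree_fa hw a
  obtain ⟨α, s, hα, hαF, hαs⟩ := A.exists_enum hf.1 hf.2 hs
  have hmap : (fa w a).map (algebraMap k (AlgebraicClosure k)) =
      a.map (algebraMap k (AlgebraicClosure k)) ^ 2 +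
        X * C (algebraMap k (AlgebraicClosure k) (w ^ 2)) := by
    simp [fa]
  have hφ : ∀ y : k, (FiniteField.frobeniusAlgHom k (AlgebraicClosure k)).toRingHom
      (algebraMap k (AlgebraicClosure k) y) = algebraMap k (AlgebraicClosure k) y := fun y =>
    (FiniteField.frobeniusAlgHom k (AlgebraicClosure k)).commutes y
  obtain ⟨z, hz1, hz2⟩ := hε (AlgebraicClosure k)
    (FiniteField.frobeniusAlgHom k (AlgebraicClosure k)).toRingHom α s
    (a.map (algebraMap k (AlgebraicClosure k))) (algebraMap k (AlgebraicClosure k) (w ^ 2)) hα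
    (fun i => (hαs i).symm) (ha.1.map _) (by rw [natDegree_map, ha.2])
    (by ext i; rw [coeff_map, coeff_map, hφ]) (hφ _)
    ((_root_.map_ne_zero _).2 (pow_ne_zero 2 hw)) (hmap ▸ hαF)
  have hz3 : z ^ 2 + z = algebraMap k (AlgebraicClosure k)
      (ε + ((C (w ^ 2)⁻¹ * (X * a * derivative a ^ 3)) %ₘ fa w a).coeff (2 * m - 1)) := by
    rw [hz1, ← hmap, ← smul_eq_C_mul, smul_modByMonic, coeff_smul, smul_eq_mul, map_add,
      map_natCast, map_mul, map_inv₀, ← coeff_map, map_modByMonic _ hf.1, div_eq_inv_mul]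
    simp [derivative_map]
  have h3 := BhF.ps0_eq_sign hz3 hz2
  have h4 := BhF.recip hw hm ha
  rw [eM, hf.2] at h4
  rw [ps0_eq, B0.ps_add, ← ps0_eq, ← ps0_eq, h4] at h3
  rw [h1 k _ _ α s hs hαF hαs, mul_assoc, h3, pow_mul]
  rcases Int.units_eq_one_or (Equiv.Perm.sign s) with h | h <;> simp [h]

end Pool.Agent.Lib.MP_4b8564_nt
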