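import Pool.Agent.Lib.MP_4b8564_nt.BhA
import Pool.Agent.Lib.MP_232f4c_nt.CwRes

/-! The discriminant of `a ^ 2 + u T` modulo eight. -/

namespace Pool.Agent.Lib.MP_4b8564_nt

open Polynomial Pool.Agent.Lib.MP_9227d9_nt.Mob Pool.Agent.Lib.MP_232f4c_nt.Cw

open scoped Classical

namespace BhF2

variable {O L : Type} [CommRing O] [Field L] {r : O →+* L}

theorem tail [IsDomain O] [CharP L 2] (h : A2.Loc r) (Φ : O →+* O) (φ : L →+* L)
    (hΦ : ∀ x, r (Φ x) = φ (r x)) {n : ℕ} (a : Fin n → O) (s : Equiv.Perm (Fin n))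
    (ha : ∀ i, Φ (a i) = a (s i)) {ρ : O} (hρr : r ρ ≠ 0) (hρΦ : Φ ρ = ρ) {N : ℤ} (hNo : Odd N)
    {E : L} (v5 : A2.V r ((Matrix.vandermonde a).det ^ 2) (N * ρ ^ 2) E) :
    ∃ z : L, z ^ 2 + z = ((N / 4 : ℤ) : L) + E ∧
      φ z = z + if Equiv.Perm.sign s = 1 then 0 else 1 := by
  have h2L : (2 : L) = 0 := CharTwo.two_eq_zero
  have hδΦ := CwRes.detPhi Φ a s ha
  generalize (Matrix.vandermonde a).det = δ at *
  have hρ0 : ρ ≠ 0 := fun e => hρr (by rw [e, map_zero])
  obtain ⟨τ, hτ⟩ : ∃ τ, δ = ρ * (1 + 2 * τ) := by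
    obtain ⟨w, hw, -⟩ := v5
    obtain ⟨k, hk⟩ := hNo
    have e1 := congrArg r hw
    simp only [hk, map_mul, map_pow, map_add, map_one, h.four, h.two, Int.cast_add, Int.cast_mul,
      Int.cast_ofNat, Int.cast_one, zero_mul, zero_add, add_zero, one_mul, mul_one] at e1
    have e2 : r (δ - ρ) ^ 2 = 0 := by
      rw [map_sub]
      linear_combination e1 + (r ρ ^ 2 - r δ * r ρ) * h2L
    obtain ⟨c, hc⟩ := h.ker _ (pow_eq_zero_iff two_ne_zero |>.1 e2)
    obtain ⟨u, hu⟩ := (h.unit ρ hρr).exists_right_inv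
    exact ⟨u * c, by linear_combination hc - 2 * c * hu⟩
  have hN4 : N = 1 + 4 * (N / 4) := by
    by_contra hne
    obtain ⟨k, hk⟩ : ∃ k, N = 3 + 4 * k := ⟨N / 4, by have := Int.odd_iff.1 hNo; omega⟩
    obtain ⟨w, hw, -⟩ := v5
    rw [hτ, hk] at hw
    push_cast at hw
    have e1 : ρ ^ 2 * (2 * (1 : O)) = ρ ^ 2 * (2 * (2 * (τ + τ ^ 2 - k - (3 + 4 * k) * w))) := by
      linear_combination -hw
    have e2 := congrArg r (mul_left_cancel₀ h.ne (mul_left_cancel₀ (pow_ne_zero 2 hρ0) e1))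
    rw [map_mul, h.two, zero_mul, map_one] at e2
    exact one_ne_zero e2
  have v6 : A2.V r (N * ρ ^ 2) (ρ ^ 2) ((N / 4 : ℤ) : L) :=
    ⟨((N / 4 : ℤ) : O), by nth_rewrite 1 [hN4]; push_cast; ring, map_intCast r _⟩
  have v7 : A2.V r (δ ^ 2) (ρ ^ 2) (r τ ^ 2 + r τ) :=
    ⟨τ ^ 2 + τ, by rw [hτ]; ring, by simp⟩
  have key := A2.V.unique h (pow_ne_zero 2 hρ0) v7 (v5.trans h v6)
  refine ⟨r τ, by rw [key, add_comm], ?_⟩
  have e2 := congrArg Φ hτ
  rw [hδΦ, map_mul, map_add, map_mul, map_one, map_ofNat, hρΦ, hτ] at e2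
  rw [← hΦ]
  rcases Int.units_eq_one_or (Equiv.Perm.sign s) with hs | hs
  · rw [hs] at e2
    have e3 : ρ * (2 * Φ τ) = ρ * (2 * τ) := by
      push_cast at e2
      linear_combination -e2
    rw [mul_left_cancel₀ h.ne (mul_left_cancel₀ hρ0 e3), if_pos hs, add_zero]
  · rw [hs] at e2
    have e3 : ρ * (2 * Φ τ) = ρ * (2 * (-1 - τ)) := by
      push_cast at e2
      linear_combination -e2
    rw [mul_left_cancel₀ h.ne (mul_left_cancel₀ hρ0 e3), if_neg (by rw [hs]; decide), map_sub,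
      map_neg, map_one]
    linear_combination (-1 - r τ) * h2L

theorem prod8 {ι : Type} (s : Finset ι) (H : ι → O) : ∃ e t : O,
    (∑ i ∈ s, H i) ^ 2 - ∑ i ∈ s, H i ^ 2 = 2 * e ∧
      ∏ i ∈ s, (1 + 2 * H i) = 1 + 2 * ∑ i ∈ s, H i + 4 * e + 8 * t := by
  induction s using Finset.induction_on with
  | empty => exact ⟨0, 0, by simp, by simp⟩
  | insert i s hi ih =>
    obtain ⟨e, t, h1, h2⟩ := ih
    rw [Finset.sum_insert hi, Finset.sum_insert hi, Finset.prod_insert hi, h2]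
    exact ⟨e + H i * ∑ i ∈ s, H i, t + H i * e + 2 * H i * t, by linear_combination h1, by ring⟩

/-- The formula of Euler for a sum over the roots. -/
theorem sum_roots [Nontrivial O] {n : ℕ} (a : Fin n → O) (g : O[X]) :
    ((g * derivative (∏ i, (X - C (a i)))) %ₘ ∏ i, (X - C (a i))).coeff (n - 1) =
      ∑ i, g.eval (a i) := by
  obtain ⟨hm, hd⟩ := CwRes.deg_prod a
  have h1 : ∀ i, (∏ j ∈ Finset.univ.erase i, (X - C (a j))).Monic ∧
      (∏ j ∈ Finset.univ.erase i, (X - C (a j))).natDegree = n - 1 := fun i => by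
    refine ⟨monic_prod_of_monic _ _ fun j _ => monic_X_sub_C _, ?_⟩
    rw [natDegree_prod_of_monic _ _ fun j _ => monic_X_sub_C _]
    simp
  have h2 : ∏ i, (X - C (a i)) ∣ g * derivative (∏ i, (X - C (a i))) -
      ∑ i, C (g.eval (a i)) * ∏ j ∈ Finset.univ.erase i, (X - C (a j)) := by
    rw [derivative_prod_finset, Finset.mul_sum, ← Finset.sum_sub_distrib]
    refine Finset.dvd_sum fun i _ => ?_
    rw [derivative_X_sub_C, mul_one, ← sub_mul,
      ← Finset.mul_prod_erase Finset.univ (fun j => X - C (a j)) (Finset.mem_univ i)]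
    exact mul_dvd_mul_right (X_sub_C_dvd_sub_C_eval) _
  rw [modByMonic_eq_of_dvd_sub hm h2, (modByMonic_eq_self_iff hm).2, finsetSum_coeff]
  · refine Finset.sum_congr rfl fun i _ => ?_
    rw [coeff_C_mul, ← (h1 i).2, (h1 i).1.coeff_natDegree, mul_one]
  · rw [degree_eq_natDegree hm.ne_zero, hd]
    refine (degree_sum_le _ _).trans_lt ((Finset.sup_lt_iff (WithBot.bot_lt_coe _)).2 fun i _ => ?_)
    have := i.pos
    refine (degree_le_natDegree.trans (Nat.cast_le.2 ((natDegree_C_mul_le _ _).trans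
      (h1 i).2.le))).trans_lt (Nat.cast_lt.2 (by omega))

theorem main [IsDomain O] [CharP L 2] (h : A2.Loc r) {m : ℕ} (a : Fin (2 * (m + 1)) → O)
    (A : O[X]) (u : O) (hA : A.Monic) (hd : A.natDegree = m + 1) (hu : r u ≠ 0)
    (hF : A ^ 2 + X * C u = ∏ i, (X - C (a i))) :
    A2.V r ((Matrix.vandermonde a).det ^ 2)
      ((A2.eta (2 * (m + 1)) * (2 * (m + 1) + 1) : ℤ) * (u ^ (m + 1)) ^ 2)
      (r (((X * A * derivative A ^ 3) %ₘ (A ^ 2 + X * C u)).coeff (2 * (m + 1) - 1)) / r u) := by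
  obtain ⟨hm, hd'⟩ := CwRes.deg_prod a
  have hE := sum_roots a
  rw [A2.disc]
  rw [← hF] at hm hd' hE ⊢
  obtain ⟨v, hv⟩ := (h.unit u hu).exists_right_inv
  have hB1 : (derivative A).natDegree ≤ m := by
    have := natDegree_derivative_le A
    omega
  have hB2 : (derivative A).coeff m = (m + 1 : ℕ) := by
    rw [coeff_derivative, ← hd, hA.coeff_natDegree, one_mul, hd]
    push_cast
    rfl
  have hD : derivative (A ^ 2 + X * C u) = 2 * (A * derivative A) + C u := by
    rw [sq]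
    simp only [derivative_add, derivative_mul, derivative_X, derivative_C]
    ring
  generalize derivative A = B at *
  obtain ⟨F, hFe⟩ : ∃ F, F = A ^ 2 + X * C u := ⟨_, rfl⟩
  rw [← hFe] at hm hd' hE hD ⊢
  rw [hD] at hE ⊢
  have c1 : (A * B).coeff (2 * (m + 1) - 1) = (m + 1 : ℕ) := by
    rw [show 2 * (m + 1) - 1 = (m + 1) + m by omega, coeff_mul_add_eq_of_natDegree_le hd.le hB1,
      hB2, ← hd, hA.coeff_natDegree, one_mul]
  have c2 : (X * B ^ 2).coeff (2 * (m + 1) - 1) = ((m + 1 : ℕ) : O) ^ 2 := by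
    rw [show 2 * (m + 1) - 1 = (m + m) + 1 by omega, coeff_X_mul, sq,
      coeff_mul_add_eq_of_natDegree_le hB1 hB1, hB2, sq]
  have d1 : (A * B) %ₘ F = A * B := (modByMonic_eq_self_iff hm).2 (degree_lt_degree (by
    have := natDegree_mul_le (p := A) (q := B)
    omega))
  have d2 : (X * B ^ 2) %ₘ F = X * B ^ 2 := (modByMonic_eq_self_iff hm).2 (degree_lt_degree (by
    have h1 := natDegree_mul_le (p := (X : O[X])) (q := B ^ 2)
    have h2 := natDegree_pow_le (p := B) (n := 2)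
    rw [natDegree_X] at h1
    omega))
  obtain ⟨c, hc⟩ : ∃ c, c = ((X * A * B ^ 3) %ₘ F).coeff (2 * (m + 1) - 1) := ⟨_, rfl⟩
  rw [← hc]
  have s1 : ∑ i, (A * B).eval (a i) = u * (((m + 1 : ℕ) : O) - 2 * ((m + 1 : ℕ) : O) ^ 2) := by
    have e : A * B * (2 * (A * B) + C u) =
        F * (2 * B ^ 2) + (u • (A * B) + (-(2 * u)) • (X * B ^ 2)) := by
      simp only [smul_eq_C_mul, map_neg, map_mul, map_ofNat]
      rw [hFe]
      ring
    rw [← hE, e, add_modByMonic, self_mul_modByMonic hm, zero_add, add_modByMonic,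
      smul_modByMonic, smul_modByMonic, d1, d2, coeff_add, coeff_smul, coeff_smul, c1, c2,
      smul_eq_mul, smul_eq_mul]
    ring
  have s2 : ∑ i, (A * B).eval (a i) ^ 2 = -(2 * u * c) - u ^ 2 * ((m + 1 : ℕ) : O) ^ 2 := by
    have e : (A * B) ^ 2 * (2 * (A * B) + C u) = F * (B ^ 2 * (2 * (A * B) + C u)) +
        ((-(2 * u)) • (X * A * B ^ 3) + (-(u ^ 2)) • (X * B ^ 2)) := by
      simp only [smul_eq_C_mul, map_neg, map_mul, map_ofNat, map_pow]
      rw [hFe]
      ring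
    simp only [← eval_pow]
    rw [← hE, e, add_modByMonic, self_mul_modByMonic hm, zero_add, add_modByMonic,
      smul_modByMonic, smul_modByMonic, d2, coeff_add, coeff_smul, coeff_smul, ← hc, c2,
      smul_eq_mul, smul_eq_mul]
    ring
  obtain ⟨e, t, h1, h2⟩ := prod8 Finset.univ fun i => v * (A * B).eval (a i)
  simp only [mul_pow v] at h1
  rw [← Finset.mul_sum, ← Finset.mul_sum, s1, s2] at h1
  rw [← Finset.mul_sum, s1] at h2
  have h3 : ∏ i, (2 * (A * B) + C u).eval (a i) =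
      (u ^ (m + 1)) ^ 2 * ∏ i, (1 + 2 * (v * (A * B).eval (a i))) := by
    rw [← pow_mul, mul_comm (m + 1) 2, ← Fin.prod_const, ← Finset.prod_mul_distrib]
    refine Finset.prod_congr rfl fun i _ => ?_
    rw [eval_add, eval_mul, eval_C, eval_ofNat]
    linear_combination (-2 * (A * B).eval (a i)) * hv
  obtain ⟨M, hM⟩ : ∃ M : O, M = (m + 1 : ℕ) := ⟨_, rfl⟩
  rw [← hM] at h1 h2
  have h4 : e = M ^ 2 - 2 * M ^ 3 + 2 * M ^ 4 + v * c := by
    refine mul_left_cancel₀ h.ne ?_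
    linear_combination -h1 + ((M - 2 * M ^ 2) ^ 2 * (u * v + 1) + 2 * v * c +
      M ^ 2 * (u * v + 1)) * hv
  have h5 : ∏ i, (1 + 2 * (v * (A * B).eval (a i))) =
      (2 * M + 1) + 4 * (v * c + 2 * (t - M ^ 3 + M ^ 4)) := by
    rw [h2, h4]
    linear_combination 2 * (M - 2 * M ^ 2) * hv
  have h6 : r (2 * M + 1) = 1 := by rw [map_add, map_mul, h.two, zero_mul, zero_add, map_one]
  have v1 := A2.V.of_add h (y := 2 * M + 1) (w := v * c + 2 * (t - M ^ 3 + M ^ 4))
    (by rw [h6]; exact one_ne_zero)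
  have h7 : r (v * c + 2 * (t - M ^ 3 + M ^ 4)) / r (2 * M + 1) = r c / r u := by
    have := congrArg r hv
    rw [map_mul, map_one] at this
    rw [h6, div_one, map_add, map_mul r 2, h.two, zero_mul, add_zero, map_mul, eq_div_iff hu]
    linear_combination r c * this
  have v2 := (A2.V.refl (r := r) (A2.eta (2 * (m + 1)) * (u ^ (m + 1)) ^ 2)).mul h v1
  rw [zero_add, h7, ← h5, mul_assoc, ← h3] at v2
  convert v2 using 1
  rw [hM]
  push_cast
  ring

end BhF2

theorem stF2 : StF2 := by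
  intro m hm
  obtain ⟨m, rfl⟩ : ∃ m', m = m' + 1 := ⟨m - 1, by omega⟩
  refine ⟨(A2.eta (2 * (m + 1)) * (2 * (m + 1) + 1) / 4 : ℤ).natAbs, ?_⟩
  intro L _ _ _ φ α s a u hα hφ ha hd haφ huφ hu hF
  have e : ∀ k : ℤ, ((k.natAbs : ℕ) : L) = (k : L) := fun k => by
    rcases Int.natAbs_eq k with hk | hk
    · conv_rhs => rw [hk, Int.cast_natCast]
    · conv_rhs => rw [hk, Int.cast_neg, Int.cast_natCast, CharTwo.neg_eq]
  rw [e]
  have h := A2.loc_witt L
  obtain ⟨A, hA⟩ : ∃ A : (WittVector 2 L)[X],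
      ∀ n, A.coeff n = WittVector.teichmuller 2 (a.coeff n) :=
    ⟨a.sum fun n c => monomial n (WittVector.teichmuller 2 c), fun n => by
      rw [coeff_sum, Polynomial.sum, Finset.sum_eq_single n]
      · simp
      · intro j _ hj
        rw [coeff_monomial, if_neg hj]
      · intro hn
        rw [notMem_support_iff.1 hn]
        simp⟩
  have ht : ∀ x : L, WittVector.constantCoeff (WittVector.teichmuller 2 x) = x := fun x => rfl
  have hAr : A.map (WittVector.constantCoeff : WittVector 2 L →+* L) = a := by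
    ext n
    rw [coeff_map, hA, ht]
  have hAφ : A.map (WittVector.map φ) = A := by
    ext n : 1
    rw [coeff_map, hA, WittVector.map_teichmuller, ← coeff_map, haφ]
  have hle : A.natDegree ≤ m + 1 := natDegree_le_iff_coeff_eq_zero.2 fun n hn => by
    rw [hA, coeff_eq_zero_of_natDegree_lt (by omega), WittVector.teichmuller_zero]
  have h1 : A.coeff (m + 1) = 1 := by rw [hA, ← hd, ha.coeff_natDegree, map_one]
  have hAm : A.Monic := monic_of_natDegree_le_of_coeff_eq_one _ hle h1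
  have hAd : A.natDegree = m + 1 := by rw [← hAm.natDegree_map WittVector.constantCoeff, hAr, hd]
  have hGm : (A ^ 2 + X * C (WittVector.teichmuller 2 u)).Monic := by
    refine (hAm.pow 2).add_of_left (degree_lt_degree ?_)
    have h2 := natDegree_mul_le (p := (X : (WittVector 2 L)[X]))
      (q := C (WittVector.teichmuller 2 u))
    rw [natDegree_X, natDegree_C] at h2
    rw [hAm.natDegree_pow]
    omega
  have hGr : (A ^ 2 + X * C (WittVector.teichmuller 2 u)).map
      (WittVector.constantCoeff : WittVector 2 L →+* L) = a ^ 2 + X * C u := by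
    rw [Polynomial.map_add, Polynomial.map_pow, Polynomial.map_mul, map_X, map_C, hAr, ht]
  obtain ⟨b, -, hb1, hb2⟩ := stHens L φ _ α s _ hα hφ hGm (hGr.trans hF) (by
    rw [Polynomial.map_add, Polynomial.map_pow, Polynomial.map_mul, map_X, map_C, hAφ,
      WittVector.map_teichmuller, huφ])
  have v := BhF2.main h b A _ hAm hAd (by rw [ht]; exact hu) hb1
  rw [← coeff_map, map_modByMonic _ hGm, hGr, Polynomial.map_mul, Polynomial.map_mul, map_X,
    Polynomial.map_pow, ← derivative_map, hAr, ht] at v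
  exact BhF2.tail h (WittVector.map φ) φ (fun x => WittVector.map_coeff φ x 0) b s hb2
    (by rw [map_pow, ht]; exact pow_ne_zero _ hu)
    (by rw [map_pow, WittVector.map_teichmuller, huφ])
    ((A2.eta_odd _).mul ⟨m + 1, rfl⟩) v

end Pool.Agent.Lib.MP_4b8564_nt
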