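import Pool.Agent.Lib.MP_4b8564_nt.BhA
import Pool.Agent.Lib.MP_9227d9_nt.TwKp

/-! Kloosterman sums to a modulus with constant derivative. -/

namespace Pool.Agent.Lib.MP_4b8564_nt

open Polynomial Pool.Agent.Lib.MP_9227d9_nt.Mob

open scoped Classical

namespace BhK

variable {k : Type} [Field k] [Fintype k] [CharP k 2]

/-- The logarithmic derivative is additive. -/
theorem eM_prod (S : Finset k[X]) (hS : ∀ p ∈ S, IsP p) (z : k[X]) :
    eM (∏ p ∈ S, p) (derivative (∏ p ∈ S, p) * z) = ∏ p ∈ S, eM p (derivative p * z) := by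
  induction S using Finset.induction_on with
  | empty => simp [eM_zero]
  | insert p S hp ih =>
    have h1 : p.Monic := (hS p (Finset.mem_insert_self _ _)).1
    have h2 : ∀ r ∈ S, IsP r := fun r hr => hS r (Finset.mem_insert_of_mem hr)
    have h3 : (∏ r ∈ S, r).Monic := monic_prod_of_monic _ _ fun r hr => (h2 r hr).1
    rw [Finset.prod_insert hp, Finset.prod_insert hp, ← ih h2]
    generalize ∏ r ∈ S, r = A at h3
    have e : derivative (p * A) * z = derivative p * z * A + derivative A * z * p := by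
      rw [derivative_mul]
      ring
    rw [e, eM_add, eM_mul h1 h3, mul_comm p A, eM_mul h3 h1]

theorem kl_prod (S : Finset k[X]) (hS : ∀ p ∈ S, IsP p) (x : k[X]) :
    kl (∏ p ∈ S, p) (derivative (∏ p ∈ S, p)) x = ∏ p ∈ S, kl p (derivative p) x := by
  by_cases hx : IsCoprime x (∏ p ∈ S, p)
  · have h1 := invM_spec hx
    rw [kl, if_pos hx, eM_prod S hS]
    refine Finset.prod_congr rfl fun p hp => ?_
    have h2 : p ∣ ∏ p ∈ S, p := Finset.dvd_prod_of_mem (fun p => p) hp
    refine (kl_eq (hS p hp).1 (hx.of_isCoprime_of_dvd_right h2) ?_).symm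
    have e : x * (derivative p * invM (∏ p ∈ S, p) x) - derivative p =
        derivative p * (x * invM (∏ p ∈ S, p) x - 1) := by ring
    rw [e]
    exact (h2.trans h1).mul_left _
  · rw [kl_of_not hx]
    rw [IsCoprime.prod_right_iff] at hx
    push Not at hx
    obtain ⟨p, hp, hpx⟩ := hx
    exact (Finset.prod_eq_zero hp (kl_of_not hpx _)).symm

/-- The inner sum over the inverses of `x`. -/
theorem inner {c : k[X]} (hc : c.Monic) {ψ : AddChar k ℝ} {u : k} (hψ : ∀ t, ψ t = ps0 (u * t))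
    {x : k[X]} (hx : x ∈ Pn k c.natDegree) :
    ∑ y ∈ Pn k c.natDegree, (if c ∣ x * y - 1 then ψ ((x + y).coeff (c.natDegree - 1)) else 0) =
      kl c (C u) x * eM c (C u * x) := by
  have hd : c.degree = c.natDegree := degree_eq_natDegree hc.ne_zero
  by_cases h : IsCoprime x c
  · have h1 : invM c x %ₘ c ∈ Pn k c.natDegree := mem_Pn.2 (hd ▸ degree_modByMonic_lt _ hc)
    have h2 : c ∣ x * (invM c x %ₘ c) - 1 := by
      have e : x * (invM c x %ₘ c) - 1 = (x * invM c x - 1) - c * (x * (invM c x /ₘ c)) := by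
        linear_combination x * modByMonic_add_div (invM c x) c
      rw [e]
      exact dvd_sub (invM_spec h) (dvd_mul_right _ _)
    generalize invM c x %ₘ c = y at h1 h2
    rw [Finset.sum_eq_single y, if_pos h2, kl_eq (y := C u * y) hc h, ← eM_add, hψ,
      TwB.eM_of_lt hc]
    · rw [coeff_add, coeff_add, coeff_C_mul, coeff_C_mul, mul_add, add_comm]
    · rw [← mul_add, ← smul_eq_C_mul, hd]
      exact (degree_smul_le _ _).trans_lt
        ((degree_add_le _ _).trans_lt (max_lt (mem_Pn.1 h1) (mem_Pn.1 hx)))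
    · have e : x * (C u * y) - C u = C u * (x * y - 1) := by ring
      rw [e]
      exact h2.mul_left _
    · intro y' hy' hne
      refine if_neg fun h3 => hne ?_
      have h4 : c ∣ x * (y' - y) := by
        have e : x * (y' - y) = (x * y' - 1) - (x * y - 1) := by ring
        rw [e]
        exact dvd_sub h3 h2
      refine sub_eq_zero.1 (eq_zero_of_dvd_of_degree_lt (h.symm.dvd_of_dvd_mul_left h4) ?_)
      rw [hd]
      exact (degree_sub_le _ _).trans_lt (max_lt (mem_Pn.1 hy') (mem_Pn.1 h1))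
    · exact fun h3 => absurd h1 h3
  · rw [kl_of_not h, zero_mul]
    refine Finset.sum_eq_zero fun y _ => if_neg ?_
    rintro ⟨t, ht⟩
    exact h ⟨y, -t, by linear_combination ht⟩

theorem KL_eq {c : k[X]} (hc : c.Monic) {ψ : AddChar k ℝ} {u : k} (hψ : ∀ t, ψ t = ps0 (u * t)) :
    KL ψ c = √(Nm c) * avg c.natDegree fun x => kl c (C u) x * eM c (C u * x) := by
  have hd : c.degree = c.natDegree := degree_eq_natDegree hc.ne_zero
  have e : {z : k[X] × k[X] | z.1.degree < c.degree ∧ z.2.degree < c.degree ∧ c ∣ z.1 * z.2 - 1} =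
      ((Pn k c.natDegree ×ˢ Pn k c.natDegree).filter fun z => c ∣ z.1 * z.2 - 1 :
        Finset (k[X] × k[X])) := by
    ext z
    simp only [Set.mem_ofPred_eq, Finset.coe_filter, Finset.mem_product, mem_Pn, hd, and_assoc]
  rw [KL, e, finsum_mem_coe_finset, Finset.sum_filter, Finset.sum_product,
    Finset.sum_congr rfl fun x hx => inner hc hψ hx, avg]
  change _ / √(Nm c) = _ * (_ / Nm c)
  have h1 : 0 < √(Nm c) := Real.sqrt_pos.2 (Nm_pos c)
  have h2 : √(Nm c) * √(Nm c) = Nm c := Real.mul_self_sqrt (Nm_pos c).le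
  generalize √(Nm c) = s at h1 h2
  rw [← h2]
  field_simp

/-- The character is invariant under squaring. -/
theorem eM_der_sq {p : k[X]} (hp : p.Monic) (z : k[X]) :
    eM p (derivative p * z ^ 2) = eM p (derivative p * z) := by
  have e : derivative p * z ^ 2 * p = (ev p * od p * z) ^ 2 + X * (derivative p * z) ^ 2 := by
    rw [← od_pow_two]
    have h := ev_od p
    generalize ev p = A at h
    generalize od p = l at h
    rw [h]
    ring
  rw [← eM_mul hp hp, e, ← sq, eM_add, eM_sq hp, eM_X_mul_sq hp, one_mul]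

theorem eq_one {F : Type} [Field F] [Fintype F] [CharP F 2] {g : F} (hg : g ≠ 0)
    (h : ∀ z : F, B0.ps (g * z ^ 2) = B0.ps (g * z)) : g = 1 := by
  by_contra h1
  have h2 : g + g ^ 2 ≠ 0 := fun h3 => by
    have h4 : g * 1 = g * g := by
      rw [mul_one, ← sq]
      exact CharTwo.add_eq_zero.1 h3
    exact h1 (mul_left_cancel₀ hg h4).symm
  have h3 := B0.sum_ps_sq h2
  have h4 : ∀ z : F, B0.ps ((g + g ^ 2) * z ^ 2) = 1 := fun z => by
    rw [add_mul, B0.ps_add, h, ← mul_pow, B0.ps_sq, ← abs_mul_abs_self, B0.abs_ps, one_mul]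
  simp only [h4, Finset.sum_const, Finset.card_univ, nsmul_eq_mul, mul_one,
    Nat.cast_eq_zero] at h3
  exact Fintype.card_ne_zero h3

end BhK

theorem stPsi : StPsi := by
  intro k _ _ _ ψ hψ
  obtain ⟨x, hx⟩ := AddChar.ne_one_iff.1 hψ
  have h1 : ψ x * ψ x = 1 := by
    rw [← ψ.map_add_eq_mul, CharTwo.add_self_eq_zero, ψ.map_zero_eq_one]
  obtain ⟨g, hg, key⟩ := TwKp.char_eq (χ := ψ) ψ.map_add_eq_mul ψ.map_zero_eq_one
    ⟨x, (mul_self_eq_one_iff.1 h1).resolve_left hx⟩
  obtain ⟨w, rfl⟩ := (B0.sq_bij (K := k)).2 g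
  exact ⟨w, fun h => hg (by simp [h]), key⟩

theorem stK1' : StK1' := by
  intro k _ _ _ ψ u S hψ hS _ hd
  have hc : (∏ p ∈ S, p).Monic := monic_prod_of_monic _ _ fun r hr => (hS r hr).1
  have h1 := avg_prod (n := (∏ p ∈ S, p).natDegree) S (fun p => p)
    (fun p x => kl p (derivative p) x * eM p (derivative p * x)) (fun p hp => (hS p hp).1.ne_zero)
    (fun p hp r hr hne => (hS p hp).isCoprime (hS r hr) hne)
    (fun p hp v t => by
      rw [kl_congr (y := v) (hS p hp).1 ⟨t, by ring⟩,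
        eM_congr (y := derivative p * v) (hS p hp).1 ⟨derivative p * t, by ring⟩])
    (natDegree_prod_of_monic _ _ fun r hr => (hS r hr).1).ge 0
  rw [BhK.KL_eq hc hψ, ← hd, Finset.prod_mul_distrib, ← h1, Nm_prod hS,
    Real.sqrt_prod _ fun p _ => (Nm_pos p).le]
  congr 1
  refine avg_congr fun x _ => ?_
  rw [BhK.kl_prod S hS, BhK.eM_prod S hS, zero_add, Finset.prod_mul_distrib]

theorem stK2' : StK2' := by
  intro k _ _ _ p hp
  have : Fact (Irreducible p) := ⟨hp.2⟩
  have : Module.Finite k (AdjoinRoot p) := (AdjoinRoot.powerBasis hp.1.ne_zero).finite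
  have : Finite (AdjoinRoot p) := Module.finite_of_finite k
  let _ : Fintype (AdjoinRoot p) := Fintype.ofFinite _
  have : CharP (AdjoinRoot p) 2 :=
    charP_of_injective_algebraMap (algebraMap k (AdjoinRoot p)).injective 2
  have hN0 : Fintype.card (AdjoinRoot p) = Fintype.card k ^ p.natDegree := by
    rw [Module.card_eq_pow_finrank (K := k), (AdjoinRoot.powerBasis hp.1.ne_zero).finrank,
      AdjoinRoot.powerBasis_dim]
  have hN : (Fintype.card (AdjoinRoot p) : ℝ) = Nm p := by
    rw [hN0, Nat.cast_pow]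
    rfl
  let χ : AdjoinRoot p → ℝ := fun t =>
    eM p (derivative p * Function.surjInv AdjoinRoot.mk_surjective t)
  have hχ : ∀ x, χ (AdjoinRoot.mk p x) = eM p (derivative p * x) := fun x =>
    eM_congr hp.1 (by
      rw [← mul_sub]
      exact (AdjoinRoot.mk_eq_mk.1 (Function.surjInv_eq AdjoinRoot.mk_surjective _)).mul_left _)
  obtain ⟨g, hg, key⟩ := TwKp.char_eq (χ := χ) (fun s t => by
      obtain ⟨x, rfl⟩ := AdjoinRoot.mk_surjective s
      obtain ⟨y, rfl⟩ := AdjoinRoot.mk_surjective t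
      rw [← map_add, hχ, hχ, hχ, mul_add, eM_add])
    (by rw [← map_zero (AdjoinRoot.mk p), hχ, mul_zero, eM_zero])
    (by
      obtain ⟨x, hx⟩ := exists_eM_ne_one hp.1 hp.natDegree_pos
      have h1 := invM_spec (isCoprime_derivative hp.2.squarefree).symm
      refine ⟨AdjoinRoot.mk p (invM p (derivative p) * x), ?_⟩
      rw [hχ, ← hx]
      refine eM_congr hp.1 ?_
      have e : derivative p * (invM p (derivative p) * x) - x =
          (derivative p * invM p (derivative p) - 1) * x := by ring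
      rw [e]
      exact h1.mul_right _)
  obtain rfl : g = 1 := BhK.eq_one hg fun t => by
    obtain ⟨x, rfl⟩ := AdjoinRoot.mk_surjective t
    rw [← key, ← key, ← map_pow, hχ, hχ, BhK.eM_der_sq hp.1]
  refine ⟨AdjoinRoot p, inferInstance, inferInstance, inferInstance, hN0, ?_⟩
  have h2 := TwKp.avg_mk hp hN fun t => if t ≠ 0 then ps0 (t + t⁻¹) else 0
  have h3 : ∀ x : k[X], kl p (derivative p) x * eM p (derivative p * x) =
      if AdjoinRoot.mk p x ≠ 0 then ps0 (AdjoinRoot.mk p x + (AdjoinRoot.mk p x)⁻¹) else 0 := by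
    intro x
    by_cases hx : AdjoinRoot.mk p x = 0
    · rw [if_neg (not_not.2 hx), kl_of_not fun h =>
        hp.isCoprime_iff.1 h (AdjoinRoot.mk_eq_zero.1 hx), zero_mul]
    · have hc : IsCoprime x p := hp.isCoprime_iff.2 fun h => hx (AdjoinRoot.mk_eq_zero.2 h)
      have hi : AdjoinRoot.mk p x * AdjoinRoot.mk p (invM p x) = 1 := by
        rw [← map_mul, ← map_one (AdjoinRoot.mk p), AdjoinRoot.mk_eq_mk]
        exact invM_spec hc
      rw [if_pos hx, kl, if_pos hc, ← eM_add, ← mul_add, ← hχ, key, ps0_eq, map_add, one_mul,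
        eq_inv_of_mul_eq_one_right hi, add_comm]
  simp only [h3]
  rw [h2, Finset.sum_filter, mul_div_cancel₀ _ (Nm_pos p).ne']

theorem stKL (h1 : StK1') (h2 : StK2') (h3 : StK3) : StKL := by
  intro k _ _ _ ψ u S ρ hρ hψ hS hne hd
  rw [h1 k ψ u S hψ hS hne hd, ← Finset.prod_const, ← Finset.prod_mul_distrib]
  refine Finset.prod_congr rfl fun p hp => ?_
  obtain ⟨F, _, _, _, hF, hs⟩ := h2 k p (hS p hp)
  rw [hρ, ← pow_mul] at hF
  rw [h3 F _ hF] at hs
  have e1 : √2 ^ (ρ * p.natDegree) * √2 ^ (ρ * p.natDegree) = Nm p := by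
    rw [← mul_pow, Real.mul_self_sqrt zero_le_two, Nm, qR, hρ, pow_mul]
    norm_num
  have e2 : (0 : ℝ) < √2 ^ (ρ * p.natDegree) := by positivity
  rw [← e1] at hs ⊢
  rw [Real.sqrt_mul_self e2.le]
  refine mul_left_cancel₀ e2.ne' ?_
  linear_combination hs

end Pool.Agent.Lib.MP_4b8564_nt
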