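import Pool.Agent.Lib.MP_4b8564_nt.BhA
import Pool.Agent.Lib.MP_a3f657_nt.C2LpPrime
import Pool.Agent.Lib.MP_a3f657_nt.C2SfEuler

/-! The evaluation of the binary Kloosterman sum with parameter one. -/

namespace Pool.Agent.Lib.MP_4b8564_nt

open Polynomial Pool.Agent.Lib.MP_9227d9_nt.Mob

open scoped Classical

namespace BhK3

open Pool.Agent.Lib.MP_a3f657_nt.Two Pool.Agent.Lib.MP_a3f657_nt.Two.Lp
  Pool.Agent.Lib.MP_a3f657_nt.Two.Rh

/-- The algebraic closure of the field with two elements. -/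
abbrev L : Type := AlgebraicClosure (ZMod 2)

/-- The multiplicative function attached to `x + 1 / x`. -/
noncomputable def Ps (f : (ZMod 2)[X]) : ℂ := sg 1 (Sk X (1 + X ^ 2) f)

theorem Ps_mul (f g : (ZMod 2)[X]) (hf : f.Monic) (hg : g.Monic) : Ps (f * g) = Ps f * Ps g := by
  rw [Ps, Ps, Ps, Sk_mul _ _ hf hg, sg_add one_pos (Sk_mem ..) (Sk_mem ..)]

theorem Ps_one : Ps 1 = 1 := by
  have h1 := Ps_mul 1 1 monic_one monic_one
  have h2 : ‖Ps 1‖ = 1 := norm_sg ..
  rw [mul_one] at h1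
  exact (mul_eq_left₀ (norm_ne_zero_iff.1 (by simp [h2]))).1 h1.symm

theorem SS_eq {g : L[X]} (hg : g.Monic) (h0 : g.coeff 0 = 1) :
    Lp.SS X (1 + X ^ 2) g = g.nextCoeff + g.coeff 1 := by
  have h2 : (2 : L) = 0 := CharTwo.two_eq_zero
  have hs := IsAlgClosed.splits g
  have he : g.eval 0 = 1 := by rw [← coeff_zero_eq_eval_zero, h0]
  have h1 := hs.eval_derivative_eq_eval_mul_sum (x := 0) (by rw [he]; exact one_ne_zero)
  rw [he, one_mul, ← coeff_zero_eq_eval_zero, coeff_derivative] at h1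
  have h3 := hs.nextCoeff_eq_neg_sum_roots_of_monic hg
  have h4 : Lp.SS X (1 + X ^ 2) g =
      g.roots.sum - (g.roots.map fun z => 1 / (0 - z)).sum := by
    rw [← Multiset.map_id' g.roots, Multiset.map_map, ← Multiset.sum_map_sub, Lp.SS]
    refine congrArg _ (Multiset.map_congr rfl fun a ha => ?_)
    have ha0 : a ≠ 0 := by
      rintro rfl
      have := isRoot_of_mem_roots ha
      rw [IsRoot.def, he] at this
      exact one_ne_zero this
    simp only [eval_add, eval_one, eval_pow, eval_X, Function.comp_apply, zero_sub]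
    field_simp
    ring
  rw [h4, ← h1, h3]
  simp only [zero_add, Nat.cast_zero, mul_one]
  linear_combination (g.roots.sum - g.coeff 1) * h2

theorem coeff_zero_eq {f : (ZMod 2)[X]} (hc : IsCoprime f X) : f.coeff 0 = 1 := by
  rcases zmod_cases (f.coeff 0) with h | h
  · exact absurd (X_dvd_iff.2 h) (irreducible_X.coprime_iff_not_dvd.1 hc.symm)
  · exact h

theorem Sk_eq {f : (ZMod 2)[X]} (hf : f.Monic) (hc : IsCoprime f X) :
    Sk X (1 + X ^ 2) f = algebraMap (ZMod 2) L (f.nextCoeff + f.coeff 1) := by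
  rw [Sk, Polynomial.map_add, Polynomial.map_pow, Polynomial.map_one, map_X,
    SS_eq (hf.map _) (by rw [coeff_map, coeff_zero_eq hc, map_one]), nextCoeff_map_eq, coeff_map,
    map_add]

theorem one_mem {m : ℕ} (hm : 0 < m) : (1 : L) ∈ fixF (ZMod 2) m := by
  rw [mem_fixF hm, one_pow]

theorem sg_one : sg (k := ZMod 2) 1 1 = -1 := by
  refine if_neg fun ⟨z, hz, h⟩ => ?_
  rw [mem_fixF one_pos, ZMod.card, pow_one] at hz
  rw [hz, CharTwo.add_self_eq_zero] at h
  exact zero_ne_one h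

theorem shift {N : ℕ} (hN : 2 < N) {f : (ZMod 2)[X]}
    (hf : f.Monic ∧ f.natDegree = N ∧ IsCoprime f X) :
    ((f + X).Monic ∧ (f + X).natDegree = N ∧ IsCoprime (f + X) X) ∧ Ps (f + X) = -Ps f := by
  have h1 : (X : (ZMod 2)[X]).natDegree < f.natDegree := by
    rw [natDegree_X, hf.2.1]
    omega
  have h2 := hf.1.add_of_left (degree_lt_degree h1)
  have h3 := natDegree_add_eq_left_of_natDegree_lt h1
  have h4 : IsCoprime (f + X) X := by
    simpa using hf.2.2.add_mul_left_left 1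
  refine ⟨⟨h2, h3.trans hf.2.1, h4⟩, ?_⟩
  have h5 : (f + X).nextCoeff = f.nextCoeff := by
    rw [nextCoeff_of_natDegree_pos (by omega), nextCoeff_of_natDegree_pos (by omega), h3,
      coeff_add, coeff_X_of_ne_one (by rw [hf.2.1]; omega), add_zero]
  have h6 : Sk X (1 + X ^ 2) (f + X) = Sk X (1 + X ^ 2) f + 1 := by
    rw [Sk_eq h2 h4, Sk_eq hf.1 hf.2.2, h5, coeff_add, coeff_X_one, ← add_assoc, map_add, map_one]
  rw [Ps, h6, sg_add one_pos (Sk_mem ..) (one_mem one_pos), sg_one, Ps, mul_neg, mul_one]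

theorem sum_zero {N : ℕ} (hN : 2 < N) :
    ∑ᶠ f ∈ {f : (ZMod 2)[X] | f.Monic ∧ f.natDegree = N ∧ IsCoprime f X}, Ps f = 0 := by
  set s := {f : (ZMod 2)[X] | f.Monic ∧ f.natDegree = N ∧ IsCoprime f X}
  have h1 : Set.BijOn (fun f : (ZMod 2)[X] => f + X) s s :=
    ⟨fun f hf => (shift hN hf).1, fun f _ g _ h => add_right_cancel h, fun f hf =>
      ⟨f + X, (shift hN hf).1, by simp only [add_assoc, CharTwo.add_self_eq_zero, add_zero]⟩⟩
  have h2 : (-1) * ∑ᶠ f ∈ s, Ps f = ∑ᶠ f ∈ s, Ps f := by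
    rw [mul_finsum_mem]
    exact finsum_mem_eq_of_bijOn _ h1 fun f hf => by rw [(shift hN hf).2, neg_one_mul]
  linear_combination (-1 / 2) * h2

/-- The sum over the subfield with `2 ^ m` elements. -/
noncomputable def A (m : ℕ) : ℂ :=
  ∑ a ∈ (fixF (ZMod 2) m).filter (fun a => a ≠ 0), sg m (a + a⁻¹)

theorem exists_roots : ∃ γ : Multiset ℂ, γ.card ≤ 2 ∧
    ∀ m, 1 ≤ m → A m = -(γ.map (· ^ m)).sum := by
  obtain ⟨γ, hγ, hγ'⟩ := euler {p : (ZMod 2)[X] // GoodP X p} (fun p => p.1.natDegree)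
    (fun p => Ps p.1) 2 (fun p => p.2.2.1.natDegree_pos)
    (fun n => ((finite_monic (k := ZMod 2) n).preimage Subtype.val_injective.injOn).subset
      fun p hp => ⟨p.2.1, hp⟩) fun j hj => by
      rw [finsum_divisors Ps_one Ps_mul]
      exact sum_zero hj
  refine ⟨γ, hγ, fun m hm => ?_⟩
  rw [← hγ' m hm, finsum_mem_eq_of_bijOn
    (s := {i : {p : (ZMod 2)[X] // GoodP X p} | i.1.natDegree ∣ m})
    (t := {p | GoodP X p ∧ p.natDegree ∣ m})
    (g := fun p => (p.natDegree : ℂ) * Ps p ^ (m / p.natDegree)) Subtype.val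
    ⟨fun p hp => ⟨p.2, hp⟩, Subtype.val_injective.injOn, fun p hp => ⟨⟨p, hp.1⟩, hp.2, rfl⟩⟩
    fun _ _ => rfl, ← sum_fixF' X hm (fun p => Ps p ^ (m / p.natDegree)), A]
  refine Finset.sum_congr (Finset.filter_congr fun a _ => by rw [aeval_X]) fun a ha => ?_
  obtain ⟨h1, h2⟩ := Finset.mem_filter.1 ha
  rw [Ps, sg_Sk _ (goodP_minpoly.2 h2), ← sg_eq_sgP_pow _ hm h1 h2]
  rw [aeval_X] at h2
  congr 1
  simp only [map_add, map_one, map_pow, aeval_X]
  field_simp
  ring

theorem A_small {m : ℕ} (hm : 0 < m) (h : ∀ a : L, a ^ 2 ^ m = a → a ^ 4 = a) :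
    A m = 2 ^ m - 1 := by
  have h0 : (0 : L) ∈ fixF (ZMod 2) m := by
    rw [mem_fixF hm, zero_pow (pow_ne_zero _ Fintype.card_ne_zero)]
  have h1 : ∀ a ∈ (fixF (ZMod 2) m).filter (fun a => a ≠ 0), sg m (a + a⁻¹) = 1 := fun a ha => by
    obtain ⟨h1, h2⟩ := Finset.mem_filter.1 ha
    refine if_pos ⟨a, h1, ?_⟩
    rw [mem_fixF hm, ZMod.card] at h1
    have h3 := h a h1
    have h4 : a ^ 2 * a = 1 := mul_left_cancel₀ h2 (by linear_combination h3)
    rw [eq_inv_of_mul_eq_one_left h4, add_comm]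
  rw [A, Finset.sum_congr rfl h1, Finset.sum_const, Finset.filter_ne', Finset.card_erase_of_mem h0,
    card_fixF hm, ZMod.card, nsmul_eq_mul, mul_one, Nat.cast_pred (by positivity)]
  norm_num

theorem A_one : A 1 = 1 := by
  rw [A_small one_pos fun a ha => by
    rw [pow_one] at ha
    rw [show a ^ 4 = (a ^ 2) ^ 2 by ring, ha, ha]]
  norm_num

theorem A_two : A 2 = 3 := by
  rw [A_small two_pos fun a ha => ha]
  norm_num

theorem A_rec (m : ℕ) : A (m + 3) = -A (m + 2) - 2 * A (m + 1) := by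
  obtain ⟨γ, hγ, h⟩ := exists_roots
  have h1 := h 1 le_rfl
  have h2 := h 2 one_le_two
  rw [A_one] at h1
  rw [A_two] at h2
  rw [h _ (by omega), h _ (by omega), h _ (by omega)]
  obtain h0 | h0 | h0 : γ.card = 0 ∨ γ.card = 1 ∨ γ.card = 2 := by omega
  · obtain rfl := Multiset.card_eq_zero.1 h0
    simp
  · obtain ⟨a, rfl⟩ := Multiset.card_eq_one.1 h0
    simp only [Multiset.map_singleton, Multiset.sum_singleton] at h1 h2 ⊢
    have : (4 : ℂ) = 0 := by linear_combination h2 + (1 - a) * h1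
    norm_num at this
  · obtain ⟨a, b, rfl⟩ := Multiset.card_eq_two.1 h0
    simp only [Multiset.insert_eq_cons, Multiset.map_cons, Multiset.map_singleton,
      Multiset.sum_cons, Multiset.sum_singleton] at h1 h2 ⊢
    have h3 : a * b = 2 := by linear_combination (-1 / 2) * h2 + (a + b - 1) / 2 * h1
    linear_combination (-(a ^ (m + 2) + b ^ (m + 2))) * h1 + (a ^ (m + 1) + b ^ (m + 1)) * h3

/-- The explicit value. -/
noncomputable def T (m : ℕ) : ℝ := -(2 * √2 ^ m * Real.cos (m * phi))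

theorem cos_phi : 2 * √2 * Real.cos phi = -1 := by
  have h1 : (1 : ℝ) ≤ √2 := Real.one_le_sqrt.2 one_le_two
  have h2 : (0 : ℝ) < 2 * √2 := by positivity
  rw [phi, Real.cos_arccos (by rw [le_div_iff₀ h2]; linarith) (by rw [div_le_iff₀ h2]; linarith)]
  field_simp

theorem T_rec (m : ℕ) : T (m + 2) = -T (m + 1) - 2 * T m := by
  have h1 := cos_phi
  have h2 : √2 ^ 2 = (2 : ℝ) := Real.sq_sqrt zero_le_two
  have h3 : Real.cos (((m + 2 : ℕ) : ℝ) * phi) =
      2 * Real.cos (((m + 1 : ℕ) : ℝ) * phi) * Real.cos phi - Real.cos (m * phi) := by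
    have e1 : ((m + 2 : ℕ) : ℝ) * phi = ((m + 1 : ℕ) : ℝ) * phi + phi := by
      push_cast
      ring
    have e2 : (m : ℝ) * phi = ((m + 1 : ℕ) : ℝ) * phi - phi := by
      push_cast
      ring
    rw [e1, e2, Real.cos_add, Real.cos_sub]
    ring
  rw [T, T, T, h3]
  linear_combination (-2 * √2 ^ (m + 1) * Real.cos (((m + 1 : ℕ) : ℝ) * phi)) * h1 +
    2 * √2 ^ m * Real.cos (m * phi) * h2

theorem T_one : T 1 = 1 := by
  rw [T, pow_one, Nat.cast_one, one_mul, cos_phi, neg_neg]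

theorem T_two : T 2 = 3 := by
  have h := T_rec 0
  rw [zero_add, zero_add, T_one] at h
  rw [h, T]
  norm_num

theorem A_eq (m : ℕ) : A (m + 1) = T (m + 1) ∧ A (m + 2) = T (m + 2) := by
  induction m with
  | zero => simp [A_one, A_two, T_one, T_two]
  | succ m ih =>
    refine ⟨ih.2, ?_⟩
    rw [A_rec, ih.1, ih.2, T_rec (m + 1)]
    push_cast
    rfl

end BhK3

open BhK3 Pool.Agent.Lib.MP_a3f657_nt.Two Pool.Agent.Lib.MP_a3f657_nt.Two.Rh in
theorem stK3 : StK3 := by
  intro F _ _ _ N hN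
  obtain ⟨m, rfl⟩ : ∃ m, N = m + 1 := by
    refine ⟨N - 1, ?_⟩
    have := Fintype.one_lt_card (α := F)
    rcases N with _ | N
    · omega
    · rfl
  have hm : 0 < m + 1 := m.succ_pos
  let _ : Algebra (ZMod 2) F := ZMod.algebra F 2
  let ι : F →ₐ[ZMod 2] L := IsAlgClosed.lift
  have hι : Function.Injective ι := ι.toRingHom.injective
  have h1 : Finset.univ.image ι = fixF (ZMod 2) (m + 1) := by
    refine Finset.eq_of_subset_of_card_le (fun a ha => ?_) ?_
    · obtain ⟨x, -, rfl⟩ := Finset.mem_image.1 ha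
      rw [mem_fixF hm, ZMod.card, ← hN, ← map_pow, FiniteField.pow_card]
    · rw [Finset.card_image_of_injective _ hι, card_fixF hm, ZMod.card, Finset.card_univ, hN]
  have h2 : ∀ t : F, sg (m + 1) (ι t) = (ps0 t : ℝ) := fun t => by
    have h3 : (∃ z ∈ fixF (ZMod 2) (m + 1), z ^ 2 + z = ι t) ↔ ∃ z : F, z ^ 2 + z = t := by
      rw [← h1]
      constructor
      · rintro ⟨z, hz, h⟩
        obtain ⟨x, -, rfl⟩ := Finset.mem_image.1 hz
        exact ⟨x, hι (by rw [map_add, map_pow, h])⟩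
      · rintro ⟨x, rfl⟩
        exact ⟨ι x, Finset.mem_image_of_mem _ (Finset.mem_univ _), by rw [map_add, map_pow]⟩
    by_cases h : ∃ z : F, z ^ 2 + z = t
    · rw [ps0, if_pos h, Complex.ofReal_one]
      exact if_pos (h3.2 h)
    · rw [ps0, if_neg h, Complex.ofReal_neg, Complex.ofReal_one]
      exact if_neg (mt h3.1 h)
  have h3 := (A_eq m).1
  rw [A, ← h1, Finset.filter_image, Finset.sum_image hι.injOn] at h3
  refine Complex.ofReal_injective (Eq.trans ?_ h3)
  rw [Complex.ofReal_sum]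
  refine Finset.sum_congr (Finset.filter_congr fun x _ => (map_ne_zero ι).symm) fun x _ => ?_
  rw [← h2, map_add, map_inv₀]

end Pool.Agent.Lib.MP_4b8564_nt
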