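import Pool.Agent.Lib.MP_4b8564_nt.BhA

/-! Cancellation of the Moebius function on the lines `a + E g ^ 2`. -/

namespace Pool.Agent.Lib.MP_4b8564_nt

open Polynomial Pool.Agent.Lib.MP_9227d9_nt.Mob

open scoped Classical

namespace BhL

variable {k : Type} [Field k] [Fintype k] [CharP k 2]

/-- The remainder of the phase. -/
noncomputable def RR (c a E Z : k[X]) (N n : ℕ) (g : k[X]) : k[X] :=
  c * Z ^ 6 * (∑ i ∈ (Finset.range N).erase n, a ^ (N - 1 - i) * (E * g ^ 2) ^ i) +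
    c * a ^ N * (Z ^ 4 * derivative E + Z ^ 2 * derivative E ^ 2 * (a + E * g ^ 2) +
      derivative E ^ 3 * (a + E * g ^ 2) ^ 2)

omit [Fintype k] in
theorem dg_RR (c a E Z : k[X]) {r : ℕ} (hr : 1 ≤ r) :
    Dg r (RR c a E Z (3 * 2 ^ r - 1) (2 ^ (r + 1) - 1)) := by
  have hA : ∀ g h : k[X], E * (g + h) ^ 2 = E * g ^ 2 + E * h ^ 2 := fun g h => by
    rw [CharTwo.add_sq, mul_add]
  have h2 : 2 ≤ 2 ^ r := by
    calc 2 = 2 ^ 1 := rfl
      _ ≤ 2 ^ r := Nat.pow_le_pow_right two_pos hr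
  have h1 : Dg r fun g : k[X] => a + E * g ^ 2 := by
    have h := Dg.pow_ne (r := r) (A := fun g => E * g ^ 2) hA (j := 1) (by omega)
      (by rw [pow_succ]; omega)
    simp only [pow_one] at h
    exact (Dg.const r a).add h
  refine Dg.add (Dg.mul_left _ (Dg.sum _ fun i hi => Dg.mul_left _ ?_))
    (Dg.mul_left _ (((Dg.const r _).add (h1.mul_left _)).add (h1.sq.mul_left _)))
  obtain ⟨h3, h4⟩ := Finset.mem_erase.1 hi
  have h5 := Finset.mem_range.1 h4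
  exact Dg.pow_ne (A := fun g => E * g ^ 2) hA (by omega) (by omega)

omit [Fintype k] in
theorem key (c a E Z g : k[X]) {N n : ℕ} (hn : n < N)
    (hZ : Z ^ 2 = derivative (a * E)) :
    c * derivative (a + E * g ^ 2) ^ 3 * (E ^ 3 * a ^ N) =
      (c * Z ^ 6 * E ^ n * a ^ (N - 1 - n) * (g ^ 2) ^ n + RR c a E Z N n g) * (a + E * g ^ 2) +
        c * Z ^ 6 * (E * g ^ 2) ^ N := by
  have h2 : (2 : k[X]) = 0 := CharTwo.two_eq_zero
  have h1 : E * derivative (a + E * g ^ 2) = Z ^ 2 + (a + E * g ^ 2) * derivative E := by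
    rw [hZ]
    simp only [sq, derivative_add, derivative_mul]
    linear_combination (E * E * g * derivative g - a * derivative E) * h2
  have h3 := (Commute.all (E * g ^ 2) a).geom_sum₂_mul N
  rw [← Finset.add_sum_erase _ _ (Finset.mem_range.2 hn)] at h3
  have h4 : ∑ i ∈ (Finset.range N).erase n, a ^ (N - 1 - i) * (E * g ^ 2) ^ i =
      ∑ i ∈ (Finset.range N).erase n, (E * g ^ 2) ^ i * a ^ (N - 1 - i) :=
    Finset.sum_congr rfl fun i _ => mul_comm _ _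
  have h5 : c * derivative (a + E * g ^ 2) ^ 3 * (E ^ 3 * a ^ N) =
      c * (E * derivative (a + E * g ^ 2)) ^ 3 * a ^ N := by ring
  rw [h5, h1, RR, h4]
  rw [mul_pow E (g ^ 2) n] at h3
  generalize ∑ i ∈ (Finset.range N).erase n, (E * g ^ 2) ^ i * a ^ (N - 1 - i) = S at *
  generalize (E * g ^ 2) ^ N = T at *
  generalize (g ^ 2) ^ n = G at *
  generalize E ^ n = P at *
  generalize a ^ (N - 1 - n) = Q at *
  generalize a ^ N = U at *
  generalize derivative E = D at *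
  generalize E * g ^ 2 = Y at *
  linear_combination (-(c * Z ^ 6)) * h3 + (c * U * Z ^ 4 * (a + Y) * D +
    c * U * Z ^ 2 * (a + Y) ^ 2 * D ^ 2 - c * Z ^ 6 * (P * G * Q + S) * a - c * Z ^ 6 * T +
    c * Z ^ 6 * U) * h2

end BhL

theorem stL (hF : StF) (hV : StV) : StL := by
  intro k _ _ _ w r m j γ η Δ a E y hw hr ha hE hm hΔ h1 h2 hγ hN hy0 hy1 hy
  obtain ⟨ε, hε, hmu⟩ := hF k w m hw (by omega)
  have h2r : 1 ≤ 2 ^ r := Nat.one_le_two_pow
  obtain ⟨n, hn⟩ : ∃ n, n = 2 ^ (r + 1) - 1 := ⟨_, rfl⟩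
  obtain ⟨N, hN'⟩ : ∃ N, N = 3 * 2 ^ r - 1 := ⟨_, rfl⟩
  have hnN : n < N := by
    rw [pow_succ] at hn
    omega
  obtain ⟨e, he⟩ : ∃ e, e = E.natDegree := ⟨_, rfl⟩
  have hEe : MD e E := ⟨hE, he.symm⟩
  have hZ : MD (e + j) (od (a * E)) :=
    MD.od (by rw [show 2 * (e + j) + 1 = m + e by omega]; exact ha.mul hEe)
  have hZ2 := od_pow_two (a * E)
  generalize od (a * E) = Z at hZ hZ2
  have hc0 : (w ^ 2)⁻¹ ≠ 0 := inv_ne_zero (pow_ne_zero 2 hw)
  have hM : (E ^ 3 * a ^ N).Monic := (hE.pow 3).mul (ha.1.pow N)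
  have hMd : (E ^ 3 * a ^ N).natDegree = 3 * e + N * m := by
    rw [(hE.pow 3).natDegree_mul (ha.1.pow N), natDegree_pow, natDegree_pow, ha.2, he]
  have hB : (X * Z ^ 6 * E ^ n * a ^ (N - 1 - n)).Monic :=
    ((monic_X.mul (hZ.1.pow 6)).mul (hE.pow n)).mul (ha.1.pow _)
  have hBd : (X * Z ^ 6 * E ^ n * a ^ (N - 1 - n)).natDegree =
      1 + 6 * (e + j) + n * e + (N - 1 - n) * m := by
    rw [((monic_X.mul (hZ.1.pow 6)).mul (hE.pow n)).natDegree_mul (ha.1.pow _),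
      (monic_X.mul (hZ.1.pow 6)).natDegree_mul (hE.pow n), monic_X.natDegree_mul (hZ.1.pow 6),
      natDegree_pow, natDegree_pow, natDegree_pow, natDegree_X, ha.2, hZ.2, he]
  have hBe : C (w ^ 2)⁻¹ * X * Z ^ 6 * E ^ n * a ^ (N - 1 - n) =
      C (w ^ 2)⁻¹ * (X * Z ^ 6 * E ^ n * a ^ (N - 1 - n)) := by ring
  have hmain := hV k r γ η Δ (E ^ 3 * a ^ N) (C (w ^ 2)⁻¹ * X * Z ^ 6 * E ^ n * a ^ (N - 1 - n))
    (BhL.RR (C (w ^ 2)⁻¹ * X) a E Z N n) y hM
    (by rw [hBe]; exact mul_ne_zero (C_ne_zero.2 hc0) hB.ne_zero)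
    (by rw [hn, hN']; exact BhL.dg_RR _ _ _ _ hr)
    (by
      rw [hBe, natDegree_C_mul hc0, hBd, hMd]
      obtain ⟨t, rfl⟩ : ∃ t, N = t + 1 + n := ⟨N - 1 - n, by omega⟩
      rw [show t + 1 + n - 1 - n = t by omega]
      rw [← hn] at hΔ
      rw [← he] at hm
      subst hm
      linarith)
    h1 h2 hy0 hy1 hy
  rw [← hn] at hmain
  rw [avg_congr (G := fun g => ε * eM (E ^ 3 * a ^ N)
    (C (w ^ 2)⁻¹ * X * Z ^ 6 * E ^ n * a ^ (N - 1 - n) * (g ^ 2) ^ n +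
      BhL.RR (C (w ^ 2)⁻¹ * X) a E Z N n g)), avg_mul_left, abs_mul]
  · calc _ ≤ 1 * (2 * y) := mul_le_mul hε hmain (abs_nonneg _) zero_le_one
      _ = 2 * y := one_mul _
  intro g hg
  have hag : MD m (a + E * g ^ 2) := ha.add (degree_mul_sq_lt hg (by omega))
  rw [hmu _ hag, ← eM_mul hag.1 hM, BhL.key _ a E Z g hnN hZ2, eM_add, mul_comm (a + E * g ^ 2),
    eM_mul hM hag.1]
  have hs : eM (E ^ 3 * a ^ N * (a + E * g ^ 2))
      (C (w ^ 2)⁻¹ * X * Z ^ 6 * (E * g ^ 2) ^ N) = 1 := by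
    by_cases hg0 : g = 0
    · rw [hg0, zero_pow two_ne_zero, mul_zero, zero_pow (by omega), mul_zero, eM_zero]
    · have hgd := natDegree_lt_of_degree hg0 hg
      refine eM_small (hM.mul hag.1) ?_
      have h3 : (C (w ^ 2)⁻¹ * X * Z ^ 6 * (E * g ^ 2) ^ N).natDegree ≤
          1 + 6 * (e + j) + N * (e + 2 * g.natDegree) := by
        refine natDegree_mul_le.trans (add_le_add (natDegree_mul_le.trans (add_le_add ?_ ?_)) ?_)
        · exact (natDegree_C_mul_le _ _).trans natDegree_X_le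
        · rw [natDegree_pow, hZ.2]
        · refine natDegree_pow_le.trans (Nat.mul_le_mul_left _ (natDegree_mul_le.trans ?_))
          rw [natDegree_pow, he]
      rw [hM.natDegree_mul hag.1, hMd, hag.2]
      rw [← hN'] at hN
      rw [← he] at hm
      obtain ⟨t, ht⟩ : ∃ t, 2 * j + 1 = 2 * g.natDegree + t := ⟨2 * j + 1 - 2 * g.natDegree, by omega⟩
      have h4 : N * (2 * j + 3 - 2 * γ) ≤ N * t := Nat.mul_le_mul_left _ (by omega)
      have h5 : N * m = N * (e + 2 * g.natDegree) + N * t := by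
        rw [← mul_add]
        congr 1
        omega
      omega
  rw [hs, mul_one]

end Pool.Agent.Lib.MP_4b8564_nt
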