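import Pool.Agent.Lib.MP_4b8564_nt.BhA
import Pool.Agent.Lib.MP_9227d9_nt.TwLine

/-!
Cancellation on good lines, with a Kloosterman fraction.
-/

namespace Pool.Agent.Lib.MP_4b8564_nt

open Polynomial Pool.Agent.Lib.MP_9227d9_nt.Mob

open scoped Classical

namespace BhLn

variable {k : Type} [Field k] [Fintype k] [CharP k 2]

theorem kl_one (b x : k[X]) : kl 1 b x = 1 := by
  unfold kl eM
  rw [if_pos isCoprime_one_right, modByMonic_one, coeff_zero]
  exact B0.ps_zero

theorem kl_prod {ι : Type} {p : ι → k[X]} (hp : ∀ i, IsP (p i)) (hi : Function.Injective p)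
    (S : Finset ι) : ∀ b : k[X], ∃ c : ι → k[X], ∀ x,
      kl (∏ i ∈ S, p i) b x = ∏ i ∈ S, kl (p i) (c i) x := by
  induction S using Finset.induction_on with
  | empty => exact fun b => ⟨fun _ => 0, fun x => by simp [kl_one]⟩
  | insert j S hj ih =>
    intro b
    obtain ⟨c, hc⟩ := ih (b * invM (∏ i ∈ S, p i) (p j))
    refine ⟨Function.update c j (b * invM (p j) (∏ i ∈ S, p i)), fun x => ?_⟩
    rw [Finset.prod_insert hj, Finset.prod_insert hj, Function.update_self,
      kl_crt (hp j).1 (monic_prod_of_monic _ _ fun i _ => (hp i).1)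
        (IsCoprime.prod_right fun i h => (hp j).isCoprime (hp i) fun e => hj (hi e ▸ h)), hc]
    congr 1
    exact Finset.prod_congr rfl fun i h => by
      rw [Function.update_of_ne fun e => hj (by rwa [e] at h)]

theorem per {p : k[X]} (hp : p.Monic) (b a w σ t : k[X]) :
    kl p b (a + w * (σ + p ^ 2 * t)) = kl p b (a + w * σ) :=
  kl_congr hp ⟨w * p * t, by ring⟩ b

end BhLn

theorem stLn (hA : StA) (hB : StB2) : StLn := by
  intro U
  obtain ⟨C, hC⟩ := hB (U + 1)
  have hN : 1 ≤ 2 ^ (U + 1 + 1) := Nat.one_le_two_pow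
  generalize 2 ^ (U + 1 + 1) = N at hC hN
  have hN' : (0 : ℝ) < N := by exact_mod_cast hN
  refine ⟨|C| + 1, (N : ℝ)⁻¹, by positivity, by positivity,
    fun k _ _ _ τ _ r I d H v b hr hI h0 hle hH hW hv hp => ?_⟩
  have hQ : (1 : ℝ) ≤ qR k ^ τ := one_le_pow₀ one_le_qR
  have e : qR k ^ ((N : ℝ)⁻¹ * τ) = (qR k ^ τ) ^ ((N : ℝ)⁻¹) := by
    rw [mul_comm, Real.rpow_mul qR_pos.le, Real.rpow_natCast]
  rw [e]
  refine TwLine.root_le hN (abs_nonneg _) hQ ?_
  obtain ⟨p, hp', ep⟩ := exists_of_Wt_ne_zero hW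
  have ip := TwLine.inj hp' hI
  obtain ⟨ε, a1, b1⟩ := TwLine.line hA (fun i => (hp' i).1) ip ep hH hv
  obtain ⟨c, hc⟩ := BhLn.kl_prod (fun i => (hp' i).1) ip Finset.univ b
  rw [ep] at hc
  have r0 : (p 0).natDegree = 12 * τ := (hp' 0).2.trans h0
  have hd : p 0 ∣ od H := ep ▸ Finset.dvd_prod_of_mem _ (Finset.mem_univ 0)
  have hsq : Squarefree (od H) := by
    have := squarefree_prod (S := Finset.univ.image p) fun x hx => by
      obtain ⟨i, -, rfl⟩ := Finset.mem_image.1 hx
      exact (hp' i).1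
    rwa [Finset.prod_image fun a _ b _ h => ip h, ep] at this
  let φ : Option (Fin r) → k[X] → ℝ := fun o σ => o.elim ε fun i =>
    chi (p i.succ) (od H) (ev H + v * σ) * kl (p i.succ) (c i.succ) (ev H + v * σ)
  let M : Option (Fin r) → k[X] := fun o => o.elim 1 fun i => p i.succ ^ 2
  have key := hC k (p 0) (od H) (ev H) v (kl (p 0) (c 0)) _ φ M (76 * τ) (by simp; omega)
    (hp' 0).1
    (fun h => (hp' 0).1.2.not_isUnit ((isCoprime_derivative hsq).isUnit_of_dvd' hd h))
    (hp _ (hp' 0).1 r0 hd) (fun x => abs_kl_le _ _ _)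
    (fun x t => kl_congr (hp' 0).1.1 ⟨t, by ring⟩ _) (by
      rintro (_ | i) σ
      · simp only [φ, Option.elim]
        exact a1
      · simp only [φ, Option.elim]
        rw [abs_mul]
        exact mul_le_one₀ (abs_chi_le _ _ _) (abs_nonneg _) (abs_kl_le _ _ _)) (by
      rintro (_ | i) σ t
      · simp only [φ, Option.elim]
      · simp only [φ, M, Option.elim, TwLine.per, BhLn.per (hp' i.succ).1.1]) (by
      rintro (_ | i) h
      · exact (hp' 0).1.prime.not_dvd_one h
      · exact (Fin.succ_ne_zero i).symm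
          (ip ((hp' 0).1.eq_of_dvd (hp' _).1 ((hp' 0).1.prime.dvd_of_dvd_pow h)))) (by
      rintro (_ | i)
      · change (1 : k[X]).natDegree + _ ≤ _
        rw [natDegree_one]
        omega
      · change (p i.succ ^ 2).natDegree + _ ≤ _
        have := hle i.succ
        rw [natDegree_pow, (hp' _).2]
        omega) (by omega)
  have eN : Nm (p 0) = (qR k ^ τ) ^ 12 := by rw [Nm, r0, ← pow_mul, mul_comm]
  rw [eN] at key
  refine le_of_eq_of_le (congrArg (fun x => |x| ^ N) (avg_congr fun σ hσ => ?_)) key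
  rw [b1 σ hσ, hc, Fin.prod_univ_succ, Fin.prod_univ_succ, Fintype.prod_option]
  simp only [φ, Option.elim]
  rw [Finset.prod_mul_distrib]
  ring

end Pool.Agent.Lib.MP_4b8564_nt
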