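import Pool.Agent.Lib.MP_4b8564_nt.BhA
import Pool.Agent.Lib.MP_9227d9_nt.TwPar
import Pool.Agent.Lib.MP_9227d9_nt.TwSm1

/-! The main term. -/

namespace Pool.Agent.Lib.MP_4b8564_nt

open Polynomial Pool.Agent.Lib.MP_9227d9_nt.Mob

open scoped Classical

namespace BhMn

variable {k : Type} [Field k] [Fintype k]

omit [Fintype k] in
theorem mu_eq_zero {F : k[X]} (h : ¬ Squarefree F) : mu F = 0 := by
  by_contra h0
  exact h (mu_ne_zero_iff.1 h0)

omit [Fintype k] in
theorem mu_mul_eq_zero {E D : k[X]} (h : ¬ IsCoprime D E) : mu (E * D) = 0 :=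
  mu_eq_zero fun hs => h (IsRelPrime.of_squarefree_mul hs).isCoprime.symm

omit [Fintype k] in
theorem mu_mul_mu {E : k[X]} (hE : Squarefree E) (D : k[X]) :
    mu E * mu (E * D) = if IsCoprime D E then mu D else 0 := by
  split_ifs with h
  · have h1 := mu_sq E
    rw [if_pos hE] at h1
    rw [mu_mul h.symm, ← mul_assoc, ← sq, h1, one_mul]
  · rw [mu_mul_eq_zero h, mul_zero]

theorem Un_eq [CharP k 2] {w : k} (E : k[X]) {m n : ℕ} (hw : w ≠ 0) (hn : n ≤ m) :
    Un w E m n = avm n fun D => if E ∣ D - 0 then mu D else 0 := by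
  unfold Un
  simp only [Finset.sum_filter]
  rw [avm_sum, avm_eq_MoD n, Finset.sum_div]
  refine Finset.sum_congr rfl fun D hD => ?_
  have hD' := mem_MoD.1 hD
  have h1 := avm_dvd_fa (m := m) hw hD'.ne_zero (hD'.2 ▸ hn)
  have h2 : ∀ a : k[X], (if D ∣ fa w a then (if E ∣ D then (1 : ℝ) else 0) * mu D else 0) =
      ((if E ∣ D then (1 : ℝ) else 0) * mu D) * if D ∣ fa w a then (1 : ℝ) else 0 := fun a => by
    split_ifs <;> simp
  simp only [h2]
  rw [avm_mul_left, h1, hD'.2, sub_zero]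
  by_cases hs : Squarefree D
  · rw [if_pos hs]
    split_ifs <;> ring
  · rw [mu_eq_zero hs]
    split_ifs <;> simp

theorem main1 [CharP k 2] (w : k) (E : k[X]) (m j : ℕ) (hw : w ≠ 0) (hE : E.Monic)
    (hs : Squarefree E) (hj : j + E.natDegree ≤ m) :
    mu E * Un w E m (j + E.natDegree) = gg E j / qR k ^ E.natDegree := by
  have h1 := TwPar.key (B := E) (m₀ := 0) (b := E.natDegree) (j := j + E.natDegree) ⟨hE, rfl⟩
    (by simp) (Nat.le_add_left _ _) mu
  rw [Nat.add_sub_cancel] at h1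
  rw [Un_eq E hw hj, eq_div_iff (qR_pow_pos _).ne', mul_assoc, mul_comm _ (qR k ^ _), h1,
    ← avm_mul_left]
  exact avm_congr fun D _ => by rw [zero_add, mu_mul_mu hs]

omit [Fintype k] in
theorem mu_prime {p : k[X]} (hp : IsP p) : mu p = -1 := by
  have h := mu_prod (S := {p}) fun r hr => Finset.mem_singleton.1 hr ▸ hp
  simpa using h

/-- Removal of one prime. -/
theorem gg_rec {p P : k[X]} (hp : IsP p) (hP : IsCoprime p P) (j : ℕ) :
    gg (p * P) j =
      gg P j + 1 / Nm p * if p.natDegree ≤ j then gg (p * P) (j - p.natDegree) else 0 := by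
  have h1 := TwSm1.avm_dvd stPar1 hp (fun D => -if IsCoprime D P then mu D else 0) j
  have h2 : ∀ m : k[X], (-if IsCoprime (p * m) P then mu (p * m) else 0) =
      if IsCoprime m (p * P) then mu m else 0 := fun m => by
    by_cases h : IsCoprime m p
    · rw [mu_mul h.symm, mu_prime hp]
      by_cases h' : IsCoprime m P
      · rw [if_pos (hP.mul_left h'), if_pos (h.mul_right h')]
        ring
      · rw [if_neg fun h3 => h' h3.of_mul_left_right, if_neg fun h3 => h' h3.of_mul_right_right,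
          neg_zero]
    · rw [mu_mul_eq_zero h, if_neg fun h3 : IsCoprime m (p * P) => h h3.of_mul_right_left]
      simp
  simp only [h2] at h1
  unfold gg
  rw [← h1, ← avm_add]
  refine avm_congr fun D _ => ?_
  by_cases h : p ∣ D
  · rw [if_pos h, if_neg fun h3 : IsCoprime D (p * P) =>
      hp.isCoprime_iff.1 h3.of_mul_right_left h]
    ring
  · rw [if_neg h, add_zero]
    exact if_congr ⟨fun h3 => h3.of_mul_right_right,
      fun h3 => (hp.isCoprime_iff.2 h).mul_right h3⟩ rfl rfl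

/-- The summatory function. -/
noncomputable def AA (g : ℕ → ℝ) (J : ℕ) : ℝ := ∑ j ∈ Finset.range (J + 1), g j

theorem AA_rec {a b : ℕ → ℝ} {r : ℝ} {d : ℕ}
    (h : ∀ j, a j = b j + r * if d ≤ j then a (j - d) else 0) (J : ℕ) :
    AA a J = AA b J + r * if d ≤ J then AA a (J - d) else 0 := by
  unfold AA
  rw [Finset.sum_congr rfl fun j _ => h j, Finset.sum_add_distrib, ← Finset.mul_sum]
  congr 2
  split_ifs with hd
  · obtain ⟨e, rfl⟩ := Nat.exists_eq_add_of_le hd
    rw [Nat.add_sub_cancel_left, add_assoc, Finset.sum_range_add,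
      Finset.sum_eq_zero fun i hi => if_neg (not_le.2 (Finset.mem_range.1 hi)), zero_add]
    exact Finset.sum_congr rfl fun i _ => by simp
  · exact Finset.sum_eq_zero fun i hi => if_neg (by have := Finset.mem_range.1 hi; omega)

theorem bound_rec {A B : ℕ → ℝ} {r c : ℝ} {d : ℕ} (hd : 1 ≤ d) (h0 : 0 ≤ r)
    (hr : r ≤ 2 / 3 * (3 / 4) ^ d) (hc : 0 ≤ c)
    (h : ∀ J, A J = B J + r * if d ≤ J then A (J - d) else 0)
    (hB : ∀ J, 0 ≤ B J ∧ B J ≤ c * (3 / 4) ^ J) (J : ℕ) :
    0 ≤ A J ∧ A J ≤ 3 * c * (3 / 4) ^ J := by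
  induction J using Nat.strong_induction_on with
  | _ J ih =>
    have h1 := hB J
    have h2 : (0 : ℝ) ≤ c * (3 / 4) ^ J := by positivity
    rw [h J]
    split_ifs with hJ
    · obtain ⟨e, rfl⟩ := Nat.exists_eq_add_of_le hJ
      rw [Nat.add_sub_cancel_left]
      have h3 := ih e (by omega)
      have h4 : r * A e ≤ 2 / 3 * (3 / 4) ^ d * (3 * c * (3 / 4) ^ e) :=
        mul_le_mul hr h3.2 h3.1 (by positivity)
      have h5 : (2 / 3 * (3 / 4) ^ d * (3 * c * (3 / 4) ^ e) : ℝ) = 2 * (c * (3 / 4) ^ (d + e)) := by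
        rw [pow_add]
        ring
      have h6 := mul_nonneg h0 h3.1
      exact ⟨by linarith [h1.1], by linarith [h1.2]⟩
    · exact ⟨by linarith [h1.1], by linarith [h1.2]⟩

theorem AA_one (J : ℕ) : AA (gg (1 : k[X])) J = if J = 0 then 1 else 0 := by
  have h1 := (stSm1 stPar1 k 0).2 J
  have h2 : ∀ i, mm k 0 i = gg (1 : k[X]) i := fun i => avm_congr fun D _ => by
    rw [if_pos isCoprime_one_right, rI, if_pos (c := Rough 0 D) fun _ _ _ => Nat.zero_le _,
      mul_one]
  simp only [h2] at h1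
  rw [AA, h1, ← TwSm1.avm_ind_empty (k := k) J]
  exact avm_congr fun D _ => if_congr ⟨fun h p hp hd => absurd (h p hp hd) (Nat.not_lt_zero _),
    fun h p hp hd => absurd (h p hp hd) (Finset.notMem_empty _)⟩ rfl rfl

theorem inv_Nm_le {p : k[X]} (hp : IsP p) : 1 / Nm p ≤ 2 / 3 * (3 / 4) ^ p.natDegree := by
  obtain ⟨e, he⟩ := Nat.exists_eq_add_of_le hp.natDegree_pos
  have h1 : 1 / Nm p ≤ 1 / 2 ^ p.natDegree :=
    one_div_le_one_div_of_le (by positivity) (pow_le_pow_left₀ zero_le_two two_le_qR _)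
  have h2 : ((1 : ℝ) / 2) ^ e ≤ (3 / 4) ^ e := pow_le_pow_left₀ (by norm_num) (by norm_num) e
  refine h1.trans ?_
  rw [← one_div_pow, he, pow_add, pow_add]
  norm_num
  linarith

theorem AA_prod (S : Finset k[X]) (hS : ∀ p ∈ S, IsP p) :
    AA (gg (∏ p ∈ S, p)) 0 = 1 ∧ ∀ J, 0 ≤ AA (gg (∏ p ∈ S, p)) J ∧
      AA (gg (∏ p ∈ S, p)) J ≤ 3 ^ S.card * (3 / 4) ^ J := by
  induction S using Finset.induction_on with
  | empty =>
    simp only [Finset.prod_empty, AA_one, Finset.card_empty, pow_zero, one_mul, if_true, true_and]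
    intro J
    split_ifs with h
    · simp [h]
    · exact ⟨le_rfl, by positivity⟩
  | insert p S hp ih =>
    have hS' : ∀ r ∈ S, IsP r := fun r hr => hS r (Finset.mem_insert_of_mem hr)
    have hp' : IsP p := hS p (Finset.mem_insert_self _ _)
    have hc : IsCoprime p (∏ r ∈ S, r) :=
      (hp'.isCoprime_iff.2 fun hd => hp ((dvd_prod_iff_mem hS' hp').1 hd)).symm
    obtain ⟨i1, i2⟩ := ih hS'
    have h1 := AA_rec (gg_rec hp' hc)
    have h2 := hp'.natDegree_pos
    rw [Finset.prod_insert hp, Finset.card_insert_of_notMem hp, pow_succ' (3 : ℝ)]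
    refine ⟨?_, bound_rec h2 (one_div_pos.2 (Nm_pos p)).le (inv_Nm_le hp') (by positivity) h1 i2⟩
    rw [h1 0, i1, if_neg (by omega), mul_zero, add_zero]

/-- Summation by parts. -/
theorem abel (g : ℕ → ℝ) (J : ℕ) : -∑ j ∈ Finset.range (J + 1), (j : ℝ) * g j =
    ∑ i ∈ Finset.range J, AA g i - J * AA g J := by
  induction J with
  | zero => simp
  | succ J ih =>
    have h : AA g (J + 1) = AA g J + g (J + 1) := Finset.sum_range_succ _ _
    rw [Finset.sum_range_succ, neg_add, ih, Finset.sum_range_succ, h]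
    push_cast
    ring

end BhMn

theorem stMn : StMn := by
  intro k _ _ _
  refine ⟨BhMn.main1, fun S J hS hJ => ?_, fun J hJ => ?_⟩
  · obtain ⟨h1, h2⟩ := BhMn.AA_prod S hS
    have h3 := Finset.single_le_sum (s := Finset.range J) (a := 0) (fun i _ => (h2 i).1)
      (Finset.mem_range.2 hJ)
    have h4 := mul_le_mul_of_nonneg_left (h2 J).2 (Nat.cast_nonneg (α := ℝ) J)
    rw [BhMn.abel]
    linarith
  · rw [BhMn.abel]
    simp only [BhMn.AA_one]
    rw [Finset.sum_ite_eq', if_pos (Finset.mem_range.2 hJ), if_neg (by omega), mul_zero, sub_zero]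

end Pool.Agent.Lib.MP_4b8564_nt
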