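import Pool.Agent.Lib.MP_4b8564_nt.BhA
import Pool.Agent.Lib.MP_9227d9_nt.TwOff

/-! The Moebius function twisted by the roots of the quadratic congruence. -/

namespace Pool.Agent.Lib.MP_4b8564_nt

open Polynomial Pool.Agent.Lib.MP_9227d9_nt.Mob

open scoped Classical

namespace BhRA

variable {k : Type} [Field k] [Fintype k] [CharP k 2]

/-- The twisted Moebius function in terms of the even and odd parts of a multiple. -/
theorem pt (w : k) {h D u : k[X]} {n d : ℕ} (hD : MD n D) (hH : MD (2 * d + 1) (D * u))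
    (hc : IsCoprime u (od (D * u))) (hh : h.natDegree + 1 < n) :
    mu D * eM D (h * rt w D) =
      mu u * (mu (D * u) * kl (od (D * u)) (h * C w * u) (ev (D * u))) := by
  rw [mu_eq_of_isCoprime_od hc, mul_assoc]
  by_cases h0 : mu (D * u) = 0
  · rw [h0, zero_mul, zero_mul]
  have hs := mu_ne_zero_iff.1 h0
  have h1 := isCoprime_od hs
  have h2 := dvd_rt_mul w (hs.squarefree_of_dvd (dvd_mul_right D u)) u
  have h3 := hH.od
  have h4 := natDegree_ev_le (D * u)
  have h5 := ev_od (D * u)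
  rw [hH.2] at h4
  generalize od (D * u) = l at *
  generalize ev (D * u) = A at *
  have h6 : IsCoprime A l := by
    rw [h5, sq l, ← mul_assoc] at h1
    exact (IsCoprime.pow_left_iff two_pos).1 h1.of_add_mul_right_left
  have h7 : (h * C w * A).natDegree ≤ h.natDegree + A.natDegree :=
    natDegree_mul_le.trans (Nat.add_le_add_right (natDegree_mul_C_le _ _) _)
  obtain ⟨t, ht⟩ := invM_spec h6
  rw [← kl_eq (b := h * C w * A) hD.1 h1.of_mul_left_left.symm (by
      convert h2.mul_left h using 1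
      ring), kl_recip hD.1 h3.1 (by rw [hD.2, h3.2]; omega),
    kl_eq (y := h * C w * u * invM l A) h3.1 h1.of_mul_left_left
      ⟨h * C w * (A * t + X * l * invM l A), by
        linear_combination h * C w * invM l A * h5 + h * C w * A * ht⟩]
  unfold kl
  rw [if_pos h6]

omit [CharP k 2] in
theorem avm_zero (F : k[X] → ℝ) : avm 0 F = F 1 := by
  rw [avm_congr (G := fun _ => F 1) fun f hf => by rw [hf.1.natDegree_eq_zero.1 hf.2], avm_const]

omit [CharP k 2] in
theorem E_eq (c : Tw k) (ha : c.a = 0) (hb : c.b = 0) (Φ : k[X] → k[X] → k[X] → ℝ) :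
    c.E Φ = avm c.n (Φ 1 1) := by
  have h1 : sr c.z (1 : k[X]) = 1 := by rw [sr_eq, if_pos ⟨squarefree_one, rough_one _⟩]
  unfold Tw.E E3
  rw [ha, hb, avm_zero, avm_zero]
  simp [h1]

theorem arith {K C C' x y Z Q R : ℝ} (hK : 1 ≤ K) (hx : K ≤ C * x) (hy : 0 < y) (hC' : 0 < C')
    (h1 : x ^ 2 * y ≤ Z) (hZ : 0 < Z) (h2 : Z ≤ √Q) (hQ : 1 ≤ Q) (h3 : Z ≤ R) :
    4 * 1 * K ^ 2 / √Q + K * (C' / R + K / Q) ≤ C ^ 2 * (5 + C') / y := by
  have h4 : √Q ≤ Q := Real.sqrt_le_iff.2 ⟨by linarith, by nlinarith⟩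
  have h5 : K ≤ K ^ 2 := le_self_pow₀ hK two_ne_zero
  calc 4 * 1 * K ^ 2 / √Q + K * (C' / R + K / Q)
      = 4 * K ^ 2 / √Q + K * C' / R + K ^ 2 / Q := by ring
    _ ≤ 4 * K ^ 2 / Z + K ^ 2 * C' / Z + K ^ 2 / Z := by
      gcongr
      exact h2.trans h4
    _ = K ^ 2 * (5 + C') / Z := by ring
    _ ≤ (C * x) ^ 2 * (5 + C') / Z := by gcongr
    _ = C ^ 2 * (5 + C') * (x ^ 2 / Z) := by ring
    _ ≤ C ^ 2 * (5 + C') * (1 / y) :=
      mul_le_mul_of_nonneg_left (by rwa [div_le_div_iff₀ hZ hy, one_mul]) (by positivity)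
    _ = _ := by ring

end BhRA

theorem stOnK (h1 : StEX1) : StOnK := by
  intro k _ _ _ c K sv w h E ha hb hK hL hsv hE hEd hh
  have hK10 := hK.ten_le
  have hQ : (0 : ℝ) < c.Q := lt_of_lt_of_le two_pos c.two_le_Q
  have hA : MD c.a (1 : k[X]) := ⟨monic_one, by rw [ha, natDegree_one]⟩
  have hd : c.h.natDegree ≤ c.a + c.τ := c.h_deg.trans (Nat.le_add_left _ _)
  have hn := c.n1_add
  have hτ := c.τ_pos
  have hκ := c.τ_le
  have hM : ∀ {m u : k[X]}, MD c.n1 m → MD c.nu u →
      MD c.n (m + c.h) ∧ MD (2 * c.dl + 1) ((m + c.h) * u) := fun hm hu => by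
    have := c.MD_line hA hd hm hu
    rw [one_mul, mul_one, show c.a + c.n1 = c.n by omega] at this
    exact ⟨this.1, this.2.1⟩
  have hl : ∀ m u σ : k[X], (m + u * σ ^ 2 + c.h) * u = (m + c.h) * u + (u * σ) ^ 2 :=
    fun m u σ => by ring
  have ho : ∀ m u σ : k[X], od ((m + u * σ ^ 2 + c.h) * u) = od ((m + c.h) * u) :=
    fun m u σ => by rw [hl, od_add, od_sq, add_zero]
  have hab : ∀ F x l : k[X], |mu F * eM F x * c.W l| ≤ K := fun F x l => by
    rw [mul_right_comm, abs_mul, abs_eM, mul_one]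
    exact TwOff.abs_le c hK _ _
  have key := TwOff.gen c (K' := 1) (φ := fun m => if E ∣ m + c.h then 1 else 0)
    ⟨Unit, Finset.univ, fun _ m => if E ∣ m + c.h then 1 else 0, fun _ => E, fun m => by simp,
      fun _ _ => ⟨hE, hEd.trans (by omega), fun p _ hp => by
        have h2 : p.natDegree ≤ E.natDegree := natDegree_le_of_dvd hp hE
        have h3 : c.z = 12 * c.τ := rfl
        omega, fun m t => if_congr (by
          rw [add_right_comm]
          exact dvd_add_left (dvd_mul_right _ _)) rfl rfl⟩, fun m _ => by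
      rw [Finset.sum_const, Finset.card_univ, Fintype.card_unit, one_smul]
      split_ifs <;> simp⟩
    (B₁ := K * sv) (B₂ := K * (K / c.Q))
    (fun u m => mu (m + c.h) * eM (m + c.h) (h * rt w (m + c.h)) * c.W (od ((m + c.h) * u)))
    (fun u m => IsCoprime u (od ((m + c.h) * u))) (by positivity)
    (fun u m σ => by rw [ho]) ?_ ?_
  · refine key.trans (le_of_eq ?_)
    ring
  · intro u m r hu hm hr hrd hrs hg
    have h2 : avg (76 * c.τ) (fun σ => mu (m + u * (r * σ) ^ 2 + c.h) *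
        eM (m + u * (r * σ) ^ 2 + c.h) (h * rt w (m + u * (r * σ) ^ 2 + c.h)) *
        c.W (od ((m + u * (r * σ) ^ 2 + c.h) * u))) =
        (mu u * c.W (od ((m + c.h) * u))) * avg (76 * c.τ) fun σ =>
          mu ((m + c.h) * u + (u * r * σ) ^ 2) *
            kl (od ((m + c.h) * u)) (h * C w * u) (ev ((m + c.h) * u) + u * r * σ) := by
      rw [← avg_mul_left]
      refine avg_congr fun σ hσ => ?_
      have h3 : MD c.n1 (m + u * (r * σ) ^ 2) := hm.add (by
        rw [mul_pow, ← mul_assoc]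
        refine degree_mul_sq_lt hσ ?_
        rw [natDegree_mul hu.ne_zero (pow_ne_zero 2 hr), natDegree_pow, hu.2]
        have h4 := c.L_eq
        have h5 := c.nu_add
        omega)
      rw [BhRA.pt w (hM h3 hu).1 (hM h3 hu).2 (by rwa [ho]) hh, ho, hl, ev_add, ev_sq, mul_assoc u r]
      ring
    rw [h2, abs_mul]
    by_cases hW : c.W (od ((m + c.h) * u)) = 0
    · rw [hW, mul_zero, abs_zero, zero_mul]
      positivity
    · exact mul_le_mul (TwOff.abs_le c hK _ _)
        (hL c.r c.I c.dl _ _ _ c.r_le c.I_inj c.I_zero c.I_le (hM hm hu).2 hW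
          (by simpa only [one_mul] using TwOff.dir_deg c hA hu hr hrd)
          (TwOff.dir_cop c hg hrs)) (abs_nonneg _) (by linarith)
  · intro m hm
    by_cases hmu : mu (m + c.h) = 0
    · refine avm_le_of_le fun u _ => ?_
      rw [hmu, zero_mul, zero_mul, abs_zero, ite_self]
      positivity
    · refine le_trans (avm_mono (G := fun u => K * if TwOff.Ev c 1 c.h m u then 1 else 0)
        fun u hu => ?_) ?_
      · have hi : (0 : ℝ) ≤ K * if TwOff.Ev c 1 c.h m u then 1 else 0 := by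
          split_ifs <;> linarith
        by_cases hg : IsCoprime u (od ((m + c.h) * u))
        · rw [if_pos hg]
          exact hi
        · rw [if_neg hg]
          by_cases hW : c.W (od ((m + c.h) * u)) = 0
          · rw [hW, mul_zero, abs_zero]
            exact hi
          · rw [if_pos (TwOff.ev_of c hA hu (by simpa only [one_mul, mul_one] using hW)
              (by simpa only [one_mul, mul_one] using hg)), mul_one]
            exact hab _ _ _
      · rw [avm_mul_left]
        exact mul_le_mul_of_nonneg_left (TwOff.avm_ev h1 c hK hA squarefree_one isCoprime_one_right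
          hd hm (by rwa [one_mul])) (by linarith)

theorem stRA (hU : StUse) (hI : StIex) (hK : StK2) (hS : StSing) (hL : StLn) (hO : StOnK) :
    StRA := by
  intro k _ _ _ w E hE
  have hX : MD 2 (X * (X + 1) : k[X]) := by
    have h1 : MD 1 (X : k[X]) := ⟨monic_X, natDegree_X⟩
    exact h1.mul (h1.add_of_lt (by simp))
  obtain ⟨_, -, -, -, ha⟩ := hS k _ hX.ne_zero
  obtain ⟨C', δ, hC', hδ, hL'⟩ := hL 1536000
  obtain ⟨e, he, he1, he2⟩ : ∃ e : ℝ, 0 < e ∧ e ≤ δ ∧ e ≤ 1 / 2 :=
    ⟨min δ (1 / 2), lt_min hδ (by norm_num), min_le_left _ _, min_le_right _ _⟩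
  obtain ⟨W, hW⟩ := exists_nat_ge (2 / e)
  have hW0 : (0 : ℝ) < W := lt_of_lt_of_le (by positivity) hW
  have hW1 : 0 < W := by exact_mod_cast hW0
  obtain ⟨C, hK'⟩ := hK k 1536000 (2 ^ (e / 4)) (Real.one_lt_rpow (by norm_num) (by positivity))
  refine ⟨768000 * W, C ^ 2 * (5 + C'), 768000 * (1536000 ^ 2 + E.natDegree), by omega,
    fun n h hn hh => ?_⟩
  obtain ⟨τ, hτ⟩ : ∃ τ, τ = n / 768000 := ⟨_, rfl⟩
  obtain ⟨K, hK1, hK2⟩ := hK' τ (by omega)
  let P : Par k := ⟨X * (X + 1), τ, 16, 1536000, n, hX.ne_zero, ha fun _ => dvd_rfl,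
    by rw [hX.2]; omega, by omega, le_rfl, by omega, by omega, by omega⟩
  obtain ⟨c, hc, hca, hcb⟩ := hI k P 0 0 (Nat.zero_le _) (show 2 * 0 + 480 * (16 * τ) ≤ n by omega)
  have e1 : c.n = n := congrArg Par.n hc
  have e2 : c.τ = τ := congrArg Par.τ hc
  have e3 : c.U = 1536000 := congrArg Par.U hc
  have e4 : c.n1 = c.n := by rw [Tw.n1, hca, hcb]; rfl
  have hq := qR_pos (k := k)
  have hq2 := two_le_qR (k := k)
  rw [← e2, ← e3] at hK2
  have h1 := hU k c K 1 (fun _ _ m => (if E ∣ m + c.h then 1 else 0) *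
    eM (m + c.h) (h * rt w (m + c.h))) hK2 zero_le_one fun _ _ m _ _ _ => by
      rw [abs_mul, abs_eM]
      split_ifs <;> simp
  have h2 := hO k c K (C' / qR k ^ (δ * τ)) w h E hca hcb hK2
    (by rw [e2, e3]; exact hL' k τ (by omega)) (by positivity) hE (by omega) (by omega)
  have h3 : c.h.degree < c.n := degree_lt_of_natDegree fun _ => by
    have := c.h_deg
    omega
  rw [BhRA.E_eq c hca hcb, BhRA.E_eq c hca hcb] at h1
  simp only [Tw.l, Tw.Xc, one_mul, mul_one, EuclideanDomain.div_one, ← avm_mul_left] at h1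
  rw [avm_comm, e4] at h2
  rw [← e1, ← avm_shift h3]
  have h4 := abs_sub_abs_le_abs_sub
    (avm c.n fun m => (if E ∣ m + c.h then 1 else 0) * eM (m + c.h) (h * rt w (m + c.h)) *
      mu (m + c.h))
    (avm c.n fun m => avm c.nu fun u => (if E ∣ m + c.h then 1 else 0) *
      eM (m + c.h) (h * rt w (m + c.h)) * mu (m + c.h) * c.W (od ((m + c.h) * u)))
  have hτ0 : (0 : ℝ) ≤ τ := Nat.cast_nonneg τ
  have h5 := BhRA.arith (y := qR k ^ (τ / W)) (Z := qR k ^ (e * τ)) (Q := c.Q)
    (R := qR k ^ (δ * τ)) (by linarith [hK2.ten_le]) hK1 (by positivity) hC' (by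
      have a1 : (((2 : ℝ) ^ (e / 4)) ^ τ) ^ 2 ≤ qR k ^ (e * τ / 2) := by
        rw [← pow_mul, ← Real.rpow_mul_natCast (by norm_num),
          show e / 4 * ((τ * 2 : ℕ) : ℝ) = e * τ / 2 by push_cast; ring]
        exact Real.rpow_le_rpow (by norm_num) hq2 (by positivity)
      have a2 : qR k ^ (τ / W) ≤ qR k ^ (e * τ / 2) := by
        rw [← Real.rpow_natCast]
        refine Real.rpow_le_rpow_of_exponent_le one_le_qR (Nat.cast_div_le.trans ?_)
        rw [div_le_iff₀ he] at hW
        rw [div_le_iff₀ hW0]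
        nlinarith
      calc _ ≤ qR k ^ (e * τ / 2) * qR k ^ (e * τ / 2) := by gcongr
        _ = _ := by rw [← Real.rpow_add hq, add_halves]) (by positivity) (by
      rw [Par.Q, e2, Real.sqrt_eq_rpow, ← Real.rpow_natCast, ← Real.rpow_mul hq.le]
      exact Real.rpow_le_rpow_of_exponent_le one_le_qR (by nlinarith))
    (one_le_two.trans c.two_le_Q)
    (Real.rpow_le_rpow_of_exponent_le one_le_qR (mul_le_mul_of_nonneg_right he1 hτ0))
  rw [e1, ← Nat.div_div_eq_div_mul, ← hτ, ← e1]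
  simp only [mul_right_comm _ (mu _) (eM _ _), ← mul_assoc] at h2 ⊢
  linarith

end Pool.Agent.Lib.MP_4b8564_nt
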