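import Pool.Agent.Lib.MP_4b8564_nt.BhA

/-!
RB: cancellation in progressions of proportional length.
-/

namespace Pool.Agent.Lib.MP_4b8564_nt

open Polynomial Pool.Agent.Lib.MP_9227d9_nt.Mob

open scoped Classical

namespace BhRB

/-- The choice of the parameters. -/
theorem par {n N W m s : ℕ} (hn : 8 * W + 3 ≤ n) (ho : Odd n) (hN : 3 * n ≤ 2 * N)
    (hm : 2 * n ^ 2 ≤ m) (hs : m ≤ W * s) :
    ∃ j γ Δ : ℕ, 2 * j + 1 ≤ s ∧ 2 * Δ + 2 * m = n * (2 * j + 1) + 1 ∧ (n - 1) * (γ - 1) ≤ Δ ∧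
      Δ < n * (γ - m / (2 * n ^ 2)) ∧ γ ≤ j + 1 ∧ 2 * m ≤ N * (2 * j + 3 - 2 * γ) := by
  have n3 : 3 ≤ n := by omega
  have n0 : 0 < n := by omega
  have hD : 0 < 2 * n ^ 2 := by positivity
  have m6 : 6 * n ≤ m := by nlinarith
  have s1 : 1 ≤ s := by
    rcases Nat.eq_zero_or_pos s with rfl | h
    · omega
    · exact h
  obtain ⟨j, j1, j2⟩ : ∃ j, 2 * j + 1 ≤ s ∧ s ≤ 2 * (2 * j + 1) := ⟨(s - 1) / 2, by omega, by omega⟩
  have h4 : 4 * m ≤ n * (2 * j + 1) := by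
    have a1 := Nat.mul_le_mul_left W j2
    have a2 := Nat.mul_le_mul_right (2 * j + 1) hn
    nlinarith
  obtain ⟨η, hη⟩ : ∃ η, η = m / (2 * n ^ 2) := ⟨_, rfl⟩
  have e1 : 2 * n ^ 2 * η ≤ m := hη ▸ Nat.mul_div_le _ _
  obtain ⟨t, t1, t2⟩ : ∃ t, n * t + 1 ≤ m ∧ m ≤ n * t + n := by
    refine ⟨(m - 1) / n, ?_, ?_⟩
    · have := Nat.mul_div_le (m - 1) n
      omega
    · have := Nat.lt_mul_div_succ (m - 1) n0
      rw [Nat.mul_add, Nat.mul_one] at this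
      omega
  have e2 : 6 * (n * η) ≤ m := by nlinarith [Nat.mul_le_mul_right (n * η) n3]
  have e3 : η ≤ t := by
    by_contra h
    have := Nat.mul_le_mul_left n (show t + 1 ≤ η by omega)
    rw [Nat.mul_add, Nat.mul_one] at this
    omega
  have e4 : t ≤ j := by
    by_contra h
    have := Nat.mul_le_mul_left n (show 2 * j + 1 ≤ 2 * t by omega)
    nlinarith
  have e5 : 2 * t + 2 * (n * η) + n ≤ 2 * j + 1 := by
    refine Nat.le_of_mul_le_mul_left ?_ n0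
    nlinarith
  obtain ⟨u, rfl⟩ := Nat.exists_eq_add_of_le e3
  obtain ⟨v, rfl⟩ := Nat.exists_eq_add_of_le e4
  obtain ⟨p, rfl⟩ := ho
  obtain ⟨Δ, hΔ⟩ : ∃ Δ, Δ + m = (2 * p + 1) * (η + u + v) + p + 1 :=
    ⟨(2 * p + 1) * (η + u + v) + p + 1 - m, Nat.sub_add_cancel (by nlinarith)⟩
  refine ⟨η + u + v, η + v + 1, Δ, j1, by nlinarith, ?_, ?_, by omega, ?_⟩
  · rw [Nat.add_sub_cancel, Nat.add_sub_cancel]
    nlinarith
  · rw [← hη, show η + v + 1 - η = v + 1 by omega]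
    nlinarith
  · rw [show 2 * (η + u + v) + 3 - 2 * (η + v + 1) = 2 * u + 1 by omega]
    have a1 := Nat.mul_le_mul_right (2 * u + 1) hN
    nlinarith

theorem exists_root {K : ℕ} (hK : K ≠ 0) : ∃ θ : ℝ, 0 ≤ θ ∧ θ < 1 ∧ θ ^ K = 2⁻¹ :=
  ⟨(2⁻¹ : ℝ) ^ ((K : ℝ)⁻¹), by positivity,
    Real.rpow_lt_one (by norm_num) (by norm_num) (by positivity),
    Real.rpow_inv_natCast_pow (by norm_num) hK⟩

theorem shift {k : Type} [Field k] [Fintype k] [CharP k 2] {w : k} {M E : k[X]} {m γ : ℕ} {B : ℝ}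
    (hw : w ≠ 0) (hM : M ≠ 0) (hm : M.natDegree ≤ m) (hE : M ∣ E)
    (hγ : E.natDegree + 2 * γ ≤ m + 1) (hB : 0 ≤ B)
    (h : ∀ a, MD m a → |avg γ fun g => mu (fa w (a + E * g ^ 2))| ≤ B) :
    |avm m fun a => if M ∣ fa w a then mu (fa w a) else 0| ≤ B / qR k ^ M.natDegree := by
  rw [avm_avg_shift γ (fun g => E * g ^ 2) fun g hg => degree_mul_sq_lt hg hγ]
  refine abs_avm_le.trans ((avm_mono (G := fun a => B * if M ∣ fa w a then 1 else 0)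
    fun a ha => ?_).trans ?_)
  · have h1 : ∀ g : k[X], M ∣ fa w (a + E * g ^ 2) ↔ M ∣ fa w a := fun g => by
      rw [fa_add]
      exact dvd_add_left (Dvd.dvd.pow (hE.mul_right _) two_ne_zero)
    simp only [h1]
    split_ifs
    · rw [mul_one]
      exact h a ha
    · rw [avg_const, abs_zero, mul_zero]
  · rw [avm_mul_left, avm_dvd_fa hw hM hm]
    split_ifs
    · rw [mul_one_div]
    · rw [mul_zero]
      exact div_nonneg hB (qR_pow_pos _).le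

end BhRB

theorem stRB (hL : StL) : StRB := by
  intro W
  obtain ⟨r, hr⟩ : ∃ r, r = 8 * W + 3 := ⟨_, rfl⟩
  obtain ⟨R, hR⟩ : ∃ R, R = 2 ^ r := ⟨_, rfl⟩
  have R1 : r < R := hR ▸ Nat.lt_two_pow_self
  have R2 : 2 ^ (r + 1) = 2 * R := by rw [hR, pow_succ, mul_comm]
  obtain ⟨n, hn⟩ : ∃ n, n = 2 * R - 1 := ⟨_, rfl⟩
  have n0 : 0 < n := by omega
  have R0 : 0 < R := by omega
  obtain ⟨D, hD⟩ : ∃ D, D = 2 * n ^ 2 := ⟨_, rfl⟩
  have D0 : 0 < D := by rw [hD]; positivity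
  obtain ⟨θ, t0, t1, t2⟩ := BhRB.exists_root (Nat.mul_pos D0 R0).ne'
  refine ⟨8, θ, D * R, t0, t1, fun k _ _ _ w M m hw hm hM hMm hs => ?_⟩
  obtain ⟨j, γ, Δ, a1, a2, a3, a4, a5, a6⟩ := BhRB.par (n := n) (N := 3 * R - 1) (W := W) (m := m)
    (by omega) ⟨R - 1, by omega⟩ (by omega) (hD ▸ (Nat.le_mul_of_pos_right D R0).trans hm) hs
  rw [← hD] at a4
  obtain ⟨η, hη⟩ : ∃ η, η = m / D := ⟨_, rfl⟩
  rw [← hη] at a4
  have e1 : R ≤ η := by
    rw [hη, Nat.le_div_iff_mul_le D0, mul_comm]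
    exact hm
  have e2 : m ≤ D * η + D * R := by
    have h1 := Nat.lt_mul_div_succ m D0
    rw [← hη, Nat.mul_add, Nat.mul_one] at h1
    have h2 := Nat.le_mul_of_pos_right D R0
    omega
  have y0 : 0 ≤ θ ^ (D * η) := pow_nonneg t0 _
  have y1 : θ ^ (D * η) ≤ 2⁻¹ := t2 ▸ pow_le_pow_of_le_one t0 t1.le (Nat.mul_le_mul_left D e1)
  have y2 : θ ^ (D * η) ≤ 2 * θ ^ m := by
    have h1 := pow_le_pow_of_le_one t0 t1.le e2
    rw [pow_add, t2] at h1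
    linarith
  have y3 : (2 : ℝ) ^ r / qR k ^ η ≤ (2 * θ ^ (D * η)) ^ 2 ^ r := by
    rw [← hR, mul_pow, ← pow_mul, mul_right_comm, pow_mul, t2, inv_pow, ← div_eq_mul_inv]
    exact div_le_div₀ (by positivity) (pow_le_pow_right₀ one_le_two R1.le) (by positivity)
      (pow_le_pow_left₀ zero_le_two two_le_qR η)
  have hE : (M * X ^ (m - M.natDegree - (2 * j + 1))).Monic := hM.mul (monic_X_pow _)
  have hd : (M * X ^ (m - M.natDegree - (2 * j + 1))).natDegree + (2 * j + 1) = m := by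
    rw [hM.natDegree_mul (monic_X_pow _), natDegree_X_pow]
    omega
  refine (BhRB.shift (γ := γ) (B := 2 * (2 * θ ^ (D * η))) hw hM.ne_zero hMm (dvd_mul_right M _)
    (by omega) (by positivity) fun a ha => hL k w r m j γ η Δ a _ _ hw (by omega) ha hE hd ?_ ?_ ?_
      a5 ?_ (by positivity) (by linarith) y3).trans ?_
  · rwa [R2, ← hn]
  · rwa [R2, show 2 * R - 2 = n - 1 by omega]
  · rwa [R2, ← hn]
  · rwa [← hR]
  · exact div_le_div_of_nonneg_right (by linarith) (qR_pow_pos _).le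

end Pool.Agent.Lib.MP_4b8564_nt
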