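import Pool.Agent.Lib.MP_4b8564_nt.BhA
import Pool.Agent.Lib.MP_9227d9_nt.TwRep

/-! Divisor sums of the Moebius function over the values `a ^ 2 + u T`. -/

namespace Pool.Agent.Lib.MP_4b8564_nt

open Polynomial Pool.Agent.Lib.MP_9227d9_nt.Mob

open scoped Classical

namespace BhU

variable {k : Type} [Field k] [Fintype k] {D E F : k[X]} {m n s : ℕ}

omit [Fintype k] in
theorem mu_eq_zero (h : ¬ Squarefree D) : mu D = 0 := by
  by_contra h0
  exact h (mu_ne_zero_iff.1 h0)

omit [Fintype k] in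
theorem mu_mul_mu (h : Squarefree (D * E)) : mu D * mu (D * E) = mu E := by
  have h1 : IsCoprime D E := (IsRelPrime.of_squarefree_mul h).isCoprime
  have h2 := mu_sq D
  rw [if_pos h.of_mul_left] at h2
  rw [mu_mul h1]
  linear_combination mu E * h2

/-- The number of short solutions of a congruence. -/
theorem avg_short [CharP k 2] (hD : MD (m + s) D) (x : k[X]) :
    avg m (fun v => if D ∣ v + x then (1 : ℝ) else 0) =
      avg s (fun h => eM D (h * x)) / qR k ^ m := by
  have h1 := avg_eM hD.1 (m := m) (by rw [hD.2]; omega) x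
  rw [hD.2, Nat.add_sub_cancel_left] at h1
  rw [h1, avg]
  congr 1
  have h2 : ∀ v ∈ Pn k m, (if D ∣ v + x then (1 : ℝ) else 0) = if x %ₘ D = v then 1 else 0 := by
    intro v hv
    refine if_congr ?_ rfl rfl
    have h3 : v.degree < D.degree := by
      refine (mem_Pn.1 hv).trans_le ?_
      rw [degree_eq_natDegree hD.ne_zero, hD.2]
      exact_mod_cast Nat.le_add_right m s
    rw [← modByMonic_eq_zero_iff_dvd hD.1, add_modByMonic, (modByMonic_eq_self_iff hD.1).2 h3,
      CharTwo.add_eq_zero, eq_comm]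
  rw [Finset.sum_congr rfl h2, Finset.sum_ite_eq]
  exact if_congr mem_Pn rfl rfl

/-- Passage to the complementary divisor. -/
theorem compl {a b : ℕ} (hF : MD n F) (hs : Squarefree F) (hab : a + b = n) (E : k[X]) :
    ∑ D ∈ (MoD k a).filter (fun D => D ∣ F), (if E ∣ D then 1 else 0) * mu D =
      ∑ e ∈ MoD k b, mu e * if e * E ∣ F then mu F else 0 := by
  have h0 : ∑ e ∈ MoD k b, mu e * (if e * E ∣ F then mu F else 0) =
      ∑ e ∈ (MoD k b).filter (fun e => e ∣ F), mu e * if e * E ∣ F then mu F else 0 := by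
    rw [Finset.sum_filter]
    refine Finset.sum_congr rfl fun e _ => ?_
    by_cases h : e ∣ F
    · rw [if_pos h]
    · rw [if_neg h, if_neg fun h' => h (dvd_of_mul_right_dvd h'), mul_zero]
  rw [h0]
  refine Finset.sum_nbij' (fun A => F / A) (fun A => F / A)
    (fun A hA => (TwRep.div_mem hF hab hA).1)
    (fun A hA => (TwRep.div_mem hF (by omega) hA).1)
    (fun A hA => (TwRep.div_mem hF hab hA).2)
    (fun A hA => (TwRep.div_mem (b := a) hF (by omega) hA).2) fun A hA => ?_
  obtain ⟨h1, u, rfl⟩ := Finset.mem_filter.1 hA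
  have h2 := (mem_MoD.1 h1).ne_zero
  have hu : u ≠ 0 := right_ne_zero_of_mul hF.ne_zero
  rw [mul_div_cancel_left₀ _ h2, mul_comm A u] at *
  by_cases h : E ∣ A
  · rw [if_pos h, if_pos (mul_dvd_mul_left u h), one_mul, mu_mul_mu hs]
  · rw [if_neg h, if_neg fun h' => h ((mul_dvd_mul_iff_left hu).1 h'), zero_mul, mul_zero]

/-- Removal of the fixed factor. -/
theorem strip (hE : E.Monic) (hs : Squarefree (E * F)) (j : ℕ) :
    mu E * ∑ D ∈ (MoD k (j + E.natDegree)).filter (fun D => D ∣ E * F),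
      (if E ∣ D then 1 else 0) * mu D = TwRep.cS j F := by
  have h0 : ∑ D ∈ (MoD k (j + E.natDegree)).filter (fun D => D ∣ E * F),
      (if E ∣ D then 1 else 0) * mu D =
      ∑ D ∈ ((MoD k (j + E.natDegree)).filter (fun D => D ∣ E * F)).filter (fun D => E ∣ D),
        mu D := by
    rw [Finset.sum_filter (fun D => E ∣ D)]
    exact Finset.sum_congr rfl fun D _ => by rw [ite_mul, one_mul, zero_mul]
  rw [h0, Finset.mul_sum, TwRep.cS]
  symm
  refine Finset.sum_bij (fun A _ => E * A) (fun A hA => ?_)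
    (fun A _ B _ h => mul_left_cancel₀ hE.ne_zero h) (fun D hD => ?_) fun A hA => ?_
  · obtain ⟨h1, h2⟩ := Finset.mem_filter.1 hA
    refine Finset.mem_filter.2 ⟨Finset.mem_filter.2 ⟨mem_MoD.2 ?_, mul_dvd_mul_left E h2⟩,
      dvd_mul_right _ _⟩
    rw [add_comm]
    exact MD.mul ⟨hE, rfl⟩ (mem_MoD.1 h1)
  · obtain ⟨h1, A, rfl⟩ := Finset.mem_filter.1 hD
    obtain ⟨h2, h3⟩ := Finset.mem_filter.1 h1
    obtain ⟨h4, h5⟩ := mem_MoD.1 h2
    have hA : A.Monic := hE.of_mul_monic_left h4
    rw [hE.natDegree_mul hA] at h5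
    exact ⟨A, Finset.mem_filter.2 ⟨mem_MoD.2 ⟨hA, by omega⟩,
      (mul_dvd_mul_iff_left hE.ne_zero).1 h3⟩, rfl⟩
  · exact (mu_mul_mu (hs.squarefree_of_dvd
      (mul_dvd_mul_left E (Finset.mem_filter.1 hA).2))).symm

/-- The von Mangoldt function of a squarefree polynomial. -/
theorem sum_cS (hn : 1 ≤ n) (hF : MD n F) (hs : Squarefree F) :
    (n : ℝ) * (if Irreducible F then 1 else 0) =
      -∑ j ∈ Finset.range (n + 1), (j : ℝ) * TwRep.cS j F := by
  have hu : ¬ IsUnit F := fun h => by
    have h1 := hF.2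
    rw [hF.1.isUnit_iff.1 h, natDegree_one] at h1
    omega
  obtain ⟨p, hp⟩ := Lam.exists_mem_pf hF.ne_zero hu
  have h1 := TwRep.sum_cS n F
  have h2 := TwRep.sum_cS (n + 1) F
  rw [Lam.vm_eq hF.ne_zero (hF.2.le.trans n.le_succ) hp, ← Lam.vm_eq hF.ne_zero hF.2.le hp,
    Finset.sum_range_succ, sub_self, zero_mul, add_zero] at h2
  have h3 := TwRep.vm_sqf hn hF hs
  simp only [sub_mul, Finset.sum_sub_distrib, ← Finset.mul_sum] at h1 h2
  push_cast at h2
  rw [mul_ite, mul_one, mul_zero, ← h3]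
  linear_combination (n : ℝ) * h2 - ((n : ℝ) + 1) * h1

end BhU

theorem stU1 : StU1 := by
  intro k _ _ _ w E m s B hm hs hB
  have h1 : Un w E m (m + s) = qR k ^ s * avg s fun h : k[X] =>
      ps0 ((h * X ^ m).coeff (m + s - 1)) *
        avm (m + s) fun D => (if E ∣ D then 1 else 0) * mu D * eM D (h * rt w D) := by
    have h2 : ∀ D ∈ MoD k (m + s), avm m (fun a => if D ∣ fa w a then
        (if E ∣ D then 1 else 0) * mu D else 0) = (avg s fun h : k[X] =>
        ps0 ((h * X ^ m).coeff (m + s - 1)) *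
          ((if E ∣ D then 1 else 0) * mu D * eM D (h * rt w D))) / qR k ^ m := by
      intro D hD
      have hD' := mem_MoD.1 hD
      by_cases hq : Squarefree D
      · have h3 : avm m (fun a => if D ∣ fa w a then (if E ∣ D then 1 else 0) * mu D else 0) =
            (if E ∣ D then 1 else 0) * mu D *
              avg m fun v => if D ∣ v + (X ^ m + rt w D) then (1 : ℝ) else 0 := by
          rw [← avg_mul_left]
          refine avg_congr fun v _ => ?_
          rw [mul_ite, mul_one, mul_zero]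
          refine if_congr ?_ rfl rfl
          rw [dvd_fa_iff w hq, add_comm (X ^ m) v, add_assoc]
        rw [h3, BhU.avg_short hD', ← mul_div_assoc, ← avg_mul_left]
        congr 1
        refine avg_congr fun h hh => ?_
        have h4 : (h * X ^ m).degree < D.degree := by
          rw [degree_eq_natDegree hD'.ne_zero, hD'.2, mul_comm]
          exact degree_mul_lt hh (by rw [natDegree_X_pow])
        rw [mul_add, eM_add, TwB.eM_of_lt hD'.1 h4, hD'.2]
        ring
      · simp only [BhU.mu_eq_zero hq, mul_zero, zero_mul, ite_self, avm_const, avg_const, zero_div]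
    unfold Un
    simp only [Finset.sum_filter]
    rw [avm_sum, Finset.sum_congr rfl h2, ← Finset.sum_div, sum_MoD, avm_avg_comm, pow_add]
    simp only [avm_mul_left]
    have := qR_pow_pos (k := k) m
    field_simp
  rw [h1, abs_mul, abs_of_pos (qR_pow_pos s)]
  refine mul_le_mul_of_nonneg_left (abs_avg_le_of_le fun h hh => ?_) (qR_pow_pos s).le
  rw [abs_mul, ps0_eq, B0.abs_ps, one_mul]
  refine hB h ?_
  by_cases h0 : h = 0
  · rw [h0, natDegree_zero]
    omega
  · have := natDegree_lt_of_degree h0 hh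
    omega

theorem stU2 : StU2 := by
  intro k _ _ _ w E m n B hw hm hn hB
  unfold Un
  rw [avm_congr fun a ha => BhU.compl (b := 2 * m - n) (MD_fa hm ha) (squarefree_fa hw a)
    (by omega) E, avm_sum]
  refine (Finset.abs_sum_le_sum_abs _ _).trans
    ((Finset.sum_le_card_nsmul _ _ (B / qR k ^ (2 * m - n)) fun e he => ?_).trans ?_)
  · rw [avm_mul_left, abs_mul]
    exact (mul_le_of_le_one_left (abs_nonneg _) (abs_mu_le e)).trans (hB e (mem_MoD.1 he))
  · rw [nsmul_eq_mul, card_MoD, mul_div_cancel₀ _ (qR_pow_pos _).ne']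

theorem stLm : StLm := by
  intro k _ _ _ w E m hw hE hm
  unfold Lm Un
  simp only [← avm_mul_left]
  rw [← avm_sum, ← neg_one_mul, ← avm_mul_left]
  refine avm_congr fun a ha => ?_
  have hf : MD (2 * m) (fa w a) := MD_fa (by omega) ha
  have hs := squarefree_fa hw a
  generalize fa w a = f at hf hs
  rw [neg_one_mul]
  by_cases h : E ∣ f
  · obtain ⟨F, rfl⟩ := h
    have hF : F.Monic := hE.of_mul_monic_left hf.1
    have h1 := hf.2
    rw [hE.natDegree_mul hF] at h1
    simp only [BhU.strip hE hs, mul_div_cancel_left₀ _ hE.ne_zero, dvd_mul_right, true_and]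
    exact BhU.sum_cS (by omega) ⟨hF, by omega⟩ hs.of_mul_right
  · rw [if_neg fun h' => h h'.1, mul_zero, Finset.sum_eq_zero, neg_zero]
    intro j _
    rw [Finset.sum_eq_zero, mul_zero, mul_zero]
    intro D hD
    rw [if_neg fun h' => h (h'.trans (Finset.mem_filter.1 hD).2), zero_mul]

end Pool.Agent.Lib.MP_4b8564_nt
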