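import Pool.Agent.Lib.MP_9227d9_nt.MobA
import Pool.Agent.Lib.MP_9227d9_nt.MobA1
import Pool.Agent.Lib.MP_9227d9_nt.MobA2
import Pool.Agent.Lib.MP_9227d9_nt.MobD
import Pool.Agent.Lib.MP_9227d9_nt.MobDa
import Pool.Agent.Lib.MP_9227d9_nt.MobVar
import Pool.Agent.Lib.MP_9227d9_nt.MobK
import Pool.Agent.Lib.MP_9227d9_nt.MobS
import Pool.Agent.Lib.MP_9227d9_nt.MobM1
import Pool.Agent.Lib.MP_9227d9_nt.MobM4
import Pool.Agent.Lib.MP_9227d9_nt.TwCell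
import Pool.Agent.Lib.MP_9227d9_nt.TwColl
import Pool.Agent.Lib.MP_9227d9_nt.TwSeq
import Pool.Agent.Lib.MP_9227d9_nt.TwSing
import Pool.Agent.Lib.MP_9227d9_nt.TwK2
import Pool.Agent.Lib.MP_9227d9_nt.TwIns
import Pool.Agent.Lib.MP_9227d9_nt.TwPar
import Pool.Agent.Lib.MP_9227d9_nt.TwEX
import Pool.Agent.Lib.MP_9227d9_nt.TwUse
import Pool.Agent.Lib.MP_4b8564_nt.BhF2
import Pool.Agent.Lib.MP_4b8564_nt.BhF
import Pool.Agent.Lib.MP_4b8564_nt.BhV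
import Pool.Agent.Lib.MP_4b8564_nt.BhL
import Pool.Agent.Lib.MP_4b8564_nt.BhRB
import Pool.Agent.Lib.MP_4b8564_nt.BhB
import Pool.Agent.Lib.MP_4b8564_nt.BhLn
import Pool.Agent.Lib.MP_4b8564_nt.BhRA
import Pool.Agent.Lib.MP_4b8564_nt.BhU
import Pool.Agent.Lib.MP_4b8564_nt.BhMn
import Pool.Agent.Lib.MP_4b8564_nt.BhErr
import Pool.Agent.Lib.MP_4b8564_nt.BhK
import Pool.Agent.Lib.MP_4b8564_nt.BhK3
import Pool.Agent.Lib.MP_4b8564_nt.BhFin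

/-! Assembly of the modules. -/

namespace Pool.Agent.Lib.MP_4b8564_nt

open Pool.Agent.Lib.MP_9227d9_nt.Mob

theorem bhRA : StRA :=
  stRA (stUse (stIns (stD stDa) (stCell stS stSQ stEX stM1) stColl stPar2) stM4) stIex
    (stK2 stVar stM5 stOm) stSing (stLn (stA stA1 (stA2 stA2n)) (stB2 stB1))
    (stOnK (stEX1 stSQ stEX))

theorem bhRB : StRB := stRB (stL (stF stA1 stF2) stV)

theorem bhBH : StBH := stBH (stErr bhRA bhRB stU1 stU2 stLm stMn) stMn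

theorem bhFin : StFin := stFin bhBH stPsi (stKL stK1' stK2' stK3) stSyn

end Pool.Agent.Lib.MP_4b8564_nt
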