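import Pool.Agent.Lib.MP_9227d9_nt.TwB

/-!
Primes of the form `a ^ 2 + u T` over finite fields of characteristic two and Kloosterman sums
(definitions and statements of the modules).
-/

namespace Pool.Agent.Lib.MP_4b8564_nt

open Polynomial Pool.Agent.Lib.MP_9227d9_nt.Mob

open scoped Classical

section Defs

variable {k : Type} [Field k] [Fintype k]

/-- The value `a ^ 2 + u T` with `u = w ^ 2`. -/
noncomputable def fa (w : k) (a : k[X]) : k[X] := a ^ 2 + X * C w ^ 2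

/-- A root of `r ^ 2 + u T` modulo `D`. -/
noncomputable def rt (w : k) (D : k[X]) : k[X] := if h : ∃ r, D ∣ fa w r then h.choose else 0

/-- Functions that are killed by `r + 1` differences. -/
def Dg : ℕ → (k[X] → k[X]) → Prop
  | 0, F => ∀ g, F g = F 0
  | r + 1, F => ∀ h, Dg r fun g => F (g + h) + F g

/-- The Moebius function summed over the divisors of degree `n` that are multiples of `E`. -/
noncomputable def Un (w : k) (E : k[X]) (m n : ℕ) : ℝ :=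
  avm m fun a => ∑ D ∈ (MoD k n).filter (fun D => D ∣ fa w a), (if E ∣ D then 1 else 0) * mu D

/-- The density of the `a` for which the value is `E` times a prime. -/
noncomputable def Lm (w : k) (E : k[X]) (m : ℕ) : ℝ :=
  avm m fun a => if E ∣ fa w a ∧ Irreducible (fa w a / E) then 1 else 0

/-- The mean of the Moebius function on the polynomials prime to `E`. -/
noncomputable def gg (E : k[X]) (j : ℕ) : ℝ := avm j fun D => if IsCoprime D E then mu D else 0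

/-- Cancellation on good lines, with a Kloosterman fraction. -/
def LineK (k : Type) [Field k] [Fintype k] [CharP k 2] (U τ : ℕ) (sv : ℝ) : Prop :=
  ∀ (r : ℕ) (I : Fin (r + 1) → ℕ) (d : ℕ) (H v b : k[X]), r + 1 ≤ U → Function.Injective I →
    I 0 = 12 * τ → (∀ i, I i ≤ 32 * τ) → MD (2 * d + 1) H → Wt I (od H) ≠ 0 →
    v.natDegree + 76 * τ ≤ d + 1 → (∀ p, IsP p → p.natDegree = 12 * τ → p ∣ od H → ¬ p ∣ v) →
    |avg (76 * τ) fun σ => mu (H + (v * σ) ^ 2) * kl (od H) b (ev H + v * σ)| ≤ sv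

/-- The normalised Kloosterman sum to the monic modulus `c`. -/
noncomputable def KL (ψ : AddChar k ℝ) (c : k[X]) : ℝ :=
  (∑ᶠ z ∈ {z : k[X] × k[X] | z.1.degree < c.degree ∧ z.2.degree < c.degree ∧ c ∣ z.1 * z.2 - 1},
    ψ ((z.1 + z.2).coeff (c.natDegree - 1))) / √((Fintype.card k : ℝ) ^ c.natDegree)

/-- The argument of a root of `x ^ 2 + x + 2`. -/
noncomputable def phi : ℝ := Real.arccos (-1 / (2 * √2))

end Defs

/-- F2: the discriminant of `a ^ 2 + u T` modulo eight. -/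
def StF2 : Prop :=
  ∀ m : ℕ, 1 ≤ m → ∃ ε : ℕ, ∀ (L : Type) [Field L] [CharP L 2] [PerfectRing L 2] (φ : L →+* L)
    (α : Fin (2 * m) → L) (s : Equiv.Perm (Fin (2 * m))) (a : L[X]) (u : L),
    Function.Injective α → (∀ i, φ (α i) = α (s i)) → a.Monic → a.natDegree = m →
    a.map φ = a → φ u = u → u ≠ 0 → a ^ 2 + X * C u = ∏ i, (X - C (α i)) →
    ∃ z : L, z ^ 2 + z =
        ε + ((X * a * derivative a ^ 3) %ₘ (a ^ 2 + X * C u)).coeff (2 * m - 1) / u ∧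
      φ z = z + if Equiv.Perm.sign s = 1 then 0 else 1

/-- F: the Moebius function of `a ^ 2 + u T`. -/
def StF : Prop :=
  ∀ (k : Type) [Field k] [Fintype k] [CharP k 2] (w : k) (m : ℕ), w ≠ 0 → 1 ≤ m →
    ∃ ε : ℝ, |ε| ≤ 1 ∧ ∀ a : k[X], MD m a →
      mu (fa w a) = ε * eM a (C (w ^ 2)⁻¹ * X * derivative a ^ 3)

/-- V: Weyl differencing for a phase with one term of top degree. -/
def StV : Prop :=
  ∀ (k : Type) [Field k] [Fintype k] [CharP k 2] (r γ η Δ : ℕ) (M B : k[X]) (R : k[X] → k[X])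
    (y : ℝ), M.Monic → B ≠ 0 → Dg r R → B.natDegree + 2 * Δ + 1 = M.natDegree →
    (2 ^ (r + 1) - 2) * (γ - 1) ≤ Δ → Δ < (2 ^ (r + 1) - 1) * (γ - η) → 0 ≤ y → y ≤ 1 →
    2 ^ r / qR k ^ η ≤ y ^ 2 ^ r →
    |avg γ fun g => eM M (B * (g ^ 2) ^ (2 ^ (r + 1) - 1) + R g)| ≤ 2 * y

/-- L: cancellation on the lines `a + E g ^ 2`. -/
def StL : Prop :=
  ∀ (k : Type) [Field k] [Fintype k] [CharP k 2] (w : k) (r m j γ η Δ : ℕ) (a E : k[X]) (y : ℝ),
    w ≠ 0 → 1 ≤ r → MD m a → E.Monic → E.natDegree + (2 * j + 1) = m →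
    2 * Δ + 2 * m = (2 ^ (r + 1) - 1) * (2 * j + 1) + 1 →
    (2 ^ (r + 1) - 2) * (γ - 1) ≤ Δ → Δ < (2 ^ (r + 1) - 1) * (γ - η) → γ ≤ j + 1 →
    2 * m ≤ (3 * 2 ^ r - 1) * (2 * j + 3 - 2 * γ) → 0 ≤ y → y ≤ 1 →
    2 ^ r / qR k ^ η ≤ y ^ 2 ^ r → |avg γ fun g => mu (fa w (a + E * g ^ 2))| ≤ 2 * y

/-- RB: cancellation in progressions of proportional length. -/
def StRB : Prop :=
  ∀ W : ℕ, ∃ (C θ : ℝ) (m₀ : ℕ), 0 ≤ θ ∧ θ < 1 ∧
    ∀ (k : Type) [Field k] [Fintype k] [CharP k 2] (w : k) (M : k[X]) (m : ℕ), w ≠ 0 → m₀ ≤ m →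
      M.Monic → M.natDegree ≤ m → m ≤ W * (m - M.natDegree) →
      |avm m fun a => if M ∣ fa w a then mu (fa w a) else 0| ≤ C * θ ^ m / qR k ^ M.natDegree

/-- B1: the complete sum with a periodic factor. -/
def StB1 : Prop :=
  ∀ (k : Type) [Field k] [Fintype k] [CharP k 2] (p b w : k[X]) (ρ : k[X] → ℝ) (J : Type)
    [Fintype J] [Nonempty J] (a : J → k[X]) (L : ℕ), IsP p → ¬ p ∣ derivative b → ¬ p ∣ w →
    (∀ x, |ρ x| ≤ 1) → (∀ x t, ρ (x + p * t) = ρ x) →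
    (∀ i j, i ≠ j → ¬ p ∣ a i - a j) → 2 * p.natDegree ≤ L →
    (avg L fun σ => ∏ j, (chi p b (a j + w * σ) * ρ (a j + w * σ))) ^ 2 ≤
      ((Fintype.card J : ℝ) + 2) ^ 2 / Nm p

/-- B2: the van der Corput iteration with a periodic factor. -/
def StB2 : Prop :=
  ∀ m : ℕ, ∃ C : ℝ, ∀ (k : Type) [Field k] [Fintype k] [CharP k 2] (p b a w : k[X])
    (ρ : k[X] → ℝ) (ι : Type) [Fintype ι] (φ : ι → k[X] → ℝ) (M : ι → k[X]) (L : ℕ),
    Fintype.card ι ≤ m → IsP p → ¬ p ∣ derivative b → ¬ p ∣ w →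
    (∀ x, |ρ x| ≤ 1) → (∀ x t, ρ (x + p * t) = ρ x) → (∀ i σ, |φ i σ| ≤ 1) →
    (∀ i σ t, φ i (σ + M i * t) = φ i σ) → (∀ i, ¬ p ∣ M i) →
    (∀ i, (M i).natDegree + p.natDegree ≤ L) → 2 * p.natDegree ≤ L →
    |avg L fun σ => chi p b (a + w * σ) * ρ (a + w * σ) * ∏ i, φ i σ| ^ 2 ^ (m + 1) ≤ C / Nm p

/-- Ln: cancellation on good lines. -/
def StLn : Prop :=
  ∀ U : ℕ, ∃ C δ : ℝ, 0 < C ∧ 0 < δ ∧ ∀ (k : Type) [Field k] [Fintype k] [CharP k 2] (τ : ℕ),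
    1 ≤ τ → LineK k U τ (C / qR k ^ (δ * τ))

/-- OnK: the weighted mean. -/
def StOnK : Prop :=
  ∀ (k : Type) [Field k] [Fintype k] [CharP k 2] (c : Tw k) (K sv : ℝ) (w : k) (h E : k[X]),
    c.a = 0 → c.b = 0 → KB2 k c.U c.τ K → LineK k c.U c.τ sv → 0 ≤ sv → E ≠ 0 →
    E.natDegree ≤ c.τ → h.natDegree + 1 < c.n →
    |avm c.nu fun u => avm c.n1 fun m => (if E ∣ m + c.h then 1 else 0) *
      (mu (m + c.h) * eM (m + c.h) (h * rt w (m + c.h)) * c.W (od ((m + c.h) * u)))| ≤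
      K * (sv + K / c.Q)

/-- RA: the Moebius function twisted by the roots of the quadratic congruence. -/
def StRA : Prop :=
  ∀ (k : Type) [Field k] [Fintype k] [CharP k 2] (w : k) (E : k[X]), E ≠ 0 →
    ∃ (W : ℕ) (C : ℝ) (n₀ : ℕ), 1 ≤ W ∧ ∀ (n : ℕ) (h : k[X]), n₀ ≤ n → h.natDegree + 1 < n →
      |avm n fun D => (if E ∣ D then 1 else 0) * mu D * eM D (h * rt w D)| ≤ C / qR k ^ (n / W)

/-- U1: detection of the roots by additive characters. -/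
def StU1 : Prop :=
  ∀ (k : Type) [Field k] [Fintype k] [CharP k 2] (w : k) (E : k[X]) (m s : ℕ) (B : ℝ),
    1 ≤ m → 1 ≤ s → (∀ h : k[X], h.natDegree + 1 < m + s →
      |avm (m + s) fun D => (if E ∣ D then 1 else 0) * mu D * eM D (h * rt w D)| ≤ B) →
    |Un w E m (m + s)| ≤ qR k ^ s * B

/-- U2: passage to the complementary divisor. -/
def StU2 : Prop :=
  ∀ (k : Type) [Field k] [Fintype k] [CharP k 2] (w : k) (E : k[X]) (m n : ℕ) (B : ℝ),
    w ≠ 0 → 1 ≤ m → n ≤ 2 * m → (∀ e : k[X], MD (2 * m - n) e →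
      |avm m fun a => if e * E ∣ fa w a then mu (fa w a) else 0| ≤ B / qR k ^ (2 * m - n)) →
    |Un w E m n| ≤ B

/-- Lm: the von Mangoldt function as a divisor sum. -/
def StLm : Prop :=
  ∀ (k : Type) [Field k] [Fintype k] [CharP k 2] (w : k) (E : k[X]) (m : ℕ), w ≠ 0 → E.Monic →
    E.natDegree < 2 * m → ((2 * m - E.natDegree : ℕ) : ℝ) * Lm w E m =
      -∑ j ∈ Finset.range (2 * m - E.natDegree + 1),
        (j : ℝ) * (mu E * Un w E m (j + E.natDegree))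

/-- Mn: the main term. -/
def StMn : Prop :=
  ∀ (k : Type) [Field k] [Fintype k] [CharP k 2],
    (∀ (w : k) (E : k[X]) (m j : ℕ), w ≠ 0 → E.Monic → Squarefree E → j + E.natDegree ≤ m →
      mu E * Un w E m (j + E.natDegree) = gg E j / qR k ^ E.natDegree) ∧
    (∀ (S : Finset k[X]) (J : ℕ), (∀ p ∈ S, IsP p) → 1 ≤ J →
      1 - J * (3 ^ S.card * (3 / 4 : ℝ) ^ J) ≤
        -∑ j ∈ Finset.range (J + 1), (j : ℝ) * gg (∏ p ∈ S, p) j) ∧
    ∀ J : ℕ, 1 ≤ J → -∑ j ∈ Finset.range (J + 1), (j : ℝ) * gg (1 : k[X]) j = 1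

/-- Err: the error term tends to zero. -/
def StErr : Prop :=
  ∀ (k : Type) [Field k] [Fintype k] [CharP k 2] (w : k) (E : k[X]), w ≠ 0 → E.Monic →
    Squarefree E → Filter.Tendsto (fun m : ℕ => ((2 * m - E.natDegree : ℕ) : ℝ) * Lm w E m +
      (∑ j ∈ Finset.range (m - E.natDegree + 1), (j : ℝ) * gg E j) / qR k ^ E.natDegree)
      Filter.atTop (nhds 0)

/-- BH: primes of the form `a ^ 2 + u T`. -/
def StBH : Prop :=
  ∀ (k : Type) [Field k] [Fintype k] [CharP k 2] (w : k), w ≠ 0 →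
    Filter.Tendsto (fun m : ℕ => 2 * m * Lm w 1 m) Filter.atTop (nhds 1) ∧
    ∀ S : Finset k[X], (∀ p ∈ S, IsP p) → ∀ᶠ m : ℕ in Filter.atTop,
      1 / (4 * m * qR k ^ (∏ p ∈ S, p).natDegree) ≤ Lm w (∏ p ∈ S, p) m

/-- Psi: the additive characters. -/
def StPsi : Prop :=
  ∀ (k : Type) [Field k] [Fintype k] [CharP k 2] (ψ : AddChar k ℝ), ψ ≠ 1 →
    ∃ w : k, w ≠ 0 ∧ ∀ t, ψ t = ps0 (w ^ 2 * t)

/-- K1: multiplicativity when the derivative of the modulus is constant. -/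
def StK1' : Prop :=
  ∀ (k : Type) [Field k] [Fintype k] [CharP k 2] (ψ : AddChar k ℝ) (u : k) (S : Finset k[X]),
    (∀ t, ψ t = ps0 (u * t)) → (∀ p ∈ S, IsP p) → S.Nonempty →
    derivative (∏ p ∈ S, p) = C u → KL ψ (∏ p ∈ S, p) = ∏ p ∈ S, √(Nm p) *
      avg p.natDegree fun x => kl p (derivative p) x * eM p (derivative p * x)

/-- K2: the local factor is a Kloosterman sum of the residue field. -/
def StK2' : Prop :=
  ∀ (k : Type) [Field k] [Fintype k] [CharP k 2] (p : k[X]), IsP p →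
    ∃ (F : Type) (_ : Field F) (_ : Fintype F) (_ : CharP F 2),
      Fintype.card F = Fintype.card k ^ p.natDegree ∧
      Nm p * avg p.natDegree (fun x => kl p (derivative p) x * eM p (derivative p * x)) =
        ∑ x ∈ Finset.univ.filter (fun x : F => x ≠ 0), ps0 (x + x⁻¹)

/-- K3: the theorem of Carlitz. -/
def StK3 : Prop :=
  ∀ (F : Type) [Field F] [Fintype F] [CharP F 2] (N : ℕ), Fintype.card F = 2 ^ N →
    ∑ x ∈ Finset.univ.filter (fun x : F => x ≠ 0), ps0 (x + x⁻¹) =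
      -(2 * √2 ^ N * Real.cos (N * phi))

/-- KL: the explicit value. -/
def StKL : Prop :=
  ∀ (k : Type) [Field k] [Fintype k] [CharP k 2] (ψ : AddChar k ℝ) (u : k) (S : Finset k[X])
    (ρ : ℕ), Fintype.card k = 2 ^ ρ → (∀ t, ψ t = ps0 (u * t)) → (∀ p ∈ S, IsP p) → S.Nonempty →
    derivative (∏ p ∈ S, p) = C u →
    KL ψ (∏ p ∈ S, p) = 2 ^ S.card * ∏ p ∈ S, -Real.cos ((ρ * p.natDegree : ℕ) * phi)

/-- Syn: the multiples of the angle return to every arc with bounded gaps. -/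
def StSyn : Prop :=
  ∀ (ρ : ℕ) (t δ : ℝ), 1 ≤ ρ → 0 < δ → ∃ G : ℕ, ∀ y : ℝ, ∃ i : ℕ, i ≤ G ∧
    |Real.cos (y + i * (ρ * phi)) - Real.cos t| < δ

/-- The main theorem. -/
def StFin : Prop :=
  ∀ (k : Type) [Field k] [Fintype k] [CharP k 2],
    (∀ u : k, u ≠ 0 → Filter.Tendsto (fun m : ℕ => 2 * m *
      (Set.ncard {a : k[X] | a.Monic ∧ a.natDegree = m ∧ Irreducible (a ^ 2 + C u * X)} : ℝ) /
        (Fintype.card k : ℝ) ^ m) Filter.atTop (nhds 1)) ∧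
    ∀ (ψ : AddChar k ℝ), ψ ≠ 1 → ∀ K : ℕ, 1 ≤ K → ∀ α β : ℝ, 0 ≤ α → α < β → β ≤ Real.pi →
      ∃ δ : ℝ, 0 < δ ∧ ∀ᶠ N : ℕ in Filter.atTop, δ * √(Fintype.card k) ^ N / N ≤
        (Set.ncard {c : k[X] | (∃ S : Finset k[X], S.card = K ∧
          (∀ p ∈ S, p.Monic ∧ Irreducible p) ∧ c = ∏ p ∈ S, p) ∧ c.natDegree ≤ N ∧
          Real.arccos (KL ψ c / 2 ^ K) ∈ Set.Ioo α β} : ℝ)

end Pool.Agent.Lib.MP_4b8564_nt
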