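import Pool.Agent.Lib.MP_4b8564_nt.BhA

/-! The return of the multiples of the angle and the main theorem. -/

namespace Pool.Agent.Lib.MP_4b8564_nt

open Polynomial Pool.Agent.Lib.MP_9227d9_nt.Mob

open scoped Classical

namespace BhFin

theorem cos_phi : 2 * √2 * Real.cos phi = -1 := by
  have h1 : (1 : ℝ) ≤ √2 := Real.one_le_sqrt.2 one_le_two
  have h2 : (0 : ℝ) < 2 * √2 := by linarith
  rw [phi, Real.cos_arccos, mul_div_cancel₀ _ h2.ne']
  · rw [le_div_iff₀ h2]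
    linarith
  · rw [div_le_iff₀ h2]
    linarith

/-- The traces of the powers of a root of `x ^ 2 + x + 2` are odd integers. -/
theorem odd_T (N : ℕ) : ∃ a b : ℤ, 2 * √2 ^ N * Real.cos (N * phi) = a ∧
    2 * √2 ^ (N + 1) * Real.cos ((N + 1 : ℕ) * phi) = 2 * b + 1 := by
  induction N with
  | zero =>
    refine ⟨2, -1, by simp, ?_⟩
    have h := cos_phi
    simp only [zero_add, pow_one, Nat.cast_one, one_mul]
    push_cast
    linarith
  | succ N ih =>
    obtain ⟨a, b, ha, hb⟩ := ih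
    refine ⟨2 * b + 1, -b - a - 1, by rw [hb]; push_cast; ring, ?_⟩
    have h1 : Real.cos ((N + 1 + 1 : ℕ) * phi) =
        2 * Real.cos phi * Real.cos ((N + 1 : ℕ) * phi) - Real.cos (N * phi) := by
      have e1 : ((N + 1 + 1 : ℕ) : ℝ) * phi = (N + 1 : ℕ) * phi + phi := by
        push_cast
        ring
      have e2 : (N : ℝ) * phi = (N + 1 : ℕ) * phi - phi := by
        push_cast
        ring
      rw [e1, e2, Real.cos_add, Real.cos_sub]
      ring
    have h2 : √2 ^ 2 = (2 : ℝ) := Real.sq_sqrt two_pos.le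
    rw [h1]
    push_cast at hb ⊢
    linear_combination (2 * √2 ^ (N + 1) * Real.cos ((N + 1) * phi)) * cos_phi - hb - 2 * ha -
      (2 * √2 ^ N * Real.cos (N * phi)) * h2

theorem cos_ne_one {N : ℕ} (hN : 1 ≤ N) : Real.cos (N * phi) ≠ 1 := fun h => by
  obtain ⟨N, rfl⟩ := Nat.exists_eq_add_of_le' hN
  obtain ⟨a, b, -, hb⟩ := odd_T N
  rw [h, mul_one] at hb
  have h2 : (√2 ^ (N + 1)) ^ 2 = (2 : ℝ) ^ (N + 1) := by
    rw [← pow_mul, mul_comm, pow_mul, Real.sq_sqrt two_pos.le]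
  have h3 : (4 * 2 ^ (N + 1) : ℝ) = 4 * (b ^ 2 + b) + 1 := by
    linear_combination (2 * √2 ^ (N + 1) + 2 * b + 1) * hb - 4 * h2
  have h4 : (4 * 2 ^ (N + 1) : ℤ) = 4 * (b ^ 2 + b) + 1 := by exact_mod_cast h3
  omega

/-- Small steps reach every point of the circle. -/
theorem steps {e : ℝ} (he : 0 < e) (y t : ℝ) :
    ∃ n : ℕ, n ≤ ⌈2 * Real.pi / e⌉₊ ∧ |Real.cos (y + n * e) - Real.cos t| ≤ e := by
  have hp : 0 < 2 * Real.pi := Real.two_pi_pos
  set l : ℤ := ⌊(t - y) / (2 * Real.pi)⌋ with hl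
  set r : ℝ := t - y - l * (2 * Real.pi) with hr
  have h0 : 0 ≤ r := by
    have := (le_div_iff₀ hp).1 (Int.floor_le ((t - y) / (2 * Real.pi)))
    linarith
  have h1 : r ≤ 2 * Real.pi := by
    have := (div_lt_iff₀ hp).1 (Int.lt_floor_add_one ((t - y) / (2 * Real.pi)))
    linarith
  refine ⟨⌊r / e⌋₊, ?_, ?_⟩
  · exact (Nat.floor_le_ceil _).trans (Nat.ceil_mono (div_le_div_of_nonneg_right h1 he.le))
  · have h2 := (le_div_iff₀ he).1 (Nat.floor_le (div_nonneg h0 he.le))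
    have h3 := (div_lt_iff₀ he).1 (Nat.lt_floor_add_one (r / e))
    rw [← Real.cos_sub_int_mul_two_pi t l]
    refine (Real.abs_cos_sub_cos_le _ _).trans (abs_le.2 ⟨?_, ?_⟩) <;> linarith

end BhFin

open BhFin in
theorem stSyn : StSyn := by
  intro ρ t δ hρ hδ
  have hp : 0 < 2 * Real.pi := Real.two_pi_pos
  obtain ⟨n, hn⟩ := exists_nat_gt (2 * Real.pi / δ)
  obtain ⟨j, hj, -, h⟩ :=
    Real.exists_nat_abs_mul_sub_round_le (ρ * phi / (2 * Real.pi)) (Nat.succ_pos n)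
  set l : ℤ := round (j * (ρ * phi / (2 * Real.pi))) with hl
  set e : ℝ := j * (ρ * phi) - l * (2 * Real.pi) with he
  have h1 : |e| < δ := by
    have e1 : e = (j * (ρ * phi / (2 * Real.pi)) - l) * (2 * Real.pi) := by
      rw [he]
      field_simp
    have h2 : (0 : ℝ) < (n.succ : ℕ) + 1 := by positivity
    rw [e1, abs_mul, abs_of_pos hp]
    refine (mul_le_mul_of_nonneg_right h hp.le).trans_lt ?_
    rw [div_lt_iff₀ hδ] at hn
    rw [one_div, inv_mul_lt_iff₀ h2]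
    push_cast
    nlinarith
  have h2 : e ≠ 0 := fun h0 => by
    refine cos_ne_one (N := j * ρ) (Nat.mul_pos hj hρ) ?_
    have e1 : ((j * ρ : ℕ) : ℝ) * phi = l * (2 * Real.pi) := by
      push_cast
      linarith
    rw [e1, Real.cos_int_mul_two_pi]
  refine ⟨⌈2 * Real.pi / |e|⌉₊ * j, fun y => ?_⟩
  have h3 : ∀ i : ℕ, Real.cos (y + (i * j : ℕ) * (ρ * phi)) = Real.cos (y + i * e) := fun i => by
    rw [← Real.cos_sub_int_mul_two_pi _ (i * l)]
    congr 1
    rw [he]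
    push_cast
    ring
  rcases le_total 0 e with h4 | h4
  · obtain ⟨i, hi, h5⟩ := steps (abs_pos.2 h2) y t
    refine ⟨i * j, Nat.mul_le_mul_right j hi, ?_⟩
    rw [h3]
    rw [abs_of_nonneg h4] at h5 h1
    exact h5.trans_lt h1
  · obtain ⟨i, hi, h5⟩ := steps (abs_pos.2 h2) (-y) t
    refine ⟨i * j, Nat.mul_le_mul_right j hi, ?_⟩
    rw [h3, ← Real.cos_neg (y + i * e)]
    rw [abs_of_nonpos h4] at h5 h1
    rw [show -(y + i * e) = -y + i * -e by ring]
    exact h5.trans_lt h1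

namespace BhFin

variable {k : Type} [Field k] [Fintype k] [CharP k 2] {w : k} {S : Finset k[X]} {ρ m : ℕ}

/-- The `a` for which the value is `E` times a prime. -/
noncomputable def TT (w : k) (E : k[X]) (m : ℕ) : Finset k[X] :=
  (MoD k m).filter fun a => E ∣ fa w a ∧ Irreducible (fa w a / E)

omit [CharP k 2] in
theorem Lm_eq (w : k) (E : k[X]) (m : ℕ) : Lm w E m = (TT w E m).card / qR k ^ m := by
  rw [Lm, avm_eq_MoD, Finset.sum_boole, TT]

/-- The product of the local factors. -/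
noncomputable def PP (ρ : ℕ) (S : Finset k[X]) : ℝ :=
  ∏ p ∈ S, -Real.cos ((ρ * p.natDegree : ℕ) * phi)

theorem of_mem_TT (hw : w ≠ 0) (hm : 1 ≤ m) (hS : ∀ p ∈ S, IsP p) {a : k[X]}
    (ha : a ∈ TT w (∏ p ∈ S, p) m) : ∃ P, IsP P ∧ P ∉ S ∧ ∏ p ∈ insert P S, p = fa w a ∧
      P.natDegree = 2 * m - (∏ p ∈ S, p).natDegree := by
  obtain ⟨h1, h2, h3⟩ := Finset.mem_filter.1 ha
  have hE := monic_prod hS
  have hF := MD_fa (w := w) hm (mem_MoD.1 h1)
  have h4 : (∏ p ∈ S, p) * (fa w a / ∏ p ∈ S, p) = fa w a :=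
    EuclideanDomain.mul_div_cancel' hE.ne_zero h2
  generalize fa w a / ∏ p ∈ S, p = P at h3 h4
  have h5 : P.Monic := hE.of_mul_monic_left (h4 ▸ hF.1)
  have h6 : P ∉ S := fun h => h3.not_isUnit (squarefree_fa hw a P
    (h4 ▸ mul_dvd_mul_right (Finset.dvd_prod_of_mem _ h) P))
  refine ⟨P, ⟨h5, h3⟩, h6, by rw [Finset.prod_insert h6, mul_comm, h4], ?_⟩
  have h7 := hE.natDegree_mul h5
  rw [h4, hF.2] at h7
  omega

/-- A good degree in every window. -/
theorem window (hB : StBH) (hS : StSyn) (hw : w ≠ 0) (hρ : 1 ≤ ρ) (hP : ∀ p ∈ S, IsP p)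
    {τ δ : ℝ} (hτ : |τ| ≤ 1) (hδ : 0 < δ) : ∃ G : ℕ, ∀ᶠ N : ℕ in Filter.atTop, ∃ m : ℕ,
      1 ≤ m ∧ 2 * m ≤ N ∧ N ≤ 2 * (m + G) ∧
      qR k ^ m / (4 * m * qR k ^ (∏ p ∈ S, p).natDegree) ≤ (TT w (∏ p ∈ S, p) m).card ∧
      |-Real.cos ((ρ * (2 * m - (∏ p ∈ S, p).natDegree) : ℕ) * phi) - τ| < δ := by
  obtain ⟨G, hG⟩ := hS (2 * ρ) (Real.arccos (-τ)) δ (by omega) hδ
  obtain ⟨m₀, h0⟩ := Filter.eventually_atTop.1 ((hB k w hw).2 S hP)
  set ε := (∏ p ∈ S, p).natDegree with hε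
  refine ⟨G + 1, Filter.eventually_atTop.2 ⟨2 * (G + m₀ + ε + 1), fun N hN => ?_⟩⟩
  obtain ⟨i, hi, h1⟩ := hG ((ρ * (2 * (N / 2 - G) - ε) : ℕ) * phi)
  refine ⟨N / 2 - G + i, by omega, by omega, by omega, ?_, ?_⟩
  · have h2 := h0 (N / 2 - G + i) (by omega)
    rw [Lm_eq, le_div_iff₀ (qR_pow_pos _)] at h2
    rwa [div_eq_mul_one_div, mul_comm]
  · have e1 : 2 * (N / 2 - G + i) - ε = 2 * (N / 2 - G) - ε + i * 2 := by omega
    have e2 : ((ρ * (2 * (N / 2 - G + i) - ε) : ℕ) : ℝ) * phi =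
        (ρ * (2 * (N / 2 - G) - ε) : ℕ) * phi + i * ((2 * ρ : ℕ) * phi) := by
      rw [e1, mul_add, Nat.cast_add]
      push_cast
      ring
    rw [Real.cos_arccos (by linarith [(abs_le.1 hτ).2]) (by linarith [(abs_le.1 hτ).1])] at h1
    rw [e2, ← abs_neg]
    rwa [neg_sub', neg_neg]

/-- Sets of primes with a large product of the local factors. -/
theorem exists_set (hB : StBH) (hS : StSyn) (hw : w ≠ 0) (hρ : 1 ≤ ρ) {x : ℝ} (h0 : 0 ≤ x)
    (hx : x < 1) (j : ℕ) : ∃ S : Finset k[X], S.card = j ∧ (∀ p ∈ S, IsP p) ∧ x < PP ρ S := by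
  induction j with
  | zero => exact ⟨∅, rfl, by simp, by simpa [PP] using hx⟩
  | succ j ih =>
    obtain ⟨S, hc, hP, h1⟩ := ih
    have h2 : 0 < PP ρ S := h0.trans_lt h1
    obtain ⟨G, hG⟩ := window hB hS hw hρ hP (τ := 1) (δ := 1 - x / PP ρ S) (by simp)
      (by rw [sub_pos, div_lt_one h2]; exact h1)
    obtain ⟨N, m, hm, -, -, h3, h4⟩ := hG.exists
    have h5 : (0 : ℝ) < (TT w (∏ p ∈ S, p) m).card := by
      refine lt_of_lt_of_le (div_pos (qR_pow_pos _) (mul_pos ?_ (qR_pow_pos _))) h3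
      have : (0 : ℝ) < m := by exact_mod_cast hm
      linarith
    obtain ⟨a, ha⟩ := Finset.card_pos.1 (Nat.cast_pos.1 h5)
    obtain ⟨P, hP1, hP2, -, hP3⟩ := of_mem_TT hw hm hP ha
    refine ⟨insert P S, by rw [Finset.card_insert_of_notMem hP2, hc],
      fun p hp => ?_, ?_⟩
    · rcases Finset.mem_insert.1 hp with rfl | hp
      exacts [hP1, hP p hp]
    · rw [PP, Finset.prod_insert hP2, hP3]
      exact (div_lt_iff₀ h2).1 (by linarith [(abs_lt.1 h4).1])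

theorem first (hB : StBH) {u : k} (hu : u ≠ 0) : Filter.Tendsto (fun m : ℕ => 2 * m *
    (Set.ncard {a : k[X] | a.Monic ∧ a.natDegree = m ∧ Irreducible (a ^ 2 + C u * X)} : ℝ) /
      (Fintype.card k : ℝ) ^ m) Filter.atTop (nhds 1) := by
  obtain ⟨w, rfl⟩ := (B0.sq_bij (K := k)).2 u
  refine (hB k w fun h => hu (by simp [h])).1.congr fun m => ?_
  have e : {a : k[X] | a.Monic ∧ a.natDegree = m ∧ Irreducible (a ^ 2 + C (w ^ 2) * X)} =
      (TT w 1 m : Set k[X]) := by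
    ext a
    simp only [TT, Finset.coe_filter, mem_MoD, MD, Set.mem_ofPred_eq, one_dvd, true_and,
      EuclideanDomain.div_one, fa, and_assoc, map_pow, mul_comm X]
  rw [Lm_eq, mul_div_assoc]
  simp only [e, Set.ncard_coe_finset, qR]

end BhFin

open BhFin in
theorem stFin (hB : StBH) (hP : StPsi) (hK : StKL) (hS : StSyn) : StFin := by
  intro k _ _ _
  refine ⟨fun u hu => first hB hu, fun ψ hψ K hK1 α β h0 hαβ hπ => ?_⟩
  obtain ⟨w, hw, hψw⟩ := hP k ψ hψ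
  obtain ⟨ρ, hρ1, hρ⟩ : ∃ ρ : ℕ, 1 ≤ ρ ∧ Fintype.card k = 2 ^ ρ := by
    obtain ⟨ρ, -, hρ⟩ := FiniteField.card k 2
    exact ⟨ρ, ρ.2, hρ⟩
  have hc := Real.cos_lt_cos_of_nonneg_of_le_pi h0 hπ hαβ
  have hc1 := Real.cos_le_one α
  have hc2 := Real.neg_one_le_cos β
  set x : ℝ := (Real.cos β + Real.cos α) / 2 with hx
  obtain ⟨S, hcard, hSP, hPP⟩ := exists_set hB hS hw hρ1 (abs_nonneg x)
    (abs_lt.2 ⟨by linarith, by linarith⟩) (K - 1)
  have hpos : 0 < PP ρ S := (abs_nonneg x).trans_lt hPP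
  obtain ⟨G, hG⟩ := window hB hS hw hρ1 hSP (τ := x / PP ρ S)
    (δ := (Real.cos α - Real.cos β) / 2 / PP ρ S)
    (by rw [abs_div, abs_of_pos hpos, div_le_one hpos]; exact hPP.le)
    (div_pos (by linarith) hpos)
  set ε := (∏ p ∈ S, p).natDegree with hε
  have hq : (0 : ℝ) < qR k := qR_pos
  refine ⟨1 / (4 * qR k ^ ε * qR k ^ G), by positivity, hG.mono ?_⟩
  rintro N ⟨m, hm, h1, h2, h3, h4⟩
  have hm' : (0 : ℝ) < m := by exact_mod_cast hm
  refine le_trans ?_ (h3.trans ?_)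
  · have h5 : √(Fintype.card k) ^ N ≤ qR k ^ m * qR k ^ G := by
      refine (pow_le_pow_right₀ (Real.one_le_sqrt.2 one_le_qR) h2).trans_eq ?_
      rw [pow_mul, Real.sq_sqrt hq.le, pow_add]
    have h6 : (m : ℝ) ≤ N := by exact_mod_cast (by omega : m ≤ N)
    refine (div_le_div₀ (by positivity) (mul_le_mul_of_nonneg_left h5 (by positivity)) hm'
      h6).trans_eq ?_
    field_simp
  · rw [← Finset.card_image_of_injective _ (fa_injective w), ← Set.ncard_coe_finset]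
    refine Nat.cast_le.2 (Set.ncard_le_ncard ?_ ((Mo k N).finite_toSet.subset ?_))
    · intro c hc'
      obtain ⟨a, ha, rfl⟩ := Finset.mem_image.1 (Finset.mem_coe.1 hc')
      obtain ⟨P, hP1, hP2, hP3, hP4⟩ := of_mem_TT hw hm hSP ha
      have h5 : ∀ p ∈ insert P S, IsP p := fun p hp => by
        rcases Finset.mem_insert.1 hp with rfl | hp
        exacts [hP1, hSP p hp]
      have h6 : (insert P S).card = K := by
        rw [Finset.card_insert_of_notMem hP2, hcard]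
        omega
      have h7 := hK k ψ (w ^ 2) (insert P S) ρ hρ hψw h5 (Finset.insert_nonempty _ _)
        (by rw [hP3, derivative_fa])
      rw [hP3, h6, Finset.prod_insert hP2, hP4, ← hε, ← PP] at h7
      refine ⟨⟨insert P S, h6, h5, hP3.symm⟩, ?_, ?_⟩
      · rw [(MD_fa hm (mem_MoD.1 (Finset.mem_filter.1 ha).1)).2]
        exact h1
      · rw [h7, mul_div_cancel_left₀ _ (by positivity)]
        obtain ⟨h8, h9⟩ := abs_lt.1 h4
        rw [← neg_div, lt_sub_iff_add_lt, ← add_div, div_lt_iff₀ hpos] at h8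
        rw [sub_lt_iff_lt_add, ← add_div, lt_div_iff₀ hpos] at h9
        constructor
        · rw [← Real.arccos_cos h0 (hαβ.le.trans hπ)]
          exact Real.arccos_lt_arccos (by linarith) (by linarith) hc1
        · rw [← Real.arccos_cos (h0.trans hαβ.le) hπ]
          exact Real.arccos_lt_arccos hc2 (by linarith) (by linarith)
    · rintro c ⟨⟨T, -, hT, rfl⟩, hd, -⟩
      exact Finset.mem_coe.2 (mem_Mo.2 ⟨monic_prod hT, hd⟩)

end Pool.Agent.Lib.MP_4b8564_nt
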