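import Pool.Agent.Lib.MP_4b8564_nt.BhA

/-! Weyl differencing for a phase with one term of top degree. -/

namespace Pool.Agent.Lib.MP_4b8564_nt

open Polynomial Pool.Agent.Lib.MP_9227d9_nt.Mob

open scoped Classical

namespace BhV

variable {k : Type} [Field k] [Fintype k] [CharP k 2]

/-- The product of the shifts of `g`. -/
noncomputable def AV (V : Multiset k[X]) (g : k[X]) : k[X] := g * (V.map fun v => g + v).prod

omit [Fintype k] [CharP k 2] in
theorem AV_step (V : Multiset k[X]) (h g : k[X]) :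
    AV (V + h ::ₘ V.map fun v => h + v) g = AV V g * AV V (g + h) := by
  unfold AV
  rw [Multiset.map_add, Multiset.prod_add, Multiset.map_cons, Multiset.prod_cons, Multiset.map_map]
  have e : (fun v => g + v) ∘ (fun v => h + v) = fun v => g + h + v :=
    funext fun v => (add_assoc _ _ _).symm
  rw [e]
  ring

omit [Fintype k] in
theorem AV_step_add {V : Multiset k[X]} (hA : ∀ g h, AV V (g + h) = AV V g + AV V h)
    (h g g' : k[X]) : AV (V + h ::ₘ V.map fun v => h + v) (g + g') =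
      AV (V + h ::ₘ V.map fun v => h + v) g + AV (V + h ::ₘ V.map fun v => h + v) g' := by
  have h2 : (2 : k[X]) = 0 := CharTwo.two_eq_zero
  rw [AV_step, AV_step, AV_step, hA, hA, hA, hA, hA]
  linear_combination (AV V g * AV V g') * h2

omit [Fintype k] [CharP k 2] in
theorem prod_ne {S : Multiset k[X]} (hS : ∀ v ∈ S, v ≠ 0) : S.prod ≠ 0 :=
  Multiset.prod_ne_zero fun h => hS 0 h rfl

omit [Fintype k] [CharP k 2] in
theorem natDegree_prod {S : Multiset k[X]} (hS : ∀ v ∈ S, v ≠ 0) :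
    S.prod.natDegree = (S.map natDegree).sum :=
  natDegree_multiset_prod S fun h => hS 0 h rfl

omit [CharP k 2] in
/-- The share of the shifts of small degree. -/
theorem avg_small {γ η : ℕ} (hη : η ≤ γ) {v : k[X]} (hv : v.degree < γ) :
    avg γ (fun h : k[X] => if (h + v).degree < (γ - η : ℕ) then (1 : ℝ) else 0) =
      1 / qR k ^ η := by
  rw [avg_shift (F := fun h : k[X] => if h.degree < (γ - η : ℕ) then (1 : ℝ) else 0) hv]
  unfold avg
  rw [Finset.sum_boole]
  have e : (Pn k γ).filter (fun h : k[X] => h.degree < (γ - η : ℕ)) = Pn k (γ - η) := by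
    ext h
    rw [Finset.mem_filter, mem_Pn, mem_Pn]
    exact ⟨fun h1 => h1.2, fun h1 => ⟨h1.trans_le (by exact_mod_cast Nat.sub_le _ _), h1⟩⟩
  rw [e, card_Pn]
  obtain ⟨d, rfl⟩ := Nat.exists_eq_add_of_le hη
  have := qR_pos (k := k)
  rw [Nat.add_sub_cancel_left, pow_add]
  field_simp

omit [CharP k 2] in
theorem avg_bad {γ η : ℕ} (hη : η ≤ γ) (S : Multiset k[X]) (hS : ∀ v ∈ S, v.degree < γ) :
    avg γ (fun h : k[X] => if ∃ v ∈ S, (h + v).degree < (γ - η : ℕ) then (1 : ℝ) else 0) ≤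
      (Multiset.card S : ℝ) / qR k ^ η := by
  induction S using Multiset.induction_on with
  | empty => simp [avg_const]
  | cons v S ih =>
    have h1 := ih fun w hw => hS w (Multiset.mem_cons_of_mem hw)
    have h2 := avg_small hη (hS v (Multiset.mem_cons_self _ _))
    refine (avg_mono (G := fun h : k[X] =>
      (if (h + v).degree < (γ - η : ℕ) then (1 : ℝ) else 0) +
        if ∃ v ∈ S, (h + v).degree < (γ - η : ℕ) then (1 : ℝ) else 0) fun h _ => ?_).trans ?_
    · by_cases h3 : ∃ w ∈ v ::ₘ S, (h + w).degree < (γ - η : ℕ)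
      · rw [if_pos h3]
        obtain ⟨w, hw, h4⟩ := h3
        rcases Multiset.mem_cons.1 hw with rfl | hw
        · rw [if_pos h4]
          split_ifs <;> norm_num
        · rw [if_pos (⟨w, hw, h4⟩ : ∃ v ∈ S, (h + v).degree < (γ - η : ℕ))]
          split_ifs <;> norm_num
      · rw [if_neg h3]
        split_ifs <;> norm_num
    · rw [avg_add, h2, Multiset.card_cons, Nat.cast_add, Nat.cast_one, add_div]
      linarith

/-- The statement that is proved by induction on the number of differences. -/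
def Gen (k : Type) [Field k] [Fintype k] (γ η : ℕ) (M : k[X]) (r : ℕ) : Prop :=
  ∀ (V : Multiset k[X]) (Δ : ℕ) (B : k[X]) (R : k[X] → k[X]) (y : ℝ),
    (∀ g h, AV V (g + h) = AV V g + AV V h) →
    (∀ v ∈ V, γ - η ≤ v.natDegree ∧ v.degree < γ) → B ≠ 0 → Dg r R →
    B.natDegree + 2 * (V.map natDegree).sum + 2 * Δ + 1 = M.natDegree →
    2 * (Multiset.card V + 1) * (2 ^ r - 1) * (γ - 1) ≤ Δ →
    Δ < (2 * (Multiset.card V + 1) * (2 ^ r - 1) + 1) * (γ - η) → 0 ≤ y → y ≤ 1 →
    ((Multiset.card V : ℝ) + 1) * 2 ^ r / qR k ^ η ≤ y ^ 2 ^ r →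
    |avg γ fun g => eM M (B * (AV V g ^ 2) ^ (2 ^ (r + 1) - 1) + R g)| ≤ 2 * y

theorem gen_zero {γ η : ℕ} {M : k[X]} (hM : M.Monic) : Gen k γ η M 0 := by
  intro V Δ B R y hA hV hB hR hd _ hΔ hy _ _
  have hΔ' : Δ < γ - η := by simpa using hΔ
  have hV0 : ∀ v ∈ V, v ≠ 0 := fun v hv h0 => by
    have := (hV v hv).1
    rw [h0, natDegree_zero] at this
    omega
  obtain ⟨t, ht⟩ := TwB.exists_ps0 (k := k)
  have hl : B.leadingCoeff * V.prod.leadingCoeff ^ 2 ≠ 0 :=
    mul_ne_zero (leadingCoeff_ne_zero.2 hB) (pow_ne_zero 2 (leadingCoeff_ne_zero.2 (prod_ne hV0)))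
  obtain ⟨c, hc⟩ := (B0.sq_bij (K := k)).2 (t / (B.leadingCoeff * V.prod.leadingCoeff ^ 2))
  have hc' : c ^ 2 = t / (B.leadingCoeff * V.prod.leadingCoeff ^ 2) := hc
  have ht0 : t ≠ 0 := fun h0 => by
    have h1 : ps0 (0 : k) = 1 := B0.ps_zero
    rw [h0, h1] at ht
    norm_num at ht
  have hc0 : c ≠ 0 := fun h0 => by
    rw [h0, zero_pow two_ne_zero, eq_comm, div_eq_zero_iff] at hc'
    exact hc'.elim ht0 hl
  set g0 : k[X] := C c * X ^ Δ with hg0
  have hn : g0.natDegree = Δ := natDegree_C_mul_X_pow Δ c hc0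
  have hlt : ∀ v ∈ V, g0.degree < v.degree := fun v hv =>
    degree_lt_degree (by rw [hn]; exact hΔ'.trans_le (hV v hv).1)
  have hne : ∀ v ∈ V.map fun v => g0 + v, v ≠ 0 := fun v hv h0 => by
    obtain ⟨w, hw, rfl⟩ := Multiset.mem_map.1 hv
    have h1 := degree_add_eq_right_of_degree_lt (hlt w hw)
    rw [h0, degree_zero] at h1
    exact hV0 w hw (degree_eq_bot.1 h1.symm)
  have hg : g0 ≠ 0 := mul_ne_zero (C_ne_zero.2 hc0) (pow_ne_zero _ X_ne_zero)
  have hA0 : AV V g0 ≠ 0 := mul_ne_zero hg (prod_ne hne)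
  have hdeg : (AV V g0).natDegree = Δ + (V.map natDegree).sum := by
    unfold AV
    rw [natDegree_mul hg (prod_ne hne), hn, natDegree_prod hne, Multiset.map_map]
    exact congrArg (fun s => Δ + Multiset.sum s) (Multiset.map_congr rfl fun v hv =>
      natDegree_add_eq_right_of_degree_lt (hlt v hv))
  have hlc : (AV V g0).leadingCoeff = c * V.prod.leadingCoeff := by
    unfold AV
    rw [leadingCoeff_mul, leadingCoeff_multiset_prod, leadingCoeff_multiset_prod, Multiset.map_map,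
      hg0, leadingCoeff_C_mul_X_pow]
    exact congrArg (fun s => c * Multiset.prod s) (Multiset.map_congr rfl fun v hv =>
      leadingCoeff_add_of_degree_lt (hlt v hv))
  have hx : (B * AV V g0 ^ 2).natDegree = M.natDegree - 1 := by
    rw [natDegree_mul hB (pow_ne_zero 2 hA0), natDegree_pow, hdeg]
    omega
  have he : eM M (B * AV V g0 ^ 2) = -1 := by
    rw [TwB.eM_of_lt hM (degree_lt_degree (by omega)), ← hx, coeff_natDegree, leadingCoeff_mul,
      leadingCoeff_pow, hlc, mul_pow, hc', ← ht]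
    congr 1
    rw [mul_comm (t / _), ← mul_assoc, mul_div_cancel₀ _ hl]
  have hs := avg_shift (n := γ) (F := fun g => eM M (B * (AV V g ^ 2) ^ (2 ^ (0 + 1) - 1) + R g))
    (c := g0) (degree_lt_of_natDegree fun _ => by omega)
  rw [avg_congr (G := fun g => -1 * eM M (B * (AV V g ^ 2) ^ (2 ^ (0 + 1) - 1) + R g))
    fun g _ => by
      rw [← he, ← eM_add, hA, CharTwo.add_sq, hR (g + g0), hR g]
      congr 1
      norm_num
      ring, avg_mul_left] at hs
  have h0 : avg γ (fun g => eM M (B * (AV V g ^ 2) ^ (2 ^ (0 + 1) - 1) + R g)) = 0 := by linarith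
  rw [h0, abs_zero]
  positivity

omit [Fintype k] in
theorem diff_pow (r : ℕ) (Y H : k[X]) :
    (Y + H) ^ (2 ^ (r + 1 + 1) - 1) + Y ^ (2 ^ (r + 1 + 1) - 1) =
      H * (Y * (Y + H)) ^ (2 ^ (r + 1) - 1) +
        H ^ 2 ^ (r + 1) * ((Y + H) ^ (2 ^ (r + 1) - 1) + Y ^ (2 ^ (r + 1) - 1)) := by
  have h1 := add_pow_char_pow Y H 2 (r + 1)
  have h2 : (2 : k[X]) = 0 := CharTwo.two_eq_zero
  obtain ⟨j, hj⟩ : ∃ j, 2 ^ (r + 1) = j + 1 := ⟨2 ^ (r + 1) - 1, by
    have : 0 < 2 ^ (r + 1) := by positivity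
    omega⟩
  rw [hj] at h1
  rw [pow_succ 2 (r + 1), hj, show (j + 1) * 2 - 1 = j + 1 + j by omega, Nat.add_sub_cancel,
    pow_add (Y + H) (j + 1) j, h1, pow_add Y (j + 1) j, mul_pow]
  rw [pow_succ (Y + H) j, pow_succ Y j] at h1
  rw [pow_succ Y j]
  generalize (Y + H) ^ j = P at *
  generalize Y ^ j = Q at *
  generalize H ^ (j + 1) = S at *
  linear_combination Q * h1 + (Q * Q * Y - H * P * Q) * h2

theorem gen_succ {γ η r : ℕ} {M : k[X]} (ih : Gen k γ η M r) : Gen k γ η M (r + 1) := by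
  intro V Δ B R y hA hV hB hR hd hΔ1 hΔ2 hy0 hy1 hy
  have hη : η ≤ γ := by
    by_contra h
    rw [show γ - η = 0 by omega, mul_zero] at hΔ2
    omega
  obtain ⟨t, ht⟩ : ∃ t, 2 ^ r = t + 1 := ⟨2 ^ r - 1, by
    have : 0 < 2 ^ r := by positivity
    omega⟩
  set Φ : k[X] → ℝ := fun g => eM M (B * (AV V g ^ 2) ^ (2 ^ (r + 1 + 1) - 1) + R g) with hΦ
  have hsq : avg γ Φ ^ 2 = avg γ fun h => avg γ fun g => Φ (g + h) * Φ g := by
    rw [avg_comm, sq, ← avg_mul_left]
    refine avg_congr fun g hg => ?_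
    rw [avg_mul_right]
    simp only [add_comm g]
    rw [avg_shift hg]
  have hY : ∀ g h, AV V (g + h) ^ 2 = AV V g ^ 2 + AV V h ^ 2 := fun g h => by
    rw [hA, CharTwo.add_sq]
  have good : ∀ h : k[X], h.degree < γ →
      (¬ ∃ v ∈ (0 : k[X]) ::ₘ V, (h + v).degree < (γ - η : ℕ)) →
      |avg γ fun g => Φ (g + h) * Φ g| ≤ 2 * y ^ 2 := by
    intro h hh hg
    have hS : ∀ v ∈ h ::ₘ V.map fun v => h + v,
        v ≠ 0 ∧ γ - η ≤ v.natDegree ∧ v.degree < γ := by
      have key : ∀ v ∈ (0 : k[X]) ::ₘ V, v.degree < γ →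
          h + v ≠ 0 ∧ γ - η ≤ (h + v).natDegree ∧ (h + v).degree < γ := fun v hv hv' => by
        have h1 : ((γ - η : ℕ) : WithBot ℕ) ≤ (h + v).degree := not_lt.1 fun h1 => hg ⟨v, hv, h1⟩
        refine ⟨fun h0 => ?_, le_natDegree_of_coe_le_degree h1,
          (degree_add_le _ _).trans_lt (max_lt hh hv')⟩
        rw [h0, degree_zero] at h1
        exact WithBot.not_coe_le_bot _ h1
      intro v hv
      rcases Multiset.mem_cons.1 hv with rfl | hv
      · simpa using key 0 (Multiset.mem_cons_self _ _) (by simp)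
      · obtain ⟨w, hw, rfl⟩ := Multiset.mem_map.1 hv
        exact key w (Multiset.mem_cons_of_mem hw) (hV w hw).2
    have hAh : AV V h = (h ::ₘ V.map fun v => h + v).prod := (Multiset.prod_cons _ _).symm
    have hA0 : AV V h ≠ 0 := hAh ▸ prod_ne fun v hv => (hS v hv).1
    have hdeg : (AV V h).natDegree = ((h ::ₘ V.map fun v => h + v).map natDegree).sum :=
      hAh ▸ natDegree_prod fun v hv => (hS v hv).1
    have hcard : Multiset.card ((h ::ₘ V.map fun v => h + v).map natDegree) =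
        Multiset.card V + 1 := by simp
    have hlo : (Multiset.card V + 1) * (γ - η) ≤ (AV V h).natDegree := by
      rw [hdeg, ← hcard, ← smul_eq_mul]
      refine Multiset.card_nsmul_le_sum fun x hx => ?_
      obtain ⟨v, hv, rfl⟩ := Multiset.mem_map.1 hx
      exact (hS v hv).2.1
    have hhi : (AV V h).natDegree ≤ (Multiset.card V + 1) * (γ - 1) := by
      rw [hdeg, ← hcard, ← smul_eq_mul]
      refine Multiset.sum_le_card_nsmul _ _ fun x hx => ?_
      obtain ⟨v, hv, rfl⟩ := Multiset.mem_map.1 hx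
      have := natDegree_lt_of_degree (hS v hv).1 (hS v hv).2.2
      omega
    have hc' : Multiset.card (V + h ::ₘ V.map fun v => h + v) + 1 = 2 * (Multiset.card V + 1) := by
      simp
      ring
    have hc'' : ((Multiset.card (V + h ::ₘ V.map fun v => h + v) : ℝ) + 1) =
        2 * ((Multiset.card V : ℝ) + 1) := by exact_mod_cast hc'
    rw [pow_succ, ht, show (t + 1) * 2 - 1 = 2 * t + 1 by omega] at hΔ1 hΔ2
    generalize Multiset.card V + 1 = N at hΔ1 hΔ2 hlo hhi hc'
    have e1 : 2 * N * (2 * t + 1) * (γ - 1) = 2 * (2 * N) * t * (γ - 1) + 2 * (N * (γ - 1)) := by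
      ring
    have e2 : (2 * N * (2 * t + 1) + 1) * (γ - η) =
        (2 * (2 * N) * t + 1) * (γ - η) + 2 * (N * (γ - η)) := by ring
    have h1 := ih (V + h ::ₘ V.map fun v => h + v) (Δ - 2 * (AV V h).natDegree)
      (B * AV V h ^ 2)
      (fun g => B * (AV V h ^ 2) ^ 2 ^ (r + 1) *
        ((AV V (g + h) ^ 2) ^ (2 ^ (r + 1) - 1) + (AV V g ^ 2) ^ (2 ^ (r + 1) - 1)) +
          (R (g + h) + R g)) (y ^ 2) (AV_step_add hA h)
      (fun v hv => (Multiset.mem_add.1 hv).elim (hV v) fun hv => (hS v hv).2)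
      (mul_ne_zero hB (pow_ne_zero 2 hA0))
      (((Dg.pow_lt (r := r + 1) (A := fun g => AV V g ^ 2) hY
        (Nat.sub_lt (by positivity) one_pos) h).mul_left _).add (hR h))
      (by
        rw [natDegree_mul hB (pow_ne_zero 2 hA0), natDegree_pow, Multiset.map_add, Multiset.sum_add,
          ← hdeg]
        omega)
      (by rw [hc', ht, Nat.add_sub_cancel]; omega) (by rw [hc', ht, Nat.add_sub_cancel]; omega)
      (by positivity) (pow_le_one₀ hy0 hy1)
      (by
        rw [hc'', ← pow_mul, ← pow_succ']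
        refine le_trans (le_of_eq ?_) hy
        ring)
    refine le_trans (le_of_eq (congrArg abs (avg_congr fun g _ => ?_))) h1
    simp only [hΦ]
    rw [← eM_add, AV_step, mul_pow, hY g h]
    congr 1
    linear_combination B * diff_pow r (AV V g ^ 2) (AV V h ^ 2)
  have hbad := avg_bad hη ((0 : k[X]) ::ₘ V) fun v hv =>
    (Multiset.mem_cons.1 hv).elim (fun h0 => by simp [h0]) fun hv => (hV v hv).2
  have hle : avg γ Φ ^ 2 ≤ (Multiset.card ((0 : k[X]) ::ₘ V) : ℝ) / qR k ^ η + 2 * y ^ 2 := by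
    rw [hsq]
    refine (avg_mono (G := fun h : k[X] =>
      (if ∃ v ∈ (0 : k[X]) ::ₘ V, (h + v).degree < (γ - η : ℕ) then (1 : ℝ) else 0) + 2 * y ^ 2)
      fun h hh => ?_).trans ?_
    · split_ifs with hg
      · have h1 : |avg γ fun g => Φ (g + h) * Φ g| ≤ 1 := abs_avg_le_of_le fun g _ => by
          simp only [hΦ]
          rw [abs_mul, abs_eM, abs_eM, mul_one]
        have := le_abs_self (avg γ fun g => Φ (g + h) * Φ g)
        nlinarith [sq_nonneg y]
      · rw [zero_add]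
        exact (le_abs_self _).trans (good h hh hg)
    · rw [avg_add, avg_const]
      linarith
  have h3 : (Multiset.card ((0 : k[X]) ::ₘ V) : ℝ) / qR k ^ η ≤ y ^ 2 := by
    refine le_trans ?_ (hy.trans (pow_le_pow_of_le_one hy0 hy1 (by rw [pow_succ, ht]; omega)))
    rw [Multiset.card_cons, Nat.cast_add, Nat.cast_one]
    refine div_le_div_of_nonneg_right (le_mul_of_one_le_right (by positivity) ?_)
      (qR_pow_pos η).le
    exact one_le_pow₀ one_le_two
  exact abs_le_of_sq_le_sq (by nlinarith [sq_nonneg y]) (by positivity)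

theorem gen {γ η : ℕ} {M : k[X]} (hM : M.Monic) (r : ℕ) : Gen k γ η M r := by
  induction r with
  | zero => exact gen_zero hM
  | succ r ih => exact gen_succ ih

end BhV

theorem stV : StV := by
  intro k _ _ _ r γ η Δ M B R y hM hB hR hd h1 h2 hy0 hy1 hy
  have h0 : 0 < 2 ^ r := by positivity
  have e1 : 2 ^ (r + 1) - 2 = 2 * (2 ^ r - 1) := by omega
  have e2 : 2 ^ (r + 1) - 1 = 2 * (2 ^ r - 1) + 1 := by omega
  have h := BhV.gen (γ := γ) (η := η) hM r 0 Δ B R y (fun g h => by simp [BhV.AV])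
    (fun v hv => absurd hv (Multiset.notMem_zero v)) hB hR (by simpa using hd)
    (by rw [e1] at h1; simpa using h1) (by rw [e2] at h2; simpa using h2) hy0 hy1
    (by simpa using hy)
  simpa only [BhV.AV, Multiset.map_zero, Multiset.prod_zero, mul_one] using h

end Pool.Agent.Lib.MP_4b8564_nt
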